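import Pool.Agent.MDS81.GraphCase

set_option autoImplicit false

/-! Element expansions in instances with choosers of size two. -/

namespace Pool.Agent.MDS81

open Finset
open scoped Classical

variable {ι κ : Type*}

/-- exactly one chooser of `e` is taken -/
lemma single_bound {R : ι → κ → Prop} {α β : ℕ → ℝ} (h : Shape α β) {A : Finset ι} {B : Finset κ}
    (hsz : ∀ w ∈ A, sz R w B = 2)
    (IH : ∀ (A' : Finset ι) (B' : Finset κ), A'.card + B'.card < A.card + B.card →
      ((mc R A' B').card : ℝ) ≤ Real.exp (mu2 R α β A' B'))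
    {w : ι} {e x : κ} (hw : w ∈ A) (he : e ∈ B) (hx : x ∈ B) (hxe : x ≠ e) (hwe : R w e) (hwx : R w x)
    (L : Finset κ) (hL : L ⊆ B) (heL : e ∉ L) (hxL : x ∉ L) :
    (((mc R A B).filter (fun D => D ∩ cho R A e = {w})).card : ℝ) ≤
      Real.exp (mu2 R α β A B - ((fr R A e : ℝ) * α 2 + ((cho R A x \ cho R A e).card : ℝ) * (α 2 - α 1)
        + β (fr R A e) + β (fr R A x) + ∑ y ∈ L, (β (fr R A y) - β (fr R A y - (cho R A e ∩ cho R A y).card)))) := by
  have hSsub : insert e (insert x L) ⊆ B :=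
    Finset.insert_subset he (Finset.insert_subset hx hL)
  apply graph_take (R := R) h hsz {w} (cho R A e) (Finset.filter_subset _ _) ⟨w, mem_cho.mpr ⟨hw, hwe⟩⟩ _
      (Finset.filter_subset _ _) (fun D hD => (Finset.mem_filter.mp hD).2)
      (U := cho R A x \ cho R A e) (Finset.sdiff_subset.trans (Finset.filter_subset _ _))
      (fun u hu => (Finset.mem_sdiff.mp hu).2)
      (fun u hu => ⟨x, hx, ⟨w, Finset.mem_singleton_self _, hwx⟩, (mem_cho.mp (Finset.mem_sdiff.mp hu).1).2⟩)
      (S := insert e (insert x L)) hSsub IH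
  rw [Finset.sum_insert (by rw [Finset.mem_insert, not_or]; exact ⟨hxe.symm, heL⟩),
    Finset.sum_insert hxL, act_cov (not_mem_resid (Finset.mem_singleton_self w) hwe),
    act_cov (not_mem_resid (Finset.mem_singleton_self w) hwx), card_cho]
  have h1 : ∑ y ∈ L, (β (fr R A y) - β (fr R A y - (cho R A e ∩ cho R A y).card))
      ≤ ∑ y ∈ L, act R β A (cho R A e) (B.filter (fun e => ∀ w' ∈ ({w} : Finset ι), ¬ R w' e)) y := by
    apply Finset.sum_le_sum
    intro y _
    exact act_lose h (cho R A e ∩ cho R A y) (Finset.inter_subset_left.trans (Finset.filter_subset _ _))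
      Finset.inter_subset_left (fun z hz => (mem_cho.mp (Finset.mem_inter.mp hz).2).2)
  linarith

/-- two choosers of `e` are taken, and those of `Q` are discarded -/
lemma pair_bound {R : ι → κ → Prop} {α β : ℕ → ℝ} (h : Shape α β) {A : Finset ι} {B : Finset κ}
    (hsz : ∀ w ∈ A, sz R w B = 2)
    (IH : ∀ (A' : Finset ι) (B' : Finset κ), A'.card + B'.card < A.card + B.card →
      ((mc R A' B').card : ℝ) ≤ Real.exp (mu2 R α β A' B'))
    {w w' : ι} {e x x' : κ} (hw : w ∈ A) (hw' : w' ∈ A) (hne : w ≠ w') (he : e ∈ B) (hx : x ∈ B) (hx' : x' ∈ B)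
    (hxe : x ≠ e) (hxe' : x' ≠ e) (hxx : x ≠ x') (hwe : R w e) (hwe' : R w' e)
    (hends : ∀ y ∈ B, R w y → y = e ∨ y = x) (hends' : ∀ y ∈ B, R w' y → y = e ∨ y = x')
    (hwx : R w x) (hwx' : R w' x')
    (Q : Finset ι) (hQ : Q ⊆ A) (hQd : Disjoint (cho R A x ∪ cho R A x') Q)
    (L : Finset κ) (hL : L ⊆ B) (heL : e ∉ L) (hxL : x ∉ L) (hxL' : x' ∉ L) :
    (((mc R A B).filter (fun D => w ∈ D ∧ w' ∈ D ∧ D ∩ Q = ∅)).card : ℝ) ≤
      Real.exp (mu2 R α β A B - ((((cho R A x ∪ cho R A x').card : ℝ) + Q.card) * α 2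
        + ((cho R A e \ ((cho R A x ∪ cho R A x') ∪ Q)).card : ℝ) * (α 2 - α 1)
        + β (fr R A e) + β (fr R A x) + β (fr R A x')
        + ∑ y ∈ L, (β (fr R A y) - β (fr R A y - (Q ∩ cho R A y).card)))) := by
  have hSsub : insert e (insert x (insert x' L)) ⊆ B :=
    Finset.insert_subset he (Finset.insert_subset hx (Finset.insert_subset hx' hL))
  have hXA : (cho R A x ∪ cho R A x') ∪ Q ⊆ A :=
    Finset.union_subset (Finset.union_subset (Finset.filter_subset _ _) (Finset.filter_subset _ _)) hQ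
  apply graph_take (R := R) h hsz {w, w'} ((cho R A x ∪ cho R A x') ∪ Q) hXA
      ⟨w, Finset.mem_union_left _ (Finset.mem_union_left _ (mem_cho.mpr ⟨hw, hwx⟩))⟩ _
      (Finset.filter_subset _ _) (by
        intro D hD
        obtain ⟨hDm, hwD, hwD', hDQ⟩ := Finset.mem_filter.mp hD
        have p1 := priv_other hDm hwD hwD' hne.symm hwe' hends
        have p2 := priv_other hDm hwD' hwD hne hwe hends'
        ext z
        simp only [Finset.mem_inter, Finset.mem_union, Finset.mem_insert, Finset.mem_singleton, mem_cho]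
        constructor
        · rintro ⟨hzD, (⟨_, hzx⟩ | ⟨_, hzx⟩) | hzQ⟩
          · exact Or.inl (p1.2 z hzD hzx)
          · exact Or.inr (p2.2 z hzD hzx)
          · have : z ∈ D ∩ Q := Finset.mem_inter.mpr ⟨hzD, hzQ⟩
            rw [hDQ] at this; simp at this
        · rintro (rfl | rfl)
          · exact ⟨hwD, Or.inl (Or.inl ⟨hw, hwx⟩)⟩
          · exact ⟨hwD', Or.inl (Or.inr ⟨hw', hwx'⟩)⟩)
      (U := cho R A e \ ((cho R A x ∪ cho R A x') ∪ Q)) (Finset.sdiff_subset.trans (Finset.filter_subset _ _))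
      (fun u hu => (Finset.mem_sdiff.mp hu).2)
      (fun u hu => ⟨e, he, ⟨w, by simp, hwe⟩, (mem_cho.mp (Finset.mem_sdiff.mp hu).1).2⟩)
      (S := insert e (insert x (insert x' L))) hSsub IH
  have hwI : w ∈ ({w, w'} : Finset ι) := by simp
  have hwI' : w' ∈ ({w, w'} : Finset ι) := by simp
  rw [Finset.sum_insert (by
      rw [Finset.mem_insert, Finset.mem_insert, not_or, not_or]; exact ⟨hxe.symm, hxe'.symm, heL⟩),
    Finset.sum_insert (by rw [Finset.mem_insert, not_or]; exact ⟨hxx, hxL⟩),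
    Finset.sum_insert hxL', act_cov (not_mem_resid hwI hwe),
    act_cov (not_mem_resid hwI hwx), act_cov (not_mem_resid hwI' hwx'),
    Finset.card_union_of_disjoint hQd]
  have h1 : ∑ y ∈ L, (β (fr R A y) - β (fr R A y - (Q ∩ cho R A y).card))
      ≤ ∑ y ∈ L, act R β A ((cho R A x ∪ cho R A x') ∪ Q) (B.filter (fun e => ∀ w'' ∈ ({w, w'} : Finset ι), ¬ R w'' e)) y := by
    apply Finset.sum_le_sum
    intro y _
    exact act_lose h (Q ∩ cho R A y) (Finset.inter_subset_left.trans hQ)
      (Finset.inter_subset_left.trans Finset.subset_union_right)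
      (fun z hz => (mem_cho.mp (Finset.mem_inter.mp hz).2).2)
  push_cast
  linarith

/-- weight lost at an element of frequency `f` when one of its choosers is discarded -/
noncomputable def lose (α β : ℕ → ℝ) (f : ℕ) : ℝ := if f = 2 then β 2 + α 1 else β f - β (f - 1)

/-- element of frequency two with both choosers of size two: one chooser taken, the other discarded -/
lemma single_two {R : ι → κ → Prop} {α β : ℕ → ℝ} (h : Shape α β) {A : Finset ι} {B : Finset κ}
    (hsz : ∀ w ∈ A, sz R w B = 2)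
    (IH : ∀ (A' : Finset ι) (B' : Finset κ), A'.card + B'.card < A.card + B.card →
      ((mc R A' B').card : ℝ) ≤ Real.exp (mu2 R α β A' B'))
    {w1 w2 : ι} {e x1 x2 : κ} (hw1 : w1 ∈ A) (hw2 : w2 ∈ A) (hne : w1 ≠ w2) (he : e ∈ B) (hx1 : x1 ∈ B)
    (hx2 : x2 ∈ B) (hcho : cho R A e = {w1, w2}) (h1e : x1 ≠ e) (h2e : x2 ≠ e) (h12 : x1 ≠ x2)
    (hw1x : R w1 x1) (hw2x : R w2 x2)
    (he1 : ∀ y ∈ B, R w1 y → y = e ∨ y = x1) (he2 : ∀ y ∈ B, R w2 y → y = e ∨ y = x2) :
    (((mc R A B).filter (fun D => D ∩ cho R A e = {w1})).card : ℝ) ≤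
      Real.exp (mu2 R α β A B - (2 * α 2 + ((fr R A x1 : ℝ) - 1) * (α 2 - α 1) + β 2 + β (fr R A x1)
        + lose α β (fr R A x2))) := by
  have hw1e : R w1 e := (mem_cho.mp (by rw [hcho]; simp : w1 ∈ cho R A e)).2
  have hw2e : R w2 e := (mem_cho.mp (by rw [hcho]; simp : w2 ∈ cho R A e)).2
  have hfe : fr R A e = 2 := by rw [← card_cho, hcho, Finset.card_pair hne]
  have hn21 : ¬ R w2 x1 := by
    intro hh; rcases he2 x1 hx1 hh with h3 | h3
    · exact h1e h3
    · exact h12 h3
  have hn12 : ¬ R w1 x2 := by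
    intro hh; rcases he1 x2 hx2 hh with h3 | h3
    · exact h2e h3
    · exact h12 h3.symm
  have hinc : 0 ≤ α 2 - α 1 := sub_nonneg.mpr (h.amono 1)
  have hUcard : ((cho R A x1 \ cho R A e).card : ℝ) = (fr R A x1 : ℝ) - 1 := by
    have h3 : cho R A x1 \ cho R A e = (cho R A x1).erase w1 := by
      ext z
      rw [Finset.mem_sdiff, Finset.mem_erase, hcho]
      simp only [Finset.mem_insert, Finset.mem_singleton, not_or]
      constructor
      · rintro ⟨hz, hz1, _⟩; exact ⟨hz1, hz⟩
      · rintro ⟨hz1, hz⟩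
        refine ⟨hz, hz1, ?_⟩
        rintro rfl; exact hn21 (mem_cho.mp hz).2
    rw [h3]
    have h4 := Finset.card_erase_add_one (mem_cho.mpr ⟨hw1, hw1x⟩ : w1 ∈ cho R A x1)
    rw [card_cho] at h4
    have h5 : (((cho R A x1).erase w1).card : ℝ) + 1 = fr R A x1 := by exact_mod_cast h4
    linarith
  by_cases hf2 : fr R A x2 = 2
  · -- forced chooser
    obtain ⟨u, huA, hu2, hux, hall⟩ := two_choosers hf2 hw2 hw2x
    have hu1 : u ≠ w1 := by rintro rfl; exact hn12 hux
    have hXA : ({w1, w2, u} : Finset ι) ⊆ A := by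
      intro z hz; simp only [Finset.mem_insert, Finset.mem_singleton] at hz
      rcases hz with rfl | rfl | rfl <;> assumption
    have hSsub : ({e, x1, x2} : Finset κ) ⊆ B := by
      intro z hz; simp only [Finset.mem_insert, Finset.mem_singleton] at hz
      rcases hz with rfl | rfl | rfl <;> assumption
    have hU : ∀ z ∈ ((cho R A x1).erase w1).erase u, z ∉ ({w1, w2, u} : Finset ι) := by
      intro z hz
      have h3 := Finset.mem_erase.mp hz
      have h4 := Finset.mem_erase.mp h3.2
      simp only [Finset.mem_insert, Finset.mem_singleton, not_or]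
      refine ⟨h4.1, ?_, h3.1⟩
      rintro rfl; exact hn21 (mem_cho.mp h4.2).2
    apply graph_take (R := R) h hsz {w1, u} {w1, w2, u} hXA ⟨w1, by simp⟩ _
      (Finset.filter_subset _ _) (by
        intro D hD
        have hD' := Finset.mem_filter.mp hD
        have hDm := mem_mc.mp hD'.1
        have hw1D : w1 ∈ D := by
          have : w1 ∈ D ∩ cho R A e := by rw [hD'.2]; simp
          exact (Finset.mem_inter.mp this).1
        have hw2D : w2 ∉ D := by
          intro hh
          have : w2 ∈ D ∩ cho R A e := Finset.mem_inter.mpr ⟨hh, by rw [hcho]; simp⟩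
          rw [hD'.2, Finset.mem_singleton] at this
          exact hne this.symm
        have huD : u ∈ D := by
          obtain ⟨z, hz, hzx⟩ := hDm.2.1 x2 hx2
          rcases hall z (hDm.1 hz) hzx with h5 | h5
          · exact absurd (h5 ▸ hz) hw2D
          · rw [← h5]; exact hz
        ext z
        simp only [Finset.mem_inter, Finset.mem_insert, Finset.mem_singleton]
        constructor
        · rintro ⟨hz, rfl | rfl | rfl⟩
          · exact Or.inl rfl
          · exact absurd hz hw2D
          · exact Or.inr rfl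
        · rintro (rfl | rfl)
          · exact ⟨hw1D, Or.inl rfl⟩
          · exact ⟨huD, Or.inr (Or.inr rfl)⟩)
      (U := ((cho R A x1).erase w1).erase u)
      ((Finset.erase_subset _ _).trans ((Finset.erase_subset _ _).trans (Finset.filter_subset _ _)))
      hU
      (fun z hz => ⟨x1, hx1, ⟨w1, by simp, hw1x⟩,
        (mem_cho.mp (Finset.mem_of_mem_erase (Finset.mem_of_mem_erase hz))).2⟩)
      (S := {e, x1, x2}) hSsub IH
    have hwI : w1 ∈ ({w1, u} : Finset ι) := by simp
    have huI : u ∈ ({w1, u} : Finset ι) := by simp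
    have hS : ∑ y ∈ ({e, x1, x2} : Finset κ), act R β A {w1, w2, u} (B.filter (fun e => ∀ w ∈ ({w1, u} : Finset ι), ¬ R w e)) y
        = β (fr R A e) + (β (fr R A x1) + β (fr R A x2)) := by
      rw [Finset.sum_insert (by simp only [Finset.mem_insert, Finset.mem_singleton, not_or]; exact ⟨h1e.symm, h2e.symm⟩),
        Finset.sum_pair h12, act_cov (not_mem_resid hwI hw1e), act_cov (not_mem_resid hwI hw1x),
        act_cov (not_mem_resid huI hux)]
    rw [hS, hfe, hf2]
    have hXcard : (({w1, w2, u} : Finset ι).card : ℝ) = 3 := by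
      have : ({w1, w2, u} : Finset ι).card = 3 := by
        rw [Finset.card_eq_three]
        exact ⟨w1, w2, u, hne, hu1.symm, hu2.symm, rfl⟩
      rw [this]; norm_num
    have hUc : (fr R A x1 : ℝ) - 2 ≤ ((((cho R A x1).erase w1).erase u).card : ℝ) := by
      have h4 := Finset.card_erase_add_one (mem_cho.mpr ⟨hw1, hw1x⟩ : w1 ∈ cho R A x1)
      rw [card_cho] at h4
      have h5 := Finset.pred_card_le_card_erase (s := (cho R A x1).erase w1) (a := u)
      have h6 : fr R A x1 ≤ (((cho R A x1).erase w1).erase u).card + 2 := by omega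
      have h7 : (fr R A x1 : ℝ) ≤ (((((cho R A x1).erase w1).erase u).card + 2 : ℕ) : ℝ) := by exact_mod_cast h6
      push_cast at h7; linarith
    rw [hXcard]
    unfold lose
    simp only [if_true]
    have h8 := mul_le_mul_of_nonneg_right hUc hinc
    linarith
  · have hb := single_bound (R := R) h hsz IH hw1 he hx1 h1e hw1e hw1x {x2} (by simpa using hx2)
      (by simpa using h2e.symm) (by simpa using h12)
    refine hb.trans (Real.exp_le_exp.mpr ?_)
    rw [Finset.sum_singleton, hUcard, hfe]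
    have h3 : cho R A e ∩ cho R A x2 = {w2} := by
      ext z
      rw [Finset.mem_inter, hcho, mem_cho]
      simp only [Finset.mem_insert, Finset.mem_singleton]
      constructor
      · rintro ⟨rfl | rfl, _, hz⟩
        · exact absurd hz hn12
        · rfl
      · rintro rfl; exact ⟨Or.inr rfl, hw2, hw2x⟩
    rw [h3, Finset.card_singleton]
    unfold lose
    simp only [hf2, if_false]
    push_cast
    linarith

/-- The step at an element of frequency two. -/
theorem graph2_step {R : ι → κ → Prop} {α β : ℕ → ℝ} (h : Shape α β) {A : Finset ι} {B : Finset κ}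
    (hred : Reduced R A B) (hsz : ∀ w ∈ A, sz R w B = 2) (e : κ) (he : e ∈ B) (hfe : fr R A e = 2)
    (hg : ∀ f f' : ℕ, 2 ≤ f → 2 ≤ f' →
      Real.exp (-(2 * α 2 + ((f : ℝ) - 1) * (α 2 - α 1) + β 2 + β f + lose α β f'))
      + Real.exp (-(2 * α 2 + ((f' : ℝ) - 1) * (α 2 - α 1) + β 2 + β f' + lose α β f))
      + Real.exp (-(((max f f' : ℕ) : ℝ) * α 2 + α 2 + β 2 + β f + β f')) ≤ 1)
    (IH : ∀ (A' : Finset ι) (B' : Finset κ), A'.card + B'.card < A.card + B.card →
      ((mc R A' B').card : ℝ) ≤ Real.exp (mu2 R α β A' B')) :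
    ((mc R A B).card : ℝ) ≤ Real.exp (mu2 R α β A B) := by
  rw [← card_cho] at hfe
  obtain ⟨w1, w2, hne, hcho⟩ := Finset.card_eq_two.mp hfe
  have hw1c : w1 ∈ cho R A e := by rw [hcho]; simp
  have hw2c : w2 ∈ cho R A e := by rw [hcho]; simp
  have hw1 := (mem_cho.mp hw1c).1
  have hw2 := (mem_cho.mp hw2c).1
  have hw1e := (mem_cho.mp hw1c).2
  have hw2e := (mem_cho.mp hw2c).2
  obtain ⟨x1, hx1, h1e, hw1x, he1⟩ := ends (hsz w1 hw1) he hw1e
  obtain ⟨x2, hx2, h2e, hw2x, he2⟩ := ends (hsz w2 hw2) he hw2e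
  have h12 : x1 ≠ x2 := by
    rintro rfl
    apply hred.anti x1 hx1 e he h1e
    intro z hz hze
    have : z ∈ cho R A e := mem_cho.mpr ⟨hz, hze⟩
    rw [hcho] at this
    simp only [Finset.mem_insert, Finset.mem_singleton] at this
    rcases this with rfl | rfl <;> assumption
  have b1 := single_two (R := R) h hsz IH hw1 hw2 hne he hx1 hx2 hcho h1e h2e h12 hw1x hw2x he1 he2
  have b2 := single_two (R := R) h hsz IH hw2 hw1 hne.symm he hx2 hx1 (by rw [hcho, Finset.pair_comm])
    h2e h1e h12.symm hw2x hw1x he2 he1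
  have hn21 : ¬ R w2 x1 := by
    intro hh; rcases he2 x1 hx1 hh with h3 | h3
    · exact h1e h3
    · exact h12 h3
  have hn12 : ¬ R w1 x2 := by
    intro hh; rcases he1 x2 hx2 hh with h3 | h3
    · exact h2e h3
    · exact h12 h3.symm
  have b3 := pair_bound (R := R) h hsz IH hw1 hw2 hne he hx1 hx2 h1e h2e h12 hw1e hw2e he1 he2 hw1x hw2x
    ∅ (by simp) (by simp) ∅ (by simp) (by simp) (by simp) (by simp)
  set f := fr R A x1 with hf
  set f' := fr R A x2 with hf'
  have hcardU : max f f' + 1 ≤ (cho R A x1 ∪ cho R A x2).card := by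
    have h3 : f + 1 ≤ (cho R A x1 ∪ cho R A x2).card := by
      have h4 : insert w2 (cho R A x1) ⊆ cho R A x1 ∪ cho R A x2 := by
        intro z hz
        rcases Finset.mem_insert.mp hz with rfl | hz
        · exact Finset.mem_union_right _ (mem_cho.mpr ⟨hw2, hw2x⟩)
        · exact Finset.mem_union_left _ hz
      have h5 := Finset.card_le_card h4
      rw [Finset.card_insert_of_notMem (fun hh => hn21 (mem_cho.mp hh).2), card_cho] at h5
      exact h5
    have h3' : f' + 1 ≤ (cho R A x1 ∪ cho R A x2).card := by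
      have h4 : insert w1 (cho R A x2) ⊆ cho R A x1 ∪ cho R A x2 := by
        intro z hz
        rcases Finset.mem_insert.mp hz with rfl | hz
        · exact Finset.mem_union_left _ (mem_cho.mpr ⟨hw1, hw1x⟩)
        · exact Finset.mem_union_right _ hz
      have h5 := Finset.card_le_card h4
      rw [Finset.card_insert_of_notMem (fun hh => hn12 (mem_cho.mp hh).2), card_cho] at h5
      exact h5
    omega
  have b3' : (((mc R A B).filter (fun D => w1 ∈ D ∧ w2 ∈ D ∧ D ∩ (∅ : Finset ι) = ∅)).card : ℝ) ≤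
      Real.exp (mu2 R α β A B - (((max f f' : ℕ) : ℝ) * α 2 + α 2 + β 2 + β f + β f')) := by
    refine b3.trans (Real.exp_le_exp.mpr ?_)
    have hinc : 0 ≤ α 2 - α 1 := sub_nonneg.mpr (h.amono 1)
    have h4 : 0 ≤ ((cho R A e \ ((cho R A x1 ∪ cho R A x2) ∪ ∅)).card : ℝ) * (α 2 - α 1) :=
      mul_nonneg (Nat.cast_nonneg _) hinc
    have h5 : ((max f f' : ℕ) : ℝ) + 1 ≤ ((cho R A x1 ∪ cho R A x2).card : ℝ) := by exact_mod_cast hcardU
    have h6 := mul_le_mul_of_nonneg_right h5 (h.an 2)
    have h7 : fr R A e = 2 := by rw [← card_cho]; exact hfe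
    rw [h7, Finset.sum_empty, Finset.card_empty]
    push_cast at *
    linarith
  have hcover : mc R A B ⊆ (mc R A B).filter (fun D => D ∩ cho R A e = {w1}) ∪
      ((mc R A B).filter (fun D => D ∩ cho R A e = {w2}) ∪
      (mc R A B).filter (fun D => w1 ∈ D ∧ w2 ∈ D ∧ D ∩ (∅ : Finset ι) = ∅)) := by
    intro D hD
    have hDm := mem_mc.mp hD
    obtain ⟨z, hz, hze⟩ := hDm.2.1 e he
    have hzc : z ∈ cho R A e := mem_cho.mpr ⟨hDm.1 hz, hze⟩
    rw [hcho] at hzc ⊢
    simp only [Finset.mem_insert, Finset.mem_singleton] at hzc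
    rw [Finset.mem_union, Finset.mem_union, Finset.mem_filter, Finset.mem_filter, Finset.mem_filter]
    by_cases h1 : w1 ∈ D
    · by_cases h2 : w2 ∈ D
      · exact Or.inr (Or.inr ⟨hD, h1, h2, Finset.inter_empty _⟩)
      · left
        refine ⟨hD, ?_⟩
        ext y
        simp only [Finset.mem_inter, Finset.mem_insert, Finset.mem_singleton]
        constructor
        · rintro ⟨hy, rfl | rfl⟩
          · rfl
          · exact absurd hy h2
        · rintro rfl; exact ⟨h1, Or.inl rfl⟩
    · have h2 : w2 ∈ D := by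
        rcases hzc with rfl | rfl
        · exact absurd hz h1
        · exact hz
      right; left
      refine ⟨hD, ?_⟩
      ext y
      simp only [Finset.mem_inter, Finset.mem_insert, Finset.mem_singleton]
      constructor
      · rintro ⟨hy, rfl | rfl⟩
        · exact absurd hy h1
        · rfl
      · rintro rfl; exact ⟨h2, Or.inr rfl⟩
  have hcard := (Finset.card_le_card hcover).trans ((Finset.card_union_le _ _).trans
      (Nat.add_le_add_left (Finset.card_union_le _ _) _))
  have hcard' : ((mc R A B).card : ℝ) ≤ (((mc R A B).filter (fun D => D ∩ cho R A e = {w1})).card : ℝ)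
      + (((mc R A B).filter (fun D => D ∩ cho R A e = {w2})).card : ℝ)
      + (((mc R A B).filter (fun D => w1 ∈ D ∧ w2 ∈ D ∧ D ∩ (∅ : Finset ι) = ∅)).card : ℝ) := by
    have h2 : ((mc R A B).card : ℝ) ≤ _ := Nat.cast_le.mpr hcard
    push_cast at h2
    linarith
  refine hcard'.trans ((add_le_add (add_le_add b1 b2) b3').trans ?_)
  exact exp_three (hg f f' (hred.fr2 x1 hx1) (hred.fr2 x2 hx2))

end Pool.Agent.MDS81
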