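import Pool.Agent.MDS81.Graph3

set_option autoImplicit false

/-! The step at an element of frequency three with a double neighbour, and the combined step. -/

namespace Pool.Agent.MDS81

open Finset
open scoped Classical

variable {ι κ : Type*}

/-- the single chooser towards `z` is taken, the double ones towards `x` are discarded -/
lemma single_double {R : ι → κ → Prop} {α β : ℕ → ℝ} (h : Shape α β) {A : Finset ι} {B : Finset κ}
    (hsz : ∀ w ∈ A, sz R w B = 2)
    (IH : ∀ (A' : Finset ι) (B' : Finset κ), A'.card + B'.card < A.card + B.card →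
      ((mc R A' B').card : ℝ) ≤ Real.exp (mu2 R α β A' B'))
    {w1 w2 w3 : ι} {e x z : κ} (hcho : cho R A e = {w1, w2, w3}) (n12 : w1 ≠ w2) (n13 : w1 ≠ w3)
    (n23 : w2 ≠ w3) (he : e ∈ B) (hx : x ∈ B) (hz : z ∈ B) (hxe : x ≠ e) (hze : z ≠ e) (hxz : x ≠ z)
    (hw1x : R w1 x) (hw2x : R w2 x) (hw3z : R w3 z)
    (k1 : ¬ R w1 z) (k2 : ¬ R w2 z) (k3 : ¬ R w3 x) :
    (((mc R A B).filter (fun D => D ∩ cho R A e = {w3})).card : ℝ) ≤
      Real.exp (mu2 R α β A B - (3 * α 2 + ((fr R A z : ℝ) - 1) * (α 2 - α 1) + β 3 + β (fr R A z)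
        + lose2 α β (fr R A x))) := by
  have hw1c : w1 ∈ cho R A e := by rw [hcho]; simp
  have hw2c : w2 ∈ cho R A e := by rw [hcho]; simp
  have hw3c : w3 ∈ cho R A e := by rw [hcho]; simp
  have hw1 := (mem_cho.mp hw1c).1
  have hw2 := (mem_cho.mp hw2c).1
  have hw3 := (mem_cho.mp hw3c).1
  have hw3e := (mem_cho.mp hw3c).2
  have hinc : 0 ≤ α 2 - α 1 := sub_nonneg.mpr (h.amono 1)
  have hfe : fr R A e = 3 := by
    rw [← card_cho, hcho]
    exact Finset.card_eq_three.mpr ⟨w1, w2, w3, n12, n13, n23, rfl⟩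
  have cz : cho R A e ∩ cho R A z = {w3} := by
    ext t; rw [Finset.mem_inter, hcho, mem_cho]; simp only [Finset.mem_insert, Finset.mem_singleton]
    constructor
    · rintro ⟨rfl | rfl | rfl, _, ht⟩
      · exact absurd ht k1
      · exact absurd ht k2
      · rfl
    · rintro rfl; exact ⟨Or.inr (Or.inr rfl), hw3, hw3z⟩
  have hUz : ((cho R A z \ cho R A e).card : ℝ) = (fr R A z : ℝ) - 1 := by
    have h4 := Finset.card_sdiff_add_card_inter (cho R A z) (cho R A e)
    rw [Finset.inter_comm, cz, Finset.card_singleton, card_cho] at h4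
    have h5 : ((cho R A z \ cho R A e).card : ℝ) + 1 = fr R A z := by exact_mod_cast h4
    linarith
  by_cases hf3 : fr R A x = 3
  · -- the third chooser of x is forced
    obtain ⟨u, hux, hu1, hu2⟩ : ∃ u ∈ cho R A x, u ≠ w1 ∧ u ≠ w2 := by
      by_contra hne
      push Not at hne
      have hsub : cho R A x ⊆ {w1, w2} := by
        intro t ht
        by_cases ht1 : t = w1
        · subst ht1; simp
        · have := hne t ht ht1; subst this; simp
      have h4 := Finset.card_le_card hsub
      have h5 : ({w1, w2} : Finset ι).card = 2 := Finset.card_pair n12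
      rw [card_cho] at h4
      omega
    have hux' := mem_cho.mp hux
    have hu3 : u ≠ w3 := by rintro rfl; exact k3 hux'.2
    have hall : ∀ t ∈ A, R t x → t = w1 ∨ t = w2 ∨ t = u := by
      intro t ht htx
      by_contra hne
      push Not at hne
      have hsub : ({w1, w2, u} : Finset ι) ∪ {t} ⊆ cho R A x := by
        intro s hs
        simp only [Finset.mem_union, Finset.mem_insert, Finset.mem_singleton] at hs
        rcases hs with (rfl | rfl | rfl) | rfl
        · exact mem_cho.mpr ⟨hw1, hw1x⟩
        · exact mem_cho.mpr ⟨hw2, hw2x⟩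
        · exact hux
        · exact mem_cho.mpr ⟨ht, htx⟩
      have h4 := Finset.card_le_card hsub
      rw [Finset.card_union_of_disjoint (by
        rw [Finset.disjoint_singleton_right]
        simp only [Finset.mem_insert, Finset.mem_singleton, not_or]
        exact hne), Finset.card_singleton, card_cho] at h4
      have h5 : ({w1, w2, u} : Finset ι).card = 3 :=
        Finset.card_eq_three.mpr ⟨w1, w2, u, n12, hu1.symm, hu2.symm, rfl⟩
      omega
    have hXA : ({w1, w2, w3, u} : Finset ι) ⊆ A := by
      intro t ht; simp only [Finset.mem_insert, Finset.mem_singleton] at ht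
      rcases ht with rfl | rfl | rfl | rfl
      · exact hw1
      · exact hw2
      · exact hw3
      · exact hux'.1
    have hSsub : ({e, z, x} : Finset κ) ⊆ B := by
      intro t ht; simp only [Finset.mem_insert, Finset.mem_singleton] at ht
      rcases ht with rfl | rfl | rfl <;> assumption
    have hU : ∀ t ∈ (cho R A z \ cho R A e).erase u, t ∉ ({w1, w2, w3, u} : Finset ι) := by
      intro t ht
      have h3 := Finset.mem_erase.mp ht
      have h4 := Finset.mem_sdiff.mp h3.2
      rw [hcho] at h4
      simp only [Finset.mem_insert, Finset.mem_singleton, not_or] at h4 ⊢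
      exact ⟨h4.2.1, h4.2.2.1, h4.2.2.2, h3.1⟩
    apply graph_take (R := R) h hsz {w3, u} {w1, w2, w3, u} hXA ⟨w1, by simp⟩ _
      (Finset.filter_subset _ _) (by
        intro D hD
        have hD' := Finset.mem_filter.mp hD
        have hDm := mem_mc.mp hD'.1
        have hin : ∀ t, t ∈ cho R A e → t ∈ D → t = w3 := by
          intro t ht htD
          have : t ∈ D ∩ cho R A e := Finset.mem_inter.mpr ⟨htD, ht⟩
          rw [hD'.2, Finset.mem_singleton] at this; exact this
        have hw3D : w3 ∈ D := by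
          have : w3 ∈ D ∩ cho R A e := by rw [hD'.2]; simp
          exact (Finset.mem_inter.mp this).1
        have hw1D : w1 ∉ D := fun hh => n13 (hin w1 hw1c hh)
        have hw2D : w2 ∉ D := fun hh => n23 (hin w2 hw2c hh)
        have huD : u ∈ D := by
          obtain ⟨t, ht, htx⟩ := hDm.2.1 x hx
          rcases hall t (hDm.1 ht) htx with h5 | h5 | h5
          · exact absurd (h5 ▸ ht) hw1D
          · exact absurd (h5 ▸ ht) hw2D
          · rw [← h5]; exact ht
        ext t
        simp only [Finset.mem_inter, Finset.mem_insert, Finset.mem_singleton]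
        constructor
        · rintro ⟨ht, rfl | rfl | rfl | rfl⟩
          · exact absurd ht hw1D
          · exact absurd ht hw2D
          · exact Or.inl rfl
          · exact Or.inr rfl
        · rintro (rfl | rfl)
          · exact ⟨hw3D, Or.inr (Or.inr (Or.inl rfl))⟩
          · exact ⟨huD, Or.inr (Or.inr (Or.inr rfl))⟩)
      (U := (cho R A z \ cho R A e).erase u)
      ((Finset.erase_subset _ _).trans (Finset.sdiff_subset.trans (Finset.filter_subset _ _)))
      hU
      (fun t ht => ⟨z, hz, ⟨w3, by simp, hw3z⟩,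
        (mem_cho.mp (Finset.mem_sdiff.mp (Finset.mem_of_mem_erase ht)).1).2⟩)
      (S := {e, z, x}) hSsub IH
    have hwI : w3 ∈ ({w3, u} : Finset ι) := by simp
    have huI : u ∈ ({w3, u} : Finset ι) := by simp
    have hS : ∑ y ∈ ({e, z, x} : Finset κ), act R β A {w1, w2, w3, u} (B.filter (fun e => ∀ w ∈ ({w3, u} : Finset ι), ¬ R w e)) y
        = β (fr R A e) + (β (fr R A z) + β (fr R A x)) := by
      rw [Finset.sum_insert (by simp only [Finset.mem_insert, Finset.mem_singleton, not_or]; exact ⟨hze.symm, hxe.symm⟩),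
        Finset.sum_pair hxz.symm, act_cov (not_mem_resid hwI hw3e), act_cov (not_mem_resid hwI hw3z),
        act_cov (not_mem_resid huI hux'.2)]
    rw [hS, hfe, hf3]
    have hXcard : (({w1, w2, w3, u} : Finset ι).card : ℝ) = 4 := by
      have : ({w1, w2, w3, u} : Finset ι).card = 4 := by
        rw [Finset.card_insert_of_notMem (by
          simp only [Finset.mem_insert, Finset.mem_singleton, not_or]; exact ⟨n12, n13, hu1.symm⟩)]
        rw [Finset.card_eq_three.mpr ⟨w2, w3, u, n23, hu2.symm, hu3.symm, rfl⟩]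
      rw [this]; norm_num
    have hUc : (fr R A z : ℝ) - 2 ≤ (((cho R A z \ cho R A e).erase u).card : ℝ) := by
      have h5 := Finset.pred_card_le_card_erase (s := cho R A z \ cho R A e) (a := u)
      have h6 : (cho R A z \ cho R A e).card ≤ ((cho R A z \ cho R A e).erase u).card + 1 := by omega
      have h7 : ((cho R A z \ cho R A e).card : ℝ) ≤ ((((cho R A z \ cho R A e).erase u).card + 1 : ℕ) : ℝ) := by
        exact_mod_cast h6
      rw [hUz] at h7
      push_cast at h7; linarith
    rw [hXcard]
    unfold lose2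
    simp only [if_true]
    have h8 := mul_le_mul_of_nonneg_right hUc hinc
    linarith
  · have hb := single_bound (R := R) h hsz IH hw3 he hz hze hw3e hw3z {x} (by simpa using hx)
      (by simpa using hxe.symm) (by simpa using hxz.symm)
    refine hb.trans (Real.exp_le_exp.mpr ?_)
    rw [Finset.sum_singleton, hUz, hfe]
    have h3 : cho R A e ∩ cho R A x = {w1, w2} := by
      ext t
      rw [Finset.mem_inter, hcho, mem_cho]
      simp only [Finset.mem_insert, Finset.mem_singleton]
      constructor
      · rintro ⟨rfl | rfl | rfl, _, ht⟩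
        · exact Or.inl rfl
        · exact Or.inr rfl
        · exact absurd ht k3
      · rintro (rfl | rfl)
        · exact ⟨Or.inl rfl, hw1, hw1x⟩
        · exact ⟨Or.inr (Or.inl rfl), hw2, hw2x⟩
    rw [h3, Finset.card_pair n12]
    unfold lose2
    simp only [hf3, if_false]
    push_cast
    linarith

/-- a double and a single neighbour -/
theorem graph3b_step {R : ι → κ → Prop} {α β : ℕ → ℝ} (h : Shape α β) {A : Finset ι} {B : Finset κ}
    (hsz : ∀ w ∈ A, sz R w B = 2) (hfr : ∀ y ∈ B, 3 ≤ fr R A y) {e x z : κ} {w1 w2 w3 : ι}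
    (he : e ∈ B) (hcho : cho R A e = {w1, w2, w3}) (n12 : w1 ≠ w2) (n13 : w1 ≠ w3) (n23 : w2 ≠ w3)
    (hx : x ∈ B) (hz : z ∈ B) (hxe : x ≠ e) (hze : z ≠ e) (hxz : x ≠ z)
    (hw1x : R w1 x) (hw2x : R w2 x) (hw3z : R w3 z)
    (he1 : ∀ y ∈ B, R w1 y → y = e ∨ y = x) (he2 : ∀ y ∈ B, R w2 y → y = e ∨ y = x)
    (he3 : ∀ y ∈ B, R w3 y → y = e ∨ y = z)
    (hg : G3b α β)
    (IH : ∀ (A' : Finset ι) (B' : Finset κ), A'.card + B'.card < A.card + B.card →
      ((mc R A' B').card : ℝ) ≤ Real.exp (mu2 R α β A' B')) :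
    ((mc R A B).card : ℝ) ≤ Real.exp (mu2 R α β A B) := by
  have hw1c : w1 ∈ cho R A e := by rw [hcho]; simp
  have hw2c : w2 ∈ cho R A e := by rw [hcho]; simp
  have hw3c : w3 ∈ cho R A e := by rw [hcho]; simp
  have hw1 := (mem_cho.mp hw1c).1
  have hw2 := (mem_cho.mp hw2c).1
  have hw3 := (mem_cho.mp hw3c).1
  have hw1e := (mem_cho.mp hw1c).2
  have hw2e := (mem_cho.mp hw2c).2
  have hw3e := (mem_cho.mp hw3c).2
  have hinc : 0 ≤ α 2 - α 1 := sub_nonneg.mpr (h.amono 1)
  have hfe : fr R A e = 3 := by
    rw [← card_cho, hcho]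
    exact Finset.card_eq_three.mpr ⟨w1, w2, w3, n12, n13, n23, rfl⟩
  have k1 : ¬ R w1 z := fun hh => by
    rcases he1 z hz hh with h4 | h4
    · exact hze h4
    · exact hxz h4.symm
  have k2 : ¬ R w2 z := fun hh => by
    rcases he2 z hz hh with h4 | h4
    · exact hze h4
    · exact hxz h4.symm
  have k3 : ¬ R w3 x := fun hh => by
    rcases he3 x hx hh with h4 | h4
    · exact hxe h4
    · exact hxz h4
  have cx : cho R A e ∩ cho R A x = {w1, w2} := by
    ext t
    rw [Finset.mem_inter, hcho, mem_cho]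
    simp only [Finset.mem_insert, Finset.mem_singleton]
    constructor
    · rintro ⟨rfl | rfl | rfl, _, ht⟩
      · exact Or.inl rfl
      · exact Or.inr rfl
      · exact absurd ht k3
    · rintro (rfl | rfl)
      · exact ⟨Or.inl rfl, hw1, hw1x⟩
      · exact ⟨Or.inr (Or.inl rfl), hw2, hw2x⟩
  have cz : cho R A e ∩ cho R A z = {w3} := by
    ext t; rw [Finset.mem_inter, hcho, mem_cho]; simp only [Finset.mem_insert, Finset.mem_singleton]
    constructor
    · rintro ⟨rfl | rfl | rfl, _, ht⟩
      · exact absurd ht k1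
      · exact absurd ht k2
      · rfl
    · rintro rfl; exact ⟨Or.inr (Or.inr rfl), hw3, hw3z⟩
  have hUx : ((cho R A x \ cho R A e).card : ℝ) = (fr R A x : ℝ) - 2 := by
    have h4 := Finset.card_sdiff_add_card_inter (cho R A x) (cho R A e)
    rw [Finset.inter_comm, cx, Finset.card_pair n12, card_cho] at h4
    have h5 : ((cho R A x \ cho R A e).card : ℝ) + 2 = fr R A x := by exact_mod_cast h4
    linarith
  set f := fr R A x with hf
  set g := fr R A z with hgz
  have s1 : (((mc R A B).filter (fun D => D ∩ cho R A e = {w1})).card : ℝ) ≤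
      Real.exp (mu2 R α β A B - (3 * α 2 + ((f : ℝ) - 2) * (α 2 - α 1) + β 3 + β f + (β g - β (g - 1)))) := by
    have hb := single_bound (R := R) h hsz IH hw1 he hx hxe hw1e hw1x {z} (by simpa using hz)
      (by simpa using hze.symm) (by simpa using hxz)
    rw [Finset.sum_singleton, hUx, hfe, cz, Finset.card_singleton] at hb
    push_cast at hb
    exact hb
  have s2 : (((mc R A B).filter (fun D => D ∩ cho R A e = {w2})).card : ℝ) ≤
      Real.exp (mu2 R α β A B - (3 * α 2 + ((f : ℝ) - 2) * (α 2 - α 1) + β 3 + β f + (β g - β (g - 1)))) := by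
    have hb := single_bound (R := R) h hsz IH hw2 he hx hxe hw2e hw2x {z} (by simpa using hz)
      (by simpa using hze.symm) (by simpa using hxz)
    rw [Finset.sum_singleton, hUx, hfe, cz, Finset.card_singleton] at hb
    push_cast at hb
    exact hb
  have s3 := single_double (R := R) h hsz IH hcho n12 n13 n23 he hx hz hxe hze hxz hw1x hw2x hw3z k1 k2 k3
  rw [← hf, ← hgz] at s3
  have m1 : w1 ∈ cho R A x := mem_cho.mpr ⟨hw1, hw1x⟩
  have m2 : w2 ∈ cho R A x := mem_cho.mpr ⟨hw2, hw2x⟩
  have m3 : w3 ∈ cho R A z := mem_cho.mpr ⟨hw3, hw3z⟩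
  have hN : max (f + 1) (g + 2) ≤ (cho R A x ∪ cho R A z).card := by
    have h1 : f + 1 ≤ (cho R A x ∪ cho R A z).card := by
      have h4 : insert w3 (cho R A x) ⊆ cho R A x ∪ cho R A z := by
        intro t ht
        rcases Finset.mem_insert.mp ht with rfl | ht
        · exact Finset.mem_union_right _ m3
        · exact Finset.mem_union_left _ ht
      have h5 := Finset.card_le_card h4
      rw [Finset.card_insert_of_notMem (fun hh => k3 (mem_cho.mp hh).2), card_cho] at h5
      exact h5
    have h2 : g + 2 ≤ (cho R A x ∪ cho R A z).card := by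
      have h4 : insert w1 (insert w2 (cho R A z)) ⊆ cho R A x ∪ cho R A z := by
        intro t ht
        rcases Finset.mem_insert.mp ht with rfl | ht
        · exact Finset.mem_union_left _ m1
        · rcases Finset.mem_insert.mp ht with rfl | ht
          · exact Finset.mem_union_left _ m2
          · exact Finset.mem_union_right _ ht
      have h5 := Finset.card_le_card h4
      rw [Finset.card_insert_of_notMem (by
        rw [Finset.mem_insert, not_or]; exact ⟨n12, fun hh => k1 (mem_cho.mp hh).2⟩),
        Finset.card_insert_of_notMem (fun hh => k2 (mem_cho.mp hh).2), card_cho] at h5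
      exact h5
    omega
  have hNr : ((max (f + 1) (g + 2) : ℕ) : ℝ) ≤ ((cho R A x ∪ cho R A z).card : ℝ) := by exact_mod_cast hN
  have hNm := mul_le_mul_of_nonneg_right hNr (h.an 2)
  have p13 : (((mc R A B).filter (fun D => w1 ∈ D ∧ w3 ∈ D ∧ D ∩ (∅ : Finset ι) = ∅)).card : ℝ) ≤
      Real.exp (mu2 R α β A B - (((max (f + 1) (g + 2) : ℕ) : ℝ) * α 2 + β 3 + β f + β g)) := by
    have hb := pair_bound (R := R) h hsz IH hw1 hw3 n13 he hx hz hxe hze hxz hw1e hw3e he1 he3 hw1x hw3z
      ∅ (by simp) (by simp) ∅ (by simp) (by simp) (by simp) (by simp)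
    refine hb.trans (Real.exp_le_exp.mpr ?_)
    have h4 : 0 ≤ ((cho R A e \ ((cho R A x ∪ cho R A z) ∪ ∅)).card : ℝ) * (α 2 - α 1) :=
      mul_nonneg (Nat.cast_nonneg _) hinc
    rw [hfe, Finset.sum_empty, Finset.card_empty]
    push_cast at hNm ⊢
    linarith
  have p23 : (((mc R A B).filter (fun D => w2 ∈ D ∧ w3 ∈ D ∧ D ∩ (∅ : Finset ι) = ∅)).card : ℝ) ≤
      Real.exp (mu2 R α β A B - (((max (f + 1) (g + 2) : ℕ) : ℝ) * α 2 + β 3 + β f + β g)) := by
    have hb := pair_bound (R := R) h hsz IH hw2 hw3 n23 he hx hz hxe hze hxz hw2e hw3e he2 he3 hw2x hw3z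
      ∅ (by simp) (by simp) ∅ (by simp) (by simp) (by simp) (by simp)
    refine hb.trans (Real.exp_le_exp.mpr ?_)
    have h4 : 0 ≤ ((cho R A e \ ((cho R A x ∪ cho R A z) ∪ ∅)).card : ℝ) * (α 2 - α 1) :=
      mul_nonneg (Nat.cast_nonneg _) hinc
    rw [hfe, Finset.sum_empty, Finset.card_empty]
    push_cast at hNm ⊢
    linarith
  have hcover : mc R A B ⊆ (mc R A B).filter (fun D => D ∩ cho R A e = {w1}) ∪
      ((mc R A B).filter (fun D => D ∩ cho R A e = {w2}) ∪
      ((mc R A B).filter (fun D => D ∩ cho R A e = {w3}) ∪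
      ((mc R A B).filter (fun D => w1 ∈ D ∧ w3 ∈ D ∧ D ∩ (∅ : Finset ι) = ∅) ∪
      (mc R A B).filter (fun D => w2 ∈ D ∧ w3 ∈ D ∧ D ∩ (∅ : Finset ι) = ∅)))) := by
    intro D hD
    have hDm := mem_mc.mp hD
    obtain ⟨t, ht, hte⟩ := hDm.2.1 e he
    have htc : t ∈ cho R A e := mem_cho.mpr ⟨hDm.1 ht, hte⟩
    rw [hcho] at htc ⊢
    simp only [Finset.mem_insert, Finset.mem_singleton] at htc
    simp only [Finset.mem_union, Finset.mem_filter]
    have single : ∀ u v t : ι, u ∈ D → v ∉ D → t ∉ D → (∀ y, y ∈ ({w1, w2, w3} : Finset ι) ↔ y = u ∨ y = v ∨ y = t) →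
        D ∩ {w1, w2, w3} = {u} := by
      intro u v t hu hv ht hall
      ext y
      rw [Finset.mem_inter, hall, Finset.mem_singleton]
      constructor
      · rintro ⟨hy, rfl | rfl | rfl⟩
        · rfl
        · exact absurd hy hv
        · exact absurd hy ht
      · rintro rfl; exact ⟨hu, Or.inl rfl⟩
    by_cases h3 : w3 ∈ D
    · by_cases h1 : w1 ∈ D
      · right; right; right; left; exact ⟨hD, h1, h3, Finset.inter_empty _⟩
      · by_cases h2 : w2 ∈ D
        · right; right; right; right; exact ⟨hD, h2, h3, Finset.inter_empty _⟩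
        · right; right; left
          exact ⟨hD, single w3 w1 w2 h3 h1 h2 (fun y => by
            simp only [Finset.mem_insert, Finset.mem_singleton]
            constructor
            · intro h
              rcases h with h | h | h
              exacts [Or.inr (Or.inl h), Or.inr (Or.inr h), Or.inl h]
            · intro h
              rcases h with h | h | h
              exacts [Or.inr (Or.inr h), Or.inl h, Or.inr (Or.inl h)])⟩
    · by_cases h1 : w1 ∈ D
      · by_cases h2 : w2 ∈ D
        · -- twins cannot both be taken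
          exfalso
          have p := priv_other hD h1 h2 n12.symm hw2e he1
          exact n12 (p.2 w2 h2 hw2x).symm
        · left
          exact ⟨hD, single w1 w2 w3 h1 h2 h3 (fun y => by simp only [Finset.mem_insert, Finset.mem_singleton])⟩
      · have h2 : w2 ∈ D := by
          rcases htc with rfl | rfl | rfl
          · exact absurd ht h1
          · exact ht
          · exact absurd ht h3
        right; left
        exact ⟨hD, single w2 w1 w3 h2 h1 h3 (fun y => by
          simp only [Finset.mem_insert, Finset.mem_singleton]; exact or_left_comm)⟩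
  exact (card_five hcover).trans ((add_le_add (add_le_add (add_le_add (add_le_add s1 s2) s3)
    p13) p23).trans (exp_five (hg f g (hfr x hx) (hfr z hz))))

/-- The step at an element of frequency three. -/
theorem graph3_step {R : ι → κ → Prop} {α β : ℕ → ℝ} (h : Shape α β) {A : Finset ι} {B : Finset κ}
    (hred : Reduced R A B) (hsz : ∀ w ∈ A, sz R w B = 2) (hfr : ∀ y ∈ B, 3 ≤ fr R A y) (e : κ)
    (he : e ∈ B) (hfe : fr R A e = 3) (hga : G3a α β) (hgb : G3b α β)
    (IH : ∀ (A' : Finset ι) (B' : Finset κ), A'.card + B'.card < A.card + B.card →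
      ((mc R A' B').card : ℝ) ≤ Real.exp (mu2 R α β A' B')) :
    ((mc R A B).card : ℝ) ≤ Real.exp (mu2 R α β A B) := by
  rw [← card_cho] at hfe
  obtain ⟨w1, w2, w3, n12, n13, n23, hcho⟩ := Finset.card_eq_three.mp hfe
  have hw1c : w1 ∈ cho R A e := by rw [hcho]; simp
  have hw2c : w2 ∈ cho R A e := by rw [hcho]; simp
  have hw3c : w3 ∈ cho R A e := by rw [hcho]; simp
  obtain ⟨x1, hx1, h1e, hw1x, he1⟩ := ends (hsz w1 (mem_cho.mp hw1c).1) he (mem_cho.mp hw1c).2
  obtain ⟨x2, hx2, h2e, hw2x, he2⟩ := ends (hsz w2 (mem_cho.mp hw2c).1) he (mem_cho.mp hw2c).2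
  obtain ⟨x3, hx3, h3e, hw3x, he3⟩ := ends (hsz w3 (mem_cho.mp hw3c).1) he (mem_cho.mp hw3c).2
  by_cases h12 : x1 = x2
  · subst h12
    by_cases h13 : x1 = x3
    · subst h13
      exfalso
      apply hred.anti x1 hx1 e he h1e
      intro z hz hze
      have : z ∈ cho R A e := mem_cho.mpr ⟨hz, hze⟩
      rw [hcho] at this
      simp only [Finset.mem_insert, Finset.mem_singleton] at this
      rcases this with rfl | rfl | rfl <;> assumption
    · exact graph3b_step (R := R) h hsz hfr he hcho n12 n13 n23 hx1 hx3 h1e h3e h13 hw1x hw2x hw3x he1 he2 he3 hgb IH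
  · by_cases h13 : x1 = x3
    · subst h13
      have hcho' : cho R A e = {w1, w3, w2} := by rw [hcho, Finset.pair_comm w2 w3]
      exact graph3b_step (R := R) h hsz hfr he hcho' n13 n12 n23.symm hx1 hx2 h1e h2e h12 hw1x hw3x hw2x he1 he3 he2 hgb IH
    · by_cases h23 : x2 = x3
      · subst h23
        have hcho' : cho R A e = {w2, w3, w1} := by
          rw [hcho]; ext y; simp only [Finset.mem_insert, Finset.mem_singleton]
          constructor
          · intro h
            rcases h with h | h | h
            exacts [Or.inr (Or.inr h), Or.inl h, Or.inr (Or.inl h)]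
          · intro h
            rcases h with h | h | h
            exacts [Or.inr (Or.inl h), Or.inr (Or.inr h), Or.inl h]
        exact graph3b_step (R := R) h hsz hfr he hcho' n23 n12.symm n13.symm hx2 hx1 h2e h1e (Ne.symm h12) hw2x hw3x hw1x he2 he3 he1 hgb IH
      · exact graph3a_step (R := R) h hsz hfr he hcho n12 n13 n23 hx1 hx2 hx3 h1e h2e h3e h12 h13 h23 hw1x hw2x hw3x he1 he2 he3 hga IH

end Pool.Agent.MDS81
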