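import Pool.Agent.MDS81.GraphCase

set_option autoImplicit false

/-! All choosers have size two and all frequencies are at least four. -/

namespace Pool.Agent.MDS81

open Finset
open scoped Classical

variable {ι κ : Type*}

/-- choosers containing all elements of `w` -/
noncomputable def twins (R : ι → κ → Prop) (A : Finset ι) (B : Finset κ) (w : ι) : Finset ι :=
  A.filter (fun w' => ∀ y ∈ B, R w y → R w' y)

lemma mult_bound {R : ι → κ → Prop} {A : Finset ι} {B : Finset κ} (hred : Reduced R A B)
    (hsz : ∀ w ∈ A, sz R w B = 2) {w : ι}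
    (hmin : ∀ w' ∈ A, (twins R A B w).card ≤ (twins R A B w').card) {e x : κ} (he : e ∈ B) (hx : x ∈ B)
    (hxe : x ≠ e) (hwe : R w e) (hwx : R w x) :
    2 * (twins R A B w).card ≤ fr R A e := by
  have h1 := hred.anti x hx e he hxe
  push Not at h1
  obtain ⟨v, hv, hve, hvx⟩ := h1
  obtain ⟨z, hz, hze, hvz, hall⟩ := ends (hsz v hv) he hve
  have hzx : z ≠ x := fun hh => hvx (hh ▸ hvz)
  have hdisj : Disjoint (twins R A B w) (twins R A B v) := by
    rw [Finset.disjoint_left]
    intro u hu hu'
    have hu1 := Finset.mem_filter.mp hu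
    have hu2 := Finset.mem_filter.mp hu'
    have hsub : ({e, x, z} : Finset κ) ⊆ B.filter (fun y => R u y) := by
      intro y hy
      simp only [Finset.mem_insert, Finset.mem_singleton] at hy
      rcases hy with rfl | rfl | rfl
      · exact Finset.mem_filter.mpr ⟨he, hu1.2 _ he hwe⟩
      · exact Finset.mem_filter.mpr ⟨hx, hu1.2 _ hx hwx⟩
      · exact Finset.mem_filter.mpr ⟨hz, hu2.2 _ hz hvz⟩
    have h3 : ({e, x, z} : Finset κ).card = 3 := by
      rw [Finset.card_eq_three]
      exact ⟨e, x, z, hxe.symm, hze.symm, hzx.symm, rfl⟩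
    have h4 := Finset.card_le_card hsub
    have h5 := hsz u hu1.1
    unfold sz at h5
    omega
  have hsub : twins R A B w ∪ twins R A B v ⊆ A.filter (fun w => R w e) := by
    intro u hu
    rcases Finset.mem_union.mp hu with h2 | h2
    · have h3 := Finset.mem_filter.mp h2
      exact Finset.mem_filter.mpr ⟨h3.1, h3.2 e he hwe⟩
    · have h3 := Finset.mem_filter.mp h2
      exact Finset.mem_filter.mpr ⟨h3.1, h3.2 e he hve⟩
  have h2 := Finset.card_le_card hsub
  rw [Finset.card_union_of_disjoint hdisj] at h2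
  have h3 := hmin v hv
  unfold fr
  omega

theorem graph4_step {R : ι → κ → Prop} {α β : ℕ → ℝ} (h : Shape α β) {A : Finset ι} {B : Finset κ}
    (hred : Reduced R A B) (hsz : ∀ w ∈ A, sz R w B = 2) (hfr : ∀ e ∈ B, 4 ≤ fr R A e)
    (hne : A.Nonempty)
    (hg : ∀ f f' : ℕ, 4 ≤ f → 4 ≤ f' →
      Real.exp (-(α 2 + (β f - β (f - 1)) + (β f' - β (f' - 1))))
      + Real.exp (-((f : ℝ) * α 2 + 2 * (α 2 - α 1) + β f + β f'))
      + Real.exp (-((f' : ℝ) * α 2 + 2 * (α 2 - α 1) + β f + β f')) ≤ 1)
    (IH : ∀ (A' : Finset ι) (B' : Finset κ), A'.card + B'.card < A.card + B.card →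
      ((mc R A' B').card : ℝ) ≤ Real.exp (mu2 R α β A' B')) :
    ((mc R A B).card : ℝ) ≤ Real.exp (mu2 R α β A B) := by
  obtain ⟨w, hw, hmin⟩ := Finset.exists_min_image A (fun w => (twins R A B w).card) hne
  have hpos : 0 < sz R w B := by rw [hsz w hw]; norm_num
  obtain ⟨e, he0⟩ := Finset.card_pos.mp hpos
  have he := (Finset.mem_filter.mp he0).1
  have hwe := (Finset.mem_filter.mp he0).2
  obtain ⟨x, hx, hxe, hwx, hends⟩ := ends (hsz w hw) he hwe
  have hm1 := mult_bound hred hsz hmin he hx hxe hwe hwx
  have hm2 := mult_bound hred hsz hmin hx he hxe.symm hwx hwe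
  have hinc : 0 ≤ α 2 - α 1 := sub_nonneg.mpr (h.amono 1)
  have hint : ∀ z, z ∈ cho R A e → z ∈ cho R A x → z ∈ twins R A B w := by
    intro z hz hz'
    refine Finset.mem_filter.mpr ⟨(mem_cho.mp hz).1, ?_⟩
    intro y hy hwy
    rcases hends y hy hwy with rfl | rfl
    · exact (mem_cho.mp hz).2
    · exact (mem_cho.mp hz').2
  have hcardx : 2 ≤ (cho R A x \ cho R A e).card := by
    have h1 : (cho R A x).card ≤ (cho R A x \ cho R A e).card + (twins R A B w).card := by
      have h2 : (cho R A x).card = (cho R A x \ cho R A e).card + (cho R A x ∩ cho R A e).card :=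
        (Finset.card_sdiff_add_card_inter _ _).symm
      have h3 : (cho R A x ∩ cho R A e).card ≤ (twins R A B w).card :=
        Finset.card_le_card (fun z hz => hint z (Finset.mem_inter.mp hz).2 (Finset.mem_inter.mp hz).1)
      omega
    rw [card_cho] at h1
    have := hfr x hx
    omega
  have hcarde : 2 ≤ (cho R A e \ cho R A x).card := by
    have h1 : (cho R A e).card ≤ (cho R A e \ cho R A x).card + (twins R A B w).card := by
      have h2 : (cho R A e).card = (cho R A e \ cho R A x).card + (cho R A e ∩ cho R A x).card :=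
        (Finset.card_sdiff_add_card_inter _ _).symm
      have h3 : (cho R A e ∩ cho R A x).card ≤ (twins R A B w).card :=
        Finset.card_le_card (fun z hz => hint z (Finset.mem_inter.mp hz).1 (Finset.mem_inter.mp hz).2)
      omega
    rw [card_cho] at h1
    have := hfr e he
    omega
  set f := fr R A e with hf
  set f' := fr R A x with hf'
  have hwce : w ∈ cho R A e := mem_cho.mpr ⟨hw, hwe⟩
  have hwcx : w ∈ cho R A x := mem_cho.mpr ⟨hw, hwx⟩
  have hSsub : ({e, x} : Finset κ) ⊆ B := by
    intro y hy; simp only [Finset.mem_insert, Finset.mem_singleton] at hy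
    rcases hy with rfl | rfl <;> assumption
  -- w not taken
  have b0 : (((mc R A B).filter (fun D => w ∉ D)).card : ℝ) ≤
      Real.exp (mu2 R α β A B - (α 2 + (β f - β (f - 1)) + (β f' - β (f' - 1)))) := by
    apply graph_take (R := R) h hsz ∅ {w} (by simpa using hw) (Finset.singleton_nonempty w) _
      (Finset.filter_subset _ _) (by
        intro D hD
        have := (Finset.mem_filter.mp hD).2
        exact Finset.inter_singleton_of_notMem this)
      (U := ∅) (by simp) (by simp) (by simp) (S := {e, x}) hSsub IH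
    rw [Finset.sum_pair hxe.symm, Finset.card_singleton, Finset.card_empty]
    have h1 := act_lose (R := R) (A := A) (X := {w}) (B' := B.filter (fun e => ∀ w ∈ (∅ : Finset ι), ¬ R w e))
      (y := e) h {w} (by simpa using hw) (Finset.Subset.refl _) (by simpa using hwe)
    have h2 := act_lose (R := R) (A := A) (X := {w}) (B' := B.filter (fun e => ∀ w ∈ (∅ : Finset ι), ¬ R w e))
      (y := x) h {w} (by simpa using hw) (Finset.Subset.refl _) (by simpa using hwx)
    rw [Finset.card_singleton] at h1 h2
    push_cast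
    linarith
  -- w taken, e private
  have b1 : (((mc R A B).filter (fun D => D ∩ cho R A e = {w})).card : ℝ) ≤
      Real.exp (mu2 R α β A B - ((f : ℝ) * α 2 + 2 * (α 2 - α 1) + β f + β f')) := by
    apply graph_take (R := R) h hsz {w} (cho R A e) (Finset.filter_subset _ _) ⟨w, hwce⟩ _
      (Finset.filter_subset _ _) (fun D hD => (Finset.mem_filter.mp hD).2)
      (U := cho R A x \ cho R A e) (Finset.sdiff_subset.trans (Finset.filter_subset _ _))
      (fun u hu => (Finset.mem_sdiff.mp hu).2)
      (fun u hu => ⟨x, hx, ⟨w, Finset.mem_singleton_self _, hwx⟩, (mem_cho.mp (Finset.mem_sdiff.mp hu).1).2⟩)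
      (S := {e, x}) hSsub IH
    rw [Finset.sum_pair hxe.symm, act_cov (not_mem_resid (Finset.mem_singleton_self w) hwe),
      act_cov (not_mem_resid (Finset.mem_singleton_self w) hwx), card_cho]
    have h1 : (2 : ℝ) ≤ (cho R A x \ cho R A e).card := by exact_mod_cast hcardx
    have h2 := mul_le_mul_of_nonneg_right h1 hinc
    rw [← hf, ← hf']
    linarith
  have b2 : (((mc R A B).filter (fun D => D ∩ cho R A x = {w})).card : ℝ) ≤
      Real.exp (mu2 R α β A B - ((f' : ℝ) * α 2 + 2 * (α 2 - α 1) + β f + β f')) := by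
    apply graph_take (R := R) h hsz {w} (cho R A x) (Finset.filter_subset _ _) ⟨w, hwcx⟩ _
      (Finset.filter_subset _ _) (fun D hD => (Finset.mem_filter.mp hD).2)
      (U := cho R A e \ cho R A x) (Finset.sdiff_subset.trans (Finset.filter_subset _ _))
      (fun u hu => (Finset.mem_sdiff.mp hu).2)
      (fun u hu => ⟨e, he, ⟨w, Finset.mem_singleton_self _, hwe⟩, (mem_cho.mp (Finset.mem_sdiff.mp hu).1).2⟩)
      (S := {e, x}) hSsub IH
    rw [Finset.sum_pair hxe.symm, act_cov (not_mem_resid (Finset.mem_singleton_self w) hwe),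
      act_cov (not_mem_resid (Finset.mem_singleton_self w) hwx), card_cho]
    have h1 : (2 : ℝ) ≤ (cho R A e \ cho R A x).card := by exact_mod_cast hcarde
    have h2 := mul_le_mul_of_nonneg_right h1 hinc
    rw [← hf, ← hf']
    linarith
  have hcover : mc R A B ⊆ (mc R A B).filter (fun D => w ∉ D) ∪
      ((mc R A B).filter (fun D => D ∩ cho R A e = {w}) ∪ (mc R A B).filter (fun D => D ∩ cho R A x = {w})) := by
    intro D hD
    rw [Finset.mem_union, Finset.mem_union, Finset.mem_filter, Finset.mem_filter, Finset.mem_filter]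
    by_cases hwD : w ∈ D
    · right
      have hD' := mem_mc.mp hD
      obtain ⟨y, hy, hwy, hu⟩ := hD'.2.2 w hwD
      have key : ∀ y, R w y → (∀ w' ∈ D, R w' y → w' = w) → D ∩ cho R A y = {w} := by
        intro y hwy hu
        ext z
        rw [Finset.mem_inter, mem_cho, Finset.mem_singleton]
        constructor
        · rintro ⟨hz, _, hzy⟩; exact hu z hz hzy
        · rintro rfl; exact ⟨hwD, hw, hwy⟩
      rcases hends y hy hwy with rfl | rfl
      · exact Or.inl ⟨hD, key _ hwy hu⟩
      · exact Or.inr ⟨hD, key _ hwy hu⟩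
    · exact Or.inl ⟨hD, hwD⟩
  have hcard : ((mc R A B).card : ℝ) ≤ (((mc R A B).filter (fun D => w ∉ D)).card : ℝ)
      + (((mc R A B).filter (fun D => D ∩ cho R A e = {w})).card : ℝ)
      + (((mc R A B).filter (fun D => D ∩ cho R A x = {w})).card : ℝ) := by
    have h1 := (Finset.card_le_card hcover).trans ((Finset.card_union_le _ _).trans
      (Nat.add_le_add_left (Finset.card_union_le _ _) _))
    have h2 : ((mc R A B).card : ℝ) ≤ ((((mc R A B).filter (fun D => w ∉ D)).card +
      (((mc R A B).filter (fun D => D ∩ cho R A e = {w})).card +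
      ((mc R A B).filter (fun D => D ∩ cho R A x = {w})).card) : ℕ) : ℝ) := by exact_mod_cast h1
    push_cast at h2
    linarith
  refine hcard.trans ((add_le_add (add_le_add b0 b1) b2).trans ?_)
  exact exp_three (hg f f' (hfr e he) (hfr x hx))

end Pool.Agent.MDS81
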