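import Pool.Agent.MDS81.Small
import Pool.Agent.MDS81.Graph2
import Pool.Agent.MDS81.Graph3b
import Pool.Agent.MDS81.Graph4

set_option autoImplicit false

/-! Assembly: the refined bound on the number of minimal covers. -/

namespace Pool.Agent.MDS81

open Finset
open scoped Classical

variable {ι κ : Type*}

/-- All numerical conditions on the weights. -/
structure Conds (α β : ℕ → ℝ) : Prop where
  shape : Shape α β
  big : ∀ s : ℕ, 2 ≤ s → ∀ f : ℕ, 2 ≤ f →
    Real.exp (-(((s + 1 : ℕ) : ℝ) * (β f + ((f : ℝ) - 1) * (α (s + 1) - α s))))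
      + Real.exp (-(((s + 1 : ℕ) : ℝ) * qq α β f)) ≤ Real.exp (α (s + 1))
  pure : ∀ f : ℕ, (f : ℝ) ≤ Real.exp (α 1 * f + β f)
  one2 : Real.exp (-(α 1 + α 2 + β 2)) + Real.exp (-(α 1 + α 2 + β 2 + β 2)) ≤ 1
  one3 : ∀ f : ℕ, 3 ≤ f → Real.exp (-(((f : ℝ) - 1) * α 1 + α 2 + β f)) +
      Real.exp (-(α 1 + (β f - β (f - 1)))) ≤ 1
  g2 : ∀ f f' : ℕ, 2 ≤ f → 2 ≤ f' →
      Real.exp (-(2 * α 2 + ((f : ℝ) - 1) * (α 2 - α 1) + β 2 + β f + lose α β f'))
      + Real.exp (-(2 * α 2 + ((f' : ℝ) - 1) * (α 2 - α 1) + β 2 + β f' + lose α β f))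
      + Real.exp (-(((max f f' : ℕ) : ℝ) * α 2 + α 2 + β 2 + β f + β f')) ≤ 1
  g3a : G3a α β
  g3b : G3b α β
  g4 : ∀ f f' : ℕ, 4 ≤ f → 4 ≤ f' →
      Real.exp (-(α 2 + (β f - β (f - 1)) + (β f' - β (f' - 1))))
      + Real.exp (-((f : ℝ) * α 2 + 2 * (α 2 - α 1) + β f + β f'))
      + Real.exp (-((f' : ℝ) * α 2 + 2 * (α 2 - α 1) + β f + β f')) ≤ 1

/-- **The refined bound.** -/
theorem cover_bound2 {α β : ℕ → ℝ} (hc : Conds α β) (R : ι → κ → Prop) (A : Finset ι) (B : Finset κ) :
    ((mc R A B).card : ℝ) ≤ Real.exp (mu2 R α β A B) := by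
  induction' hn : A.card + B.card using Nat.strong_induction_on with n ih generalizing A B
  have IH : ∀ (A' : Finset ι) (B' : Finset κ), A'.card + B'.card < A.card + B.card →
      ((mc R A' B').card : ℝ) ≤ Real.exp (mu2 R α β A' B') := by
    intro A' B' hlt
    exact ih _ (by omega) A' B' rfl
  have h := hc.shape
  rcases Finset.eq_empty_or_nonempty B with hB | hB
  · subst hB
    have h1 : mc R A ∅ ⊆ {∅} := by
      intro D hD
      rw [mem_mc] at hD
      rw [Finset.mem_singleton, Finset.eq_empty_iff_forall_notMem]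
      intro w hw
      obtain ⟨e, he, _⟩ := hD.2.2 w hw
      simp at he
    have h2 := Finset.card_le_card h1
    rw [Finset.card_singleton] at h2
    have h3 : ((mc R A ∅).card : ℝ) ≤ 1 := by exact_mod_cast h2
    exact h3.trans (Real.one_le_exp (mu2_nonneg h A ∅))
  by_cases hfr : ∃ e ∈ B, fr R A e ≤ 1
  · obtain ⟨e, he, hfe⟩ := hfr
    rcases Nat.eq_zero_or_pos (fr R A e) with h0 | h0
    · have h1 : mc R A B = ∅ := by
        rw [Finset.eq_empty_iff_forall_notMem]
        intro D hD
        rw [mem_mc] at hD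
        obtain ⟨w, hw, hwe⟩ := hD.2.1 e he
        unfold fr at h0
        rw [Finset.card_eq_zero] at h0
        have : w ∈ A.filter (fun w => R w e) := Finset.mem_filter.mpr ⟨hD.1 hw, hwe⟩
        rw [h0] at this
        simp at this
      rw [h1]
      simpa using (Real.exp_pos _).le
    · have h1 : fr R A e = 1 := by omega
      unfold fr at h1
      obtain ⟨w, hw⟩ := Finset.card_eq_one.mp h1
      have hwm : w ∈ A.filter (fun w => R w e) := by rw [hw]; simp
      have hwA := (Finset.mem_filter.mp hwm).1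
      have h2 := mc_forced (R := R) (A := A) (B := B) w e he (by
        intro w' hw' hw'e
        have : w' ∈ A.filter (fun w => R w e) := Finset.mem_filter.mpr ⟨hw', hw'e⟩
        rw [hw] at this
        exact Finset.mem_singleton.mp this)
      have hlt : (A.erase w).card + (rem R w B).card < A.card + B.card := by
        have a1 := Finset.card_erase_lt_of_mem hwA
        have a2 := Finset.card_le_card (rem_subset (R := R) w B)
        omega
      have h3 := IH _ _ hlt
      have h4 : ((mc R A B).card : ℝ) ≤ ((mc R (A.erase w) (rem R w B)).card : ℝ) := by exact_mod_cast h2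
      exact h4.trans (h3.trans (Real.exp_le_exp.mpr (mu2_mono h (Finset.erase_subset _ _) (rem_subset w B))))
  push Not at hfr
  by_cases hdom : ∃ e ∈ B, ∃ f ∈ B, e ≠ f ∧ ∀ w ∈ A, R w f → R w e
  · obtain ⟨e, he, f, hf, hne, hsub⟩ := hdom
    have h1 := Finset.card_le_card (mc_dom (R := R) (A := A) e f hne hf hsub)
    have hlt : A.card + (B.erase e).card < A.card + B.card := by
      have a1 := Finset.card_erase_lt_of_mem he
      omega
    have h3 := IH _ _ hlt
    have h4 : ((mc R A B).card : ℝ) ≤ ((mc R A (B.erase e)).card : ℝ) := by exact_mod_cast h1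
    exact h4.trans (h3.trans (Real.exp_le_exp.mpr (mu2_mono h (Finset.Subset.refl _) (Finset.erase_subset _ _))))
  have hred : Reduced R A B := by
    refine ⟨fun e he => ?_, fun e he f hf hne hsub => hdom ⟨e, he, f, hf, hne, hsub⟩⟩
    have := hfr e he
    omega
  by_cases hz : ∃ w ∈ A, sz R w B = 0
  · obtain ⟨w, hw, hwz⟩ := hz
    have h1 : mc R A B ⊆ mc R (A.erase w) B := by
      intro D hD
      rw [mem_mc] at hD ⊢
      refine ⟨?_, hD.2.1, hD.2.2⟩
      intro x hx
      refine Finset.mem_erase.mpr ⟨?_, hD.1 hx⟩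
      rintro rfl
      obtain ⟨e, he, hxe, _⟩ := hD.2.2 x hx
      unfold sz at hwz
      rw [Finset.card_eq_zero] at hwz
      have : e ∈ B.filter (fun e => R x e) := Finset.mem_filter.mpr ⟨he, hxe⟩
      rw [hwz] at this
      simp at this
    have hlt : (A.erase w).card + B.card < A.card + B.card := by
      have a1 := Finset.card_erase_lt_of_mem hw
      omega
    have h3 := IH _ _ hlt
    have h4 : ((mc R A B).card : ℝ) ≤ ((mc R (A.erase w) B).card : ℝ) := by
      exact_mod_cast Finset.card_le_card h1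
    exact h4.trans (h3.trans (Real.exp_le_exp.mpr (mu2_mono h (Finset.erase_subset _ _) (Finset.Subset.refl _))))
  push Not at hz
  have hsz1 : ∀ w ∈ A, 1 ≤ sz R w B := fun w hw => Nat.one_le_iff_ne_zero.mpr (hz w hw)
  by_cases hone : ∃ u ∈ A, sz R u B = 1
  · obtain ⟨u, hu, hu1⟩ := hone
    have hpos : 0 < sz R u B := by omega
    obtain ⟨x, hx0⟩ := Finset.card_pos.mp hpos
    have hx := (Finset.mem_filter.mp hx0).1
    have hux := (Finset.mem_filter.mp hx0).2
    by_cases hp : ∀ w ∈ A, R w x → sz R w B = 1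
    · exact pure_step h hx hp hc.pure IH
    · push Not at hp
      obtain ⟨g, hg, hgx, hg1⟩ := hp
      have := hsz1 g hg
      exact one_step h hred hsz1 hx hu hux hu1 hg hgx (by omega) hc.one2 hc.one3 IH
  push Not at hone
  have hsz2 : ∀ w ∈ A, 2 ≤ sz R w B := by
    intro w hw
    have h1 := hsz1 w hw
    have h2 := hone w hw
    omega
  have hA : A.Nonempty := by
    obtain ⟨e, he⟩ := hB
    have h1 := hred.fr2 e he
    unfold fr at h1
    obtain ⟨w, hw⟩ := Finset.card_pos.mp (by omega : 0 < (A.filter (fun w => R w e)).card)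
    exact ⟨w, (Finset.mem_filter.mp hw).1⟩
  obtain ⟨w, hw, hmax⟩ := Finset.exists_max_image A (fun w => sz R w B) hA
  by_cases h3 : 3 ≤ sz R w B
  · obtain ⟨s, hs⟩ : ∃ s, sz R w B = s + 1 := ⟨sz R w B - 1, by omega⟩
    exact big_step h hred hsz2 w hw s hs (fun w' hw' => by rw [← hs]; exact hmax w' hw')
      (hc.big s (by omega)) IH
  have hall : ∀ w ∈ A, sz R w B = 2 := by
    intro w' hw'
    have h1 := hsz2 w' hw'
    have h2 : sz R w' B ≤ sz R w B := hmax w' hw'
    omega
  obtain ⟨e, he, hmin⟩ := Finset.exists_min_image B (fun e => fr R A e) hB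
  have hfe := hred.fr2 e he
  rcases Nat.lt_or_ge (fr R A e) 3 with h4 | h4
  · exact graph2_step h hred hall e he (by omega) hc.g2 IH
  rcases Nat.lt_or_ge (fr R A e) 4 with h5 | h5
  · exact graph3_step h hred hall (fun y hy => h4.trans (hmin y hy)) e he (by omega) hc.g3a hc.g3b IH
  · exact graph4_step h hred hall (fun y hy => h5.trans (hmin y hy)) hA hc.g4 IH

end Pool.Agent.MDS81
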