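import Pool.Agent.MDS81.Cover2

set_option autoImplicit false

/-! The branching step on a chooser of maximum size `s ≥ 3`. -/

namespace Pool.Agent.MDS81

open Finset
open scoped Classical

variable {ι κ : Type*}

/-- Reduced instances. -/
structure Reduced (R : ι → κ → Prop) (A : Finset ι) (B : Finset κ) : Prop where
  fr2 : ∀ e ∈ B, 2 ≤ fr R A e
  anti : ∀ e ∈ B, ∀ f ∈ B, e ≠ f → ¬ ∀ w ∈ A, R w f → R w e

/-- The weight lost by an element of frequency `f` when a chooser containing it is discarded. -/
noncomputable def qq (α β : ℕ → ℝ) (f : ℕ) : ℝ := if f = 2 then β 2 + α 2 else β f - β (f - 1)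

/-- choosers of an element of frequency two -/
lemma two_choosers {R : ι → κ → Prop} {A : Finset ι} {e : κ} (hf : fr R A e = 2) {w : ι} (hw : w ∈ A)
    (hwe : R w e) : ∃ g ∈ A, g ≠ w ∧ R g e ∧ ∀ x ∈ A, R x e → x = w ∨ x = g := by
  have hw' : w ∈ A.filter (fun w => R w e) := Finset.mem_filter.mpr ⟨hw, hwe⟩
  unfold fr at hf
  obtain ⟨g, hg, hgw⟩ := Finset.exists_mem_ne (by omega : 1 < (A.filter (fun w => R w e)).card) w
  have hg' := Finset.mem_filter.mp hg
  refine ⟨g, hg'.1, hgw, hg'.2, ?_⟩
  intro x hx hxe
  by_contra hne
  push Not at hne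
  have hsub : ({w, g, x} : Finset ι) ⊆ A.filter (fun w => R w e) := by
    intro y hy
    simp only [Finset.mem_insert, Finset.mem_singleton] at hy
    rcases hy with rfl | rfl | rfl
    · exact hw'
    · exact hg
    · exact Finset.mem_filter.mpr ⟨hx, hxe⟩
  have h3 : ({w, g, x} : Finset ι).card = 3 := by
    rw [Finset.card_eq_three]
    exact ⟨w, g, x, hgw.symm, fun h => hne.1 h.symm, fun h => hne.2 h.symm, rfl⟩
  have := Finset.card_le_card hsub
  omega

theorem big_step {R : ι → κ → Prop} {α β : ℕ → ℝ} (h : Shape α β) {A : Finset ι} {B : Finset κ}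
    (hred : Reduced R A B) (hsz2 : ∀ w ∈ A, 2 ≤ sz R w B) (w : ι) (hw : w ∈ A) (s : ℕ)
    (hs : sz R w B = s + 1) (hmax : ∀ w' ∈ A, sz R w' B ≤ s + 1)
    (hbig : ∀ f : ℕ, 2 ≤ f → Real.exp (-(((s + 1 : ℕ) : ℝ) * (β f + ((f : ℝ) - 1) * (α (s + 1) - α s))))
      + Real.exp (-(((s + 1 : ℕ) : ℝ) * qq α β f)) ≤ Real.exp (α (s + 1)))
    (IH : ∀ (A' : Finset ι) (B' : Finset κ), A'.card + B'.card < A.card + B.card →
      ((mc R A' B').card : ℝ) ≤ Real.exp (mu2 R α β A' B')) :
    ((mc R A B).card : ℝ) ≤ Real.exp (mu2 R α β A B) := by
  set N : Finset κ := B.filter (fun e => R w e) with hN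
  have hNcard : N.card = s + 1 := by rw [← hs]; rfl
  set δ : ℝ := α (s + 1) - α s with hδ
  -- the in-branch
  have hin : (((mc R A B).filter (fun D => w ∈ D)).card : ℝ) ≤
      Real.exp (mu2 R α β A B - α (s + 1) - ∑ e ∈ N, (β (fr R A e) + ((fr R A e : ℝ) - 1) * δ)) := by
    have h1 := mc_take (R := R) (A := A) (B := B) {w} {w} ((mc R A B).filter (fun D => w ∈ D))
      (Finset.filter_subset _ _) (by
        intro D hD
        have := (Finset.mem_filter.mp hD).2
        exact Finset.inter_singleton_of_mem this)
    set A' := A \ {w} with hA'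
    set B' := B.filter (fun e => ∀ w' ∈ ({w} : Finset ι), ¬ R w' e) with hB'
    have hB'eq : ∀ e, e ∈ B' ↔ e ∈ B ∧ ¬ R w e := by
      intro e; rw [hB', Finset.mem_filter]; simp
    have hcard : A'.card + B'.card < A.card + B.card := by
      have h2 : A'.card < A.card := Finset.card_lt_card (Finset.sdiff_ssubset (by simpa using hw) (by simp))
      have h3 : B'.card ≤ B.card := Finset.card_le_card (Finset.filter_subset _ _)
      omega
    have hgain := mu2_gain (R := R) (α := α) (β := β) (A := A) (A' := A') (B := B) (B' := B')
      Finset.sdiff_subset (Finset.filter_subset _ _)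
      (fun w' => if w' = w then α (s + 1) else ((N.filter (fun e => R w' e)).card : ℝ) * δ)
      (fun e => if R w e then β (fr R A e) else 0)
      (by
        intro w' hw' hnot
        have : w' = w := by
          by_contra hne
          exact hnot (Finset.mem_sdiff.mpr ⟨hw', by simpa using hne⟩)
        subst this
        simp [hs])
      (by
        intro w' hw'
        have hw'' := Finset.mem_sdiff.mp hw'
        have hne : w' ≠ w := by simpa using hw''.2
        simp only [hne, if_false]
        have h2 := sz_split (R := R) w w' B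
        have h3 : sz R w' (rem R w B) = sz R w' B' := by
          unfold sz rem
          congr 1
          ext e
          simp only [Finset.mem_filter]
          rw [hB'eq]
        rw [h3] at h2
        have h4 := h.drop s (sz R w' B) ((N.filter (fun e => R w' e)).card) (hmax w' hw''.1)
          (by rw [← h2]; exact Nat.le_add_left _ _)
        have h5 : sz R w' B - (N.filter (fun e => R w' e)).card = sz R w' B' := by
          rw [← h2]; exact Nat.add_sub_cancel _ _
        rw [h5] at h4
        linarith)
      (by
        intro e he hnot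
        have : R w e := by
          by_contra hne
          exact hnot ((hB'eq e).mpr ⟨he, hne⟩)
        simp [this])
      (by
        intro e he
        have := ((hB'eq e).mp he).2
        simp only [this, if_false, zero_add]
        exact h.bm (fr_mono e Finset.sdiff_subset))
    have hsA : ∑ w' ∈ A, (if w' = w then α (s + 1) else ((N.filter (fun e => R w' e)).card : ℝ) * δ)
        = α (s + 1) + ∑ w' ∈ A.erase w, ((N.filter (fun e => R w' e)).card : ℝ) * δ := by
      rw [← Finset.add_sum_erase A _ hw]
      congr 1
      · simp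
      · apply Finset.sum_congr rfl
        intro w' hw'
        have : w' ≠ w := (Finset.mem_erase.mp hw').1
        simp [this]
    have hdc : ∑ w' ∈ A.erase w, ((N.filter (fun e => R w' e)).card : ℝ)
        = ∑ e ∈ N, ((fr R A e : ℝ) - 1) := by
      have h7 : ∑ w' ∈ A.erase w, (N.filter (fun e => R w' e)).card
          = ∑ e ∈ N, ((A.erase w).filter (fun w' => R w' e)).card := by
        simp only [Finset.card_filter]
        exact Finset.sum_comm
      have h8 : ∀ e ∈ N, (((A.erase w).filter (fun w' => R w' e)).card : ℝ) = (fr R A e : ℝ) - 1 := by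
        intro e he
        have he' := Finset.mem_filter.mp he
        have h10 : ((A.erase w).filter (fun w' => R w' e)) = (A.filter (fun w' => R w' e)).erase w := by
          ext x; simp only [Finset.mem_filter, Finset.mem_erase]; tauto
        rw [h10]
        have h11 := Finset.card_erase_add_one (Finset.mem_filter.mpr ⟨hw, he'.2⟩ : w ∈ A.filter (fun w' => R w' e))
        unfold fr
        have h12 : (((A.filter (fun w' => R w' e)).erase w).card : ℝ) + 1 = ((A.filter (fun w' => R w' e)).card : ℝ) := by
          exact_mod_cast h11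
        linarith
      calc ∑ w' ∈ A.erase w, ((N.filter (fun e => R w' e)).card : ℝ)
          = ((∑ w' ∈ A.erase w, (N.filter (fun e => R w' e)).card : ℕ) : ℝ) := by push_cast; rfl
        _ = ∑ e ∈ N, (((A.erase w).filter (fun w' => R w' e)).card : ℝ) := by rw [h7]; push_cast; rfl
        _ = _ := Finset.sum_congr rfl h8
    have hsB : ∑ e ∈ B, (if R w e then β (fr R A e) else 0) = ∑ e ∈ N, β (fr R A e) := by
      rw [hN, Finset.sum_filter]
    rw [hsA, ← Finset.sum_mul, hdc, hsB] at hgain
    have h2 := IH A' B' hcard
    refine le_trans (by exact_mod_cast h1) (h2.trans (Real.exp_le_exp.mpr ?_))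
    rw [Finset.sum_add_distrib, ← Finset.sum_mul]
    linarith
  -- the out-branch
  set G : Finset ι := (A.erase w).filter (fun g => ∃ e ∈ N, fr R A e = 2 ∧ R g e) with hG
  have hwG : w ∉ G := by
    intro hmem
    exact (Finset.mem_erase.mp (Finset.mem_filter.mp hmem).1).1 rfl
  have hGA : G ⊆ A := (Finset.filter_subset _ _).trans (Finset.erase_subset _ _)
  have hout : (((mc R A B).filter (fun D => ¬ w ∈ D)).card : ℝ) ≤
      Real.exp (mu2 R α β A B - α (s + 1) - ∑ e ∈ N, qq α β (fr R A e)) := by
    have h1 := mc_take (R := R) (A := A) (B := B) G (insert w G) ((mc R A B).filter (fun D => ¬ w ∈ D))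
      (Finset.filter_subset _ _) (by
        intro D hD
        have hD' := Finset.mem_filter.mp hD
        have hDm := mem_mc.mp hD'.1
        ext x
        rw [Finset.mem_inter, Finset.mem_insert]
        constructor
        · rintro ⟨hxD, rfl | hxG⟩
          · exact absurd hxD hD'.2
          · exact hxG
        · intro hxG
          refine ⟨?_, Or.inr hxG⟩
          have hxG' := Finset.mem_filter.mp hxG
          obtain ⟨e, heN, hfe, hxe⟩ := hxG'.2
          have heN' := Finset.mem_filter.mp heN
          obtain ⟨g, hgA, hgw, hge, hall⟩ := two_choosers hfe hw heN'.2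
          have hxg : x = g := by
            rcases hall x (Finset.mem_of_mem_erase hxG'.1) hxe with h3 | h3
            · exact absurd h3 (Finset.mem_erase.mp hxG'.1).1
            · exact h3
          obtain ⟨y, hy, hye⟩ := hDm.2.1 e heN'.1
          rcases hall y (hDm.1 hy) hye with h3 | h3
          · exact absurd (h3 ▸ hy) hD'.2
          · rw [hxg, ← h3]; exact hy)
    set A' := A \ insert w G with hA'
    set B' := B.filter (fun e => ∀ w' ∈ G, ¬ R w' e) with hB'
    have hcard : A'.card + B'.card < A.card + B.card := by
      have h2 : A'.card < A.card := Finset.card_lt_card (Finset.sdiff_ssubset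
        (Finset.insert_subset hw hGA) (Finset.insert_nonempty _ _))
      have h3 : B'.card ≤ B.card := Finset.card_le_card (Finset.filter_subset _ _)
      omega
    have hgain := mu2_gain (R := R) (α := α) (β := β) (A := A) (A' := A') (B := B) (B' := B')
      Finset.sdiff_subset (Finset.filter_subset _ _)
      (fun w' => if w' = w then α (s + 1) else if w' ∈ G then α 2 else 0)
      (fun e => if R w e then (if fr R A e = 2 then β 2 else β (fr R A e) - β (fr R A e - 1)) else 0)
      (by
        intro w' hw' hnot
        by_cases h3 : w' = w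
        · subst h3; simp [hs]
        · have h4 : w' ∈ G := by
            by_contra hne
            exact hnot (Finset.mem_sdiff.mpr ⟨hw', by rw [Finset.mem_insert]; tauto⟩)
          simp only [h3, if_false, h4, if_true]
          exact h.am (hsz2 w' hw'))
      (by
        intro w' hw'
        have hw'' := Finset.mem_sdiff.mp hw'
        rw [Finset.mem_insert, not_or] at hw''
        simp only [hw''.2.1, hw''.2.2, if_false, zero_add]
        exact h.am (sz_mono w' (Finset.filter_subset _ _)))
      (by
        intro e he hnot
        by_cases h3 : R w e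
        · simp only [h3, if_true]
          by_cases h4 : fr R A e = 2
          · simp only [h4, if_true]; exact le_rfl
          · simp only [h4, if_false]; linarith [h.bn (fr R A e - 1)]
        · simp only [h3, if_false]; exact h.bn _)
      (by
        intro e he
        have he' := Finset.mem_filter.mp he
        by_cases h3 : R w e
        · simp only [h3, if_true]
          have h4 : fr R A e ≠ 2 := by
            intro h5
            obtain ⟨g, hgA, hgw, hge, hall⟩ := two_choosers h5 hw h3
            have : g ∈ G := Finset.mem_filter.mpr ⟨Finset.mem_erase.mpr ⟨hgw, hgA⟩, e,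
              Finset.mem_filter.mpr ⟨he'.1, h3⟩, h5, hge⟩
            exact he'.2 g this hge
          simp only [h4, if_false]
          have h5 : fr R A' e ≤ fr R A e - 1 := by
            have h6 : fr R A' e < fr R A e := by
              apply Finset.card_lt_card
              rw [Finset.ssubset_iff_of_subset (Finset.filter_subset_filter _ Finset.sdiff_subset)]
              refine ⟨w, Finset.mem_filter.mpr ⟨hw, h3⟩, ?_⟩
              intro h7
              have := (Finset.mem_sdiff.mp (Finset.mem_filter.mp h7).1).2
              exact this (Finset.mem_insert_self _ _)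
            omega
          have h6 := h.bm h5
          linarith
        · simp only [h3, if_false, zero_add]
          exact h.bm (fr_mono e Finset.sdiff_subset))
    have hsA : ∑ w' ∈ A, (if w' = w then α (s + 1) else if w' ∈ G then α 2 else 0)
        = α (s + 1) + (G.card : ℝ) * α 2 := by
      rw [← Finset.add_sum_erase A _ hw]
      congr 1
      · simp
      · have e1 : ∀ w' ∈ A.erase w, (if w' = w then α (s + 1) else if w' ∈ G then α 2 else 0)
            = if w' ∈ G then α 2 else 0 := by
          intro w' hw'
          have : w' ≠ w := (Finset.mem_erase.mp hw').1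
          simp [this]
        rw [Finset.sum_congr rfl e1, ← Finset.sum_filter, Finset.sum_const, nsmul_eq_mul]
        congr 2
        congr 1
        ext x
        rw [Finset.mem_filter, Finset.mem_erase]
        constructor
        · exact fun h => h.2
        · intro hx
          exact ⟨⟨fun h => hwG (h ▸ hx), hGA hx⟩, hx⟩
    have hsB : ∑ e ∈ B, (if R w e then (if fr R A e = 2 then β 2 else β (fr R A e) - β (fr R A e - 1)) else 0)
        = ∑ e ∈ N, (if fr R A e = 2 then β 2 else β (fr R A e) - β (fr R A e - 1)) := by
      rw [hN, Finset.sum_filter]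
    -- count the forced choosers
    have hGcard : ((N.filter (fun e => fr R A e = 2)).card : ℝ) ≤ G.card := by
      have h3 : ∀ e : κ, ∃ g : ι, e ∈ N.filter (fun e => fr R A e = 2) → g ∈ G ∧ R g e := by
        intro e
        by_cases he : e ∈ N.filter (fun e => fr R A e = 2)
        · have he' := Finset.mem_filter.mp he
          have heN := Finset.mem_filter.mp he'.1
          obtain ⟨g, hgA, hgw, hge, hall⟩ := two_choosers he'.2 hw heN.2
          exact ⟨g, fun _ => ⟨Finset.mem_filter.mpr ⟨Finset.mem_erase.mpr ⟨hgw, hgA⟩, e, he'.1, he'.2, hge⟩, hge⟩⟩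
        · exact ⟨w, fun hh => absurd hh he⟩
      choose g hg using h3
      apply Nat.cast_le.mpr
      apply Finset.card_le_card_of_injOn g
      · intro e he
        exact (hg e he).1
      · intro e he e' he' heq
        by_contra hne
        have he1 := Finset.mem_filter.mp (Finset.mem_coe.mp he)
        have he1' := Finset.mem_filter.mp (Finset.mem_coe.mp he')
        have heN := Finset.mem_filter.mp he1.1
        have heN' := Finset.mem_filter.mp he1'.1
        have hge := (hg e he).2
        have hge' := (hg e' he').2
        rw [← heq] at hge'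
        have hgw : g e ≠ w := (Finset.mem_erase.mp (Finset.mem_filter.mp (hg e he).1).1).1
        obtain ⟨g1, hg1A, hg1w, hg1e, hall⟩ := two_choosers he1'.2 hw heN'.2
        have hg1 : g e = g1 := by
          rcases hall (g e) (hGA (hg e he).1) hge' with h5 | h5
          · exact absurd h5 hgw
          · exact h5
        apply hred.anti e heN.1 e' heN'.1 hne
        intro x hx hxe'
        rcases hall x hx hxe' with h5 | h5
        · rw [h5]; exact heN.2
        · rw [h5, ← hg1]; exact hge
    have hsum : ∑ e ∈ N, qq α β (fr R A e) = ∑ e ∈ N, (if fr R A e = 2 then β 2 else β (fr R A e) - β (fr R A e - 1))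
        + ((N.filter (fun e => fr R A e = 2)).card : ℝ) * α 2 := by
      have e1 : ((N.filter (fun e => fr R A e = 2)).card : ℝ) * α 2 = ∑ e ∈ N, (if fr R A e = 2 then α 2 else 0) := by
        rw [← Finset.sum_filter, Finset.sum_const, nsmul_eq_mul]
      rw [e1, ← Finset.sum_add_distrib]
      apply Finset.sum_congr rfl
      intro e _
      unfold qq
      by_cases h3 : fr R A e = 2
      · simp [h3]
      · simp [h3]
    rw [hsA, hsB] at hgain
    have h2 := IH A' B' hcard
    refine le_trans (by exact_mod_cast h1) (h2.trans (Real.exp_le_exp.mpr ?_))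
    have h4 := mul_le_mul_of_nonneg_right hGcard (h.an 2)
    rw [hsum]
    linarith
  -- combine
  have hsplit : ((mc R A B).card : ℝ) = (((mc R A B).filter (fun D => w ∈ D)).card : ℝ)
      + (((mc R A B).filter (fun D => ¬ w ∈ D)).card : ℝ) := by
    exact_mod_cast (Finset.card_filter_add_card_filter_not (s := mc R A B) (fun D => w ∈ D)).symm
  rw [hsplit]
  refine (add_le_add hin hout).trans ?_
  have hs0 : (0 : ℝ) < ((s + 1 : ℕ) : ℝ) := by positivity
  have hp := exp_neg_sum_le hNcard (Nat.succ_pos s) (fun e => β (fr R A e) + ((fr R A e : ℝ) - 1) * δ)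
  have hq := exp_neg_sum_le hNcard (Nat.succ_pos s) (fun e => qq α β (fr R A e))
  have hpq : Real.exp (-∑ e ∈ N, (β (fr R A e) + ((fr R A e : ℝ) - 1) * δ)) + Real.exp (-∑ e ∈ N, qq α β (fr R A e))
      ≤ Real.exp (α (s + 1)) := by
    refine (add_le_add hp hq).trans ?_
    rw [← add_div, ← Finset.sum_add_distrib, div_le_iff₀ hs0]
    calc ∑ e ∈ N, (Real.exp (-(((s + 1 : ℕ) : ℝ) * (β (fr R A e) + ((fr R A e : ℝ) - 1) * δ)))
          + Real.exp (-(((s + 1 : ℕ) : ℝ) * qq α β (fr R A e)))) ≤ ∑ _e ∈ N, Real.exp (α (s + 1)) :=
          Finset.sum_le_sum (fun e he => hbig _ (hred.fr2 e (Finset.mem_filter.mp he).1))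
      _ = _ := by rw [Finset.sum_const, hNcard, nsmul_eq_mul, mul_comm]
  have e1 : mu2 R α β A B - α (s + 1) - ∑ e ∈ N, (β (fr R A e) + ((fr R A e : ℝ) - 1) * δ)
      = (mu2 R α β A B - α (s + 1)) + -∑ e ∈ N, (β (fr R A e) + ((fr R A e : ℝ) - 1) * δ) := by ring
  have e2 : mu2 R α β A B - α (s + 1) - ∑ e ∈ N, qq α β (fr R A e)
      = (mu2 R α β A B - α (s + 1)) + -∑ e ∈ N, qq α β (fr R A e) := by ring
  rw [e1, e2, Real.exp_add, Real.exp_add, ← mul_add]
  calc Real.exp (mu2 R α β A B - α (s + 1)) * (Real.exp (-∑ e ∈ N, (β (fr R A e) + ((fr R A e : ℝ) - 1) * δ))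
        + Real.exp (-∑ e ∈ N, qq α β (fr R A e)))
      ≤ Real.exp (mu2 R α β A B - α (s + 1)) * Real.exp (α (s + 1)) :=
        mul_le_mul_of_nonneg_left hpq (Real.exp_pos _).le
    _ = Real.exp (mu2 R α β A B) := by rw [← Real.exp_add]; congr 1; ring

end Pool.Agent.MDS81
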