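import Pool.Agent.MDS81.Cover

set_option autoImplicit false

/-! Minimal dominating sets of a graph as minimal covers. -/

namespace Pool.Agent.MDS81

open Finset
open scoped Classical

/-- the closed neighbourhood relation -/
def nbr {V : Type*} (G : SimpleGraph V) (w e : V) : Prop := w = e ∨ G.Adj w e

/-- Minimal dominating sets are exactly the minimal covers for the closed neighbourhood relation. -/
theorem mds_eq {V : Type*} [Fintype V] (G : SimpleGraph V) :
    {D : Finset V | (∀ v : V, v ∉ D → ∃ u ∈ D, G.Adj v u) ∧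
      ∀ D' : Finset V, D' ⊂ D → ¬ (∀ v : V, v ∉ D' → ∃ u ∈ D', G.Adj v u)}
    = ↑(mc (nbr G) (Finset.univ : Finset V) Finset.univ) := by
  ext D
  rw [Set.mem_ofPred_eq, Finset.mem_coe, mem_mc]
  have hdom : ∀ E : Finset V, (∀ v : V, v ∉ E → ∃ u ∈ E, G.Adj v u) ↔ ∀ e : V, ∃ w ∈ E, nbr G w e := by
    intro E
    constructor
    · intro h e
      by_cases he : e ∈ E
      · exact ⟨e, he, Or.inl rfl⟩
      · obtain ⟨u, hu, hadj⟩ := h e he
        exact ⟨u, hu, Or.inr hadj.symm⟩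
    · intro h v hv
      obtain ⟨w, hw, hwv⟩ := h v
      rcases hwv with rfl | hadj
      · exact absurd hw hv
      · exact ⟨w, hw, hadj.symm⟩
  constructor
  · rintro ⟨h1, h2⟩
    refine ⟨Finset.subset_univ _, fun e _ => (hdom D).mp h1 e, ?_⟩
    intro w hw
    have h3 := h2 (D.erase w) (Finset.erase_ssubset hw)
    rw [hdom] at h3
    push Not at h3
    obtain ⟨e, he⟩ := h3
    obtain ⟨w0, hw0, hw0e⟩ := (hdom D).mp h1 e
    have hw0' : w0 = w := by
      by_contra hne
      exact he w0 (Finset.mem_erase.mpr ⟨hne, hw0⟩) hw0e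
    subst hw0'
    refine ⟨e, Finset.mem_univ _, hw0e, ?_⟩
    intro w' hw' hw'e
    by_contra hne
    exact he w' (Finset.mem_erase.mpr ⟨hne, hw'⟩) hw'e
  · rintro ⟨-, h1, h2⟩
    refine ⟨(hdom D).mpr (fun e => h1 e (Finset.mem_univ _)), ?_⟩
    intro D' hD' hdomD'
    rw [hdom] at hdomD'
    obtain ⟨w, hw, hw'⟩ := Finset.exists_of_ssubset hD'
    obtain ⟨e, -, hwe, hu⟩ := h2 w hw
    obtain ⟨w', hw'D', hw'e⟩ := hdomD' e
    have := hu w' (hD'.1 hw'D') hw'e
    subst this
    exact hw' hw'D'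

theorem mds_ncard {V : Type*} [Fintype V] (G : SimpleGraph V) :
    Set.ncard {D : Finset V | (∀ v : V, v ∉ D → ∃ u ∈ D, G.Adj v u) ∧
      ∀ D' : Finset V, D' ⊂ D → ¬ (∀ v : V, v ∉ D' → ∃ u ∈ D', G.Adj v u)}
    = (mc (nbr G) (Finset.univ : Finset V) Finset.univ).card := by
  rw [mds_eq, Set.ncard_coe_finset]

end Pool.Agent.MDS81
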