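import Pool.Agent.MDS81.WCo
import Pool.Agent.MDS81.Graph

set_option autoImplicit false

/-! Cobipartite graphs. -/

namespace Pool.Agent.MDS81

open Finset
open scoped Classical

/-- The balanced bound: `a` sets and `b` elements have at most `1.354 ^ (a + b)` minimal covers. -/
theorem cover_balanced {ι κ : Type*} (R : ι → κ → Prop) (A : Finset ι) (B : Finset κ) :
    ((mc R A B).card : ℝ) ≤ (1.354 : ℝ) ^ (A.card + B.card) := by
  refine (cover_le chk_c R A B).trans ?_
  have hx : Real.exp (lg xc 6) = (xc 6)⁻¹ := by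
    have h := chk_c.eA 6
    rw [← h, Real.exp_neg, inv_inv]
  have hy : Real.exp (lg yc 5) = (yc 5)⁻¹ := by
    have h := chk_c.eB 5
    rw [← h, Real.exp_neg, inv_inv]
  rw [Real.exp_add, mul_comm (lg xc 6), mul_comm (lg yc 5), Real.exp_nat_mul, Real.exp_nat_mul, hx, hy, pow_add]
  apply mul_le_mul
  · apply pow_le_pow_left₀
    · rw [xc6]; norm_num
    · rw [xc6]; norm_num
  · apply pow_le_pow_left₀
    · rw [yc5]; norm_num
    · rw [yc5]; norm_num
  · rw [yc5]; positivity
  · positivity

variable {V : Type*} [Fintype V]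

lemma side_sub (G : SimpleGraph V) (X : Finset V) (hX : ∀ u ∈ X, ∀ v ∈ X, u ≠ v → G.Adj u v)
    (hne : (Xᶜ).Nonempty) {D : Finset V} (hD : D ∈ mc (nbr G) (Finset.univ : Finset V) Finset.univ)
    (hDX : D ⊆ X) : D ∈ mc (nbr G) X Xᶜ := by
  rw [mem_mc] at hD ⊢
  refine ⟨hDX, fun e _ => hD.2.1 e (Finset.mem_univ e), ?_⟩
  intro w hw
  obtain ⟨e, -, hwe, hu⟩ := hD.2.2 w hw
  by_cases he : e ∈ X
  · -- `D = {w}`
    have hall : ∀ w' ∈ D, w' = w := by
      intro w' hw'
      apply hu w' hw'
      by_cases h1 : w' = e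
      · exact Or.inl h1
      · exact Or.inr (hX w' (hDX hw') e he h1)
    obtain ⟨e', he'⟩ := hne
    obtain ⟨w1, hw1, hw1e⟩ := hD.2.1 e' (Finset.mem_univ e')
    have h2 := hall w1 hw1
    subst h2
    exact ⟨e', he', hw1e, fun w' hw' _ => hall w' hw'⟩
  · exact ⟨e, Finset.mem_compl.mpr he, hwe, hu⟩

theorem cobip_bound (G : SimpleGraph V) (X : Finset V)
    (hX : ∀ u ∈ X, ∀ v ∈ X, u ≠ v → G.Adj u v) (hY : ∀ u ∉ X, ∀ v ∉ X, u ≠ v → G.Adj u v) :
    ((mc (nbr G) (Finset.univ : Finset V) Finset.univ).card : ℝ) ≤
      2 * (1.354 : ℝ) ^ Fintype.card V + (Fintype.card V : ℝ) ^ 2 / 4 := by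
  set n : ℝ := (Fintype.card V : ℝ) with hn
  have hpow : (1 : ℝ) ≤ (1.354 : ℝ) ^ Fintype.card V := one_le_pow₀ (by norm_num)
  by_cases hc : X = ∅ ∨ Xᶜ = ∅
  · -- complete graph
    have hadj : ∀ u v : V, u ≠ v → G.Adj u v := by
      intro u v huv
      rcases hc with h | h
      · exact hY u (by rw [h]; simp) v (by rw [h]; simp) huv
      · have h1 : ∀ w : V, w ∈ X := by
          intro w
          by_contra hw
          have : w ∈ Xᶜ := Finset.mem_compl.mpr hw
          rw [h] at this
          simp at this
        exact hX u (h1 u) v (h1 v) huv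
    have hnb : ∀ u v : V, nbr G u v := by
      intro u v
      by_cases h : u = v
      · exact Or.inl h
      · exact Or.inr (hadj u v h)
    have hsub : mc (nbr G) (Finset.univ : Finset V) Finset.univ ⊆
        insert ∅ ((Finset.univ : Finset V).image (fun v => ({v} : Finset V))) := by
      intro D hD
      rw [mem_mc] at hD
      rcases Finset.eq_empty_or_nonempty D with h | ⟨w, hw⟩
      · rw [h]; exact Finset.mem_insert_self _ _
      · apply Finset.mem_insert_of_mem
        rw [Finset.mem_image]
        refine ⟨w, Finset.mem_univ _, ?_⟩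
        ext w'
        rw [Finset.mem_singleton]
        constructor
        · rintro rfl; exact hw
        · intro hw'
          obtain ⟨e, -, hwe, hu⟩ := hD.2.2 w hw
          exact hu w' hw' (hnb w' e)
    have h1 := Finset.card_le_card hsub
    have h2 : (insert ∅ ((Finset.univ : Finset V).image (fun v => ({v} : Finset V)))).card
        ≤ Fintype.card V + 1 := by
      refine (Finset.card_insert_le _ _).trans (Nat.add_le_add_right ?_ 1)
      exact Finset.card_image_le
    have h3 : ((mc (nbr G) (Finset.univ : Finset V) Finset.univ).card : ℝ) ≤ n + 1 := by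
      have := h1.trans h2
      rw [hn]
      exact_mod_cast this
    nlinarith [sq_nonneg (n - 2)]
  · push Not at hc
    have hXne : X.Nonempty := hc.1
    have hYne : (Xᶜ).Nonempty := hc.2
    have hsub : mc (nbr G) (Finset.univ : Finset V) Finset.univ ⊆
        ((X ×ˢ Xᶜ).image (fun p => ({p.1, p.2} : Finset V))) ∪ (mc (nbr G) X Xᶜ ∪ mc (nbr G) Xᶜ X) := by
      intro D hD
      rw [Finset.mem_union, Finset.mem_union]
      by_cases h1 : D ⊆ X
      · exact Or.inr (Or.inl (side_sub G X hX hYne hD h1))
      by_cases h2 : D ⊆ Xᶜ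
      · right; right
        have h3 := side_sub G Xᶜ (fun u hu v hv huv => hY u (Finset.mem_compl.mp hu) v (Finset.mem_compl.mp hv) huv)
          (by rw [compl_compl]; exact hXne) hD h2
        rwa [compl_compl] at h3
      · left
        obtain ⟨y, hy, hyX⟩ := Finset.not_subset.mp h1
        obtain ⟨x, hx, hxX⟩ := Finset.not_subset.mp h2
        have hxX' : x ∈ X := by
          by_contra h; exact hxX (Finset.mem_compl.mpr h)
        rw [Finset.mem_image]
        refine ⟨(x, y), Finset.mem_product.mpr ⟨hxX', Finset.mem_compl.mpr hyX⟩, ?_⟩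
        rw [mem_mc] at hD
        ext w
        simp only [Finset.mem_insert, Finset.mem_singleton]
        constructor
        · rintro (rfl | rfl)
          · exact hx
          · exact hy
        · intro hw
          obtain ⟨e, -, hwe, hu⟩ := hD.2.2 w hw
          by_cases he : e ∈ X
          · left
            symm
            apply hu x hx
            by_cases h : x = e
            · exact Or.inl h
            · exact Or.inr (hX x hxX' e he h)
          · right
            symm
            apply hu y hy
            by_cases h : y = e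
            · exact Or.inl h
            · exact Or.inr (hY y hyX e he h)
    have h1 := Finset.card_le_card hsub
    have h2 : (((X ×ˢ Xᶜ).image (fun p => ({p.1, p.2} : Finset V))) ∪ (mc (nbr G) X Xᶜ ∪ mc (nbr G) Xᶜ X)).card
        ≤ X.card * (Xᶜ).card + ((mc (nbr G) X Xᶜ).card + (mc (nbr G) Xᶜ X).card) := by
      refine (Finset.card_union_le _ _).trans (Nat.add_le_add ?_ (Finset.card_union_le _ _))
      exact Finset.card_image_le.trans (Finset.card_product _ _).le
    have hsum : X.card + (Xᶜ).card = Fintype.card V := Finset.card_add_card_compl X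
    have h3 : ((mc (nbr G) (Finset.univ : Finset V) Finset.univ).card : ℝ) ≤
        (X.card : ℝ) * (Xᶜ).card + ((mc (nbr G) X Xᶜ).card + (mc (nbr G) Xᶜ X).card) := by
      exact_mod_cast h1.trans h2
    have h4 := cover_balanced (nbr G) X Xᶜ
    have h5 := cover_balanced (nbr G) Xᶜ X
    rw [hsum] at h4
    rw [add_comm, hsum] at h5
    have h6 : (X.card : ℝ) + (Xᶜ).card = n := by rw [hn]; exact_mod_cast hsum
    nlinarith [sq_nonneg ((X.card : ℝ) - (Xᶜ).card)]

end Pool.Agent.MDS81
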