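import Mathlib

set_option autoImplicit false

/-! Minimal covers: choosers `A`, elements `B`, incidence `R`. A weighted branching bound. -/

namespace Pool.Agent.MDS81

open Finset
open scoped Classical

variable {ι κ : Type*}

/-- Minimal covers of `B` by members of `A`: each element of `B` is covered, and each chosen
member has a private element. -/
noncomputable def mc (R : ι → κ → Prop) (A : Finset ι) (B : Finset κ) : Finset (Finset ι) :=
  A.powerset.filter (fun D => (∀ e ∈ B, ∃ w ∈ D, R w e) ∧
    ∀ w ∈ D, ∃ e ∈ B, R w e ∧ ∀ w' ∈ D, R w' e → w' = w)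

/-- current size of a chooser -/
noncomputable def sz (R : ι → κ → Prop) (w : ι) (B : Finset κ) : ℕ := (B.filter (fun e => R w e)).card

/-- frequency of an element -/
noncomputable def fr (R : ι → κ → Prop) (A : Finset ι) (e : κ) : ℕ := (A.filter (fun w => R w e)).card

/-- elements not covered by `w` -/
noncomputable def rem (R : ι → κ → Prop) (w : ι) (B : Finset κ) : Finset κ := B.filter (fun e => ¬ R w e)

lemma mem_mc {R : ι → κ → Prop} {A : Finset ι} {B : Finset κ} {D : Finset ι} :
    D ∈ mc R A B ↔ D ⊆ A ∧ (∀ e ∈ B, ∃ w ∈ D, R w e) ∧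
      ∀ w ∈ D, ∃ e ∈ B, R w e ∧ ∀ w' ∈ D, R w' e → w' = w := by
  simp [mc, Finset.mem_filter, Finset.mem_powerset]

/-- The numerical conditions on the weights. -/
structure Wt (α : ℕ → ℝ) (β : ℝ) : Prop where
  zero : α 0 = 0
  mono : ∀ k, α k ≤ α (k + 1)
  conc : ∀ k, α (k + 2) - α (k + 1) ≤ α (k + 1) - α k
  beta : 0 ≤ β
  ca : ∀ s : ℕ, Real.exp (-α (s + 2)) *
      (1 + Real.exp (-(((s : ℝ) + 2) * β + 2 * ((s : ℝ) + 2) * (α (s + 2) - α (s + 1))))) ≤ 1
  cb : ∀ s : ℕ, Real.exp (-α (s + 2)) *
      (Real.exp (-(α 1 + β)) + Real.exp (-(((s : ℝ) + 2) * β + ((s : ℝ) + 2) * (α (s + 2) - α (s + 1))))) ≤ 1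
  cc : ∀ f : ℕ, (f : ℝ) ≤ Real.exp (α 1 * f + β)

/-- the measure -/
noncomputable def mu (R : ι → κ → Prop) (α : ℕ → ℝ) (β : ℝ) (A : Finset ι) (B : Finset κ) : ℝ :=
  ∑ w ∈ A, α (sz R w B) + β * B.card

lemma Wt.monotone {α : ℕ → ℝ} {β : ℝ} (h : Wt α β) : Monotone α := monotone_nat_of_le_succ h.mono

lemma Wt.nonneg {α : ℕ → ℝ} {β : ℝ} (h : Wt α β) (k : ℕ) : 0 ≤ α k := by
  have := h.monotone (Nat.zero_le k)
  rw [h.zero] at this; exact this

/-- increments at positions up to `s` are at least the increment at `s`. -/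
lemma Wt.incr {α : ℕ → ℝ} {β : ℝ} (h : Wt α β) (s k : ℕ) (hk : k ≤ s) :
    α (s + 1) - α s ≤ α (k + 1) - α k := by
  induction s with
  | zero =>
    have : k = 0 := by omega
    subst this; exact le_rfl
  | succ s ih =>
    rcases Nat.lt_or_ge k (s + 1) with h1 | h1
    · exact (h.conc s).trans (ih (by omega))
    · have : k = s + 1 := by omega
      subst this; exact le_rfl

/-- losing `j` elements from size `k ≤ s + 1` costs at least `j` times the increment at `s`. -/
lemma Wt.drop {α : ℕ → ℝ} {β : ℝ} (h : Wt α β) (s k j : ℕ) (hk : k ≤ s + 1) (hj : j ≤ k) :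
    α (k - j) + j * (α (s + 1) - α s) ≤ α k := by
  induction j with
  | zero => simp
  | succ j ih =>
    have h1 := ih (by omega)
    have h2 : k - j = (k - (j + 1)) + 1 := by omega
    have h3 := h.incr s (k - (j + 1)) (by omega)
    rw [h2] at h1
    push_cast
    linarith

lemma sz_mono {R : ι → κ → Prop} (w : ι) {B' B : Finset κ} (h : B' ⊆ B) : sz R w B' ≤ sz R w B :=
  Finset.card_le_card (Finset.filter_subset_filter _ h)

lemma rem_subset {R : ι → κ → Prop} (w : ι) (B : Finset κ) : rem R w B ⊆ B := Finset.filter_subset _ _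

lemma card_rem (R : ι → κ → Prop) (w : ι) (B : Finset κ) : (rem R w B).card + sz R w B = B.card := by
  have := Finset.card_filter_add_card_filter_not (s := B) (fun e => R w e)
  unfold rem sz
  omega

lemma mu_nonneg {R : ι → κ → Prop} {α : ℕ → ℝ} {β : ℝ} (h : Wt α β) (A : Finset ι) (B : Finset κ) :
    0 ≤ mu R α β A B := by
  unfold mu
  have h1 : 0 ≤ ∑ w ∈ A, α (sz R w B) := Finset.sum_nonneg (fun w _ => h.nonneg _)
  have h2 : 0 ≤ β * (B.card : ℝ) := mul_nonneg h.beta (Nat.cast_nonneg _)
  linarith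

/-- removing a chooser `w` which is not taken -/
lemma mu_erase {R : ι → κ → Prop} {α : ℕ → ℝ} {β : ℝ} {A : Finset ι} {B : Finset κ} {w : ι}
    (hw : w ∈ A) : mu R α β (A.erase w) B + α (sz R w B) = mu R α β A B := by
  unfold mu
  rw [← Finset.sum_erase_add A _ hw]
  ring

/-- crude bound when `w` is taken -/
lemma mu_take {R : ι → κ → Prop} {α : ℕ → ℝ} {β : ℝ} (h : Wt α β) {A : Finset ι} {B : Finset κ} {w : ι}
    (hw : w ∈ A) : mu R α β (A.erase w) (rem R w B) + α (sz R w B) + β * sz R w B ≤ mu R α β A B := by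
  rw [← mu_erase (R := R) (α := α) (β := β) (B := B) hw]
  unfold mu
  have h1 : ∑ w' ∈ A.erase w, α (sz R w' (rem R w B)) ≤ ∑ w' ∈ A.erase w, α (sz R w' B) :=
    Finset.sum_le_sum (fun w' _ => h.monotone (sz_mono w' (rem_subset w B)))
  have h2 : ((rem R w B).card : ℝ) + sz R w B = B.card := by exact_mod_cast card_rem R w B
  have h3 : β * (B.card : ℝ) = β * (rem R w B).card + β * sz R w B := by rw [← h2]; ring
  linarith

/-- size splits -/
lemma sz_split {R : ι → κ → Prop} (w w' : ι) (B : Finset κ) :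
    sz R w' (rem R w B) + ((B.filter (fun e => R w e)).filter (fun e => R w' e)).card = sz R w' B := by
  unfold sz rem
  have := Finset.card_filter_add_card_filter_not (s := B.filter (fun e => R w' e)) (fun e => R w e)
  rw [Finset.filter_filter, Finset.filter_filter] at this
  rw [Finset.filter_filter, Finset.filter_filter]
  have e1 : (B.filter (fun a => ¬ R w a ∧ R w' a)) = (B.filter (fun a => R w' a ∧ ¬ R w a)) := by
    ext a; simp [and_comm]
  have e2 : (B.filter (fun a => R w a ∧ R w' a)) = (B.filter (fun a => R w' a ∧ R w a)) := by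
    ext a; simp [and_comm]
  rw [e1, e2]; omega

/-- refined bound when `w`, of maximum size `s + 1`, is taken and each of its elements has at least
`c` other choosers -/
lemma mu_take_refined {R : ι → κ → Prop} {α : ℕ → ℝ} {β : ℝ} (h : Wt α β) {A : Finset ι} {B : Finset κ}
    {w : ι} (hw : w ∈ A) (s c : ℕ) (hs : sz R w B = s + 1) (hmax : ∀ w' ∈ A, sz R w' B ≤ s + 1)
    (hfr : ∀ e ∈ B, R w e → c + 1 ≤ fr R A e) :
    mu R α β (A.erase w) (rem R w B) + α (s + 1) + β * ((s : ℝ) + 1)
      + (c : ℝ) * ((s : ℝ) + 1) * (α (s + 1) - α s) ≤ mu R α β A B := by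
  have hmu := mu_erase (R := R) (α := α) (β := β) (B := B) hw
  rw [hs] at hmu
  rw [← hmu]
  unfold mu
  set N : Finset κ := B.filter (fun e => R w e) with hN
  have hNcard : N.card = s + 1 := by rw [← hs]; rfl
  have h1 : ∀ w' ∈ A.erase w, α (sz R w' (rem R w B)) +
      ((N.filter (fun e => R w' e)).card : ℝ) * (α (s + 1) - α s) ≤ α (sz R w' B) := by
    intro w' hw'
    have h2 := sz_split (R := R) w w' B
    have h3 := h.drop s (sz R w' B) ((N.filter (fun e => R w' e)).card)
      (hmax w' (Finset.mem_of_mem_erase hw')) (by rw [← h2]; exact Nat.le_add_left _ _)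
    have h4 : sz R w' B - (N.filter (fun e => R w' e)).card = sz R w' (rem R w B) := by
      rw [← h2]; exact Nat.add_sub_cancel _ _
    rw [h4] at h3
    exact h3
  have h5 := Finset.sum_le_sum h1
  rw [Finset.sum_add_distrib, ← Finset.sum_mul] at h5
  have h6 : (c : ℝ) * ((s : ℝ) + 1) ≤ ∑ w' ∈ A.erase w, ((N.filter (fun e => R w' e)).card : ℝ) := by
    have h7 : ∑ w' ∈ A.erase w, (N.filter (fun e => R w' e)).card
        = ∑ e ∈ N, ((A.erase w).filter (fun w' => R w' e)).card := by
      simp only [Finset.card_filter]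
      exact Finset.sum_comm
    have h8 : ∀ e ∈ N, c ≤ ((A.erase w).filter (fun w' => R w' e)).card := by
      intro e he
      have he' := Finset.mem_filter.mp he
      have h9 := hfr e he'.1 he'.2
      unfold fr at h9
      have h10 : ((A.erase w).filter (fun w' => R w' e)) = (A.filter (fun w' => R w' e)).erase w := by
        ext x; simp only [Finset.mem_filter, Finset.mem_erase]; tauto
      rw [h10, Finset.card_erase_of_mem (Finset.mem_filter.mpr ⟨hw, he'.2⟩)]
      omega
    have h11 : c * (s + 1) ≤ ∑ e ∈ N, ((A.erase w).filter (fun w' => R w' e)).card := by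
      calc c * (s + 1) = ∑ _e ∈ N, c := by rw [Finset.sum_const, hNcard]; simp [mul_comm]
        _ ≤ _ := Finset.sum_le_sum h8
    rw [← h7] at h11
    exact_mod_cast h11
  have hinc : 0 ≤ α (s + 1) - α s := sub_nonneg.mpr (h.mono s)
  have h12 := mul_le_mul_of_nonneg_right h6 hinc
  have h13 : ((rem R w B).card : ℝ) + ((s : ℝ) + 1) = B.card := by
    have := card_rem R w B
    rw [hs] at this
    exact_mod_cast this
  have h14 : β * (B.card : ℝ) = β * (rem R w B).card + β * ((s : ℝ) + 1) := by rw [← h13]; ring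
  linarith

/-- `w` not taken -/
lemma mc_out {R : ι → κ → Prop} {A : Finset ι} {B : Finset κ} (w : ι) :
    (mc R A B).filter (fun D => w ∉ D) ⊆ mc R (A.erase w) B := by
  intro D hD
  rw [Finset.mem_filter, mem_mc] at hD
  rw [mem_mc]
  refine ⟨?_, hD.1.2.1, hD.1.2.2⟩
  intro x hx
  exact Finset.mem_erase.mpr ⟨fun h => hD.2 (h ▸ hx), hD.1.1 hx⟩

/-- `w` taken -/
lemma mc_in {R : ι → κ → Prop} {A : Finset ι} {B : Finset κ} (w : ι) :
    ((mc R A B).filter (fun D => w ∈ D)).card ≤ (mc R (A.erase w) (rem R w B)).card := by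
  apply Finset.card_le_card_of_injOn (fun D => D.erase w)
  · intro D hD
    have hD' := Finset.mem_filter.mp (Finset.mem_coe.mp hD)
    obtain ⟨hD1, hwD⟩ := hD'
    rw [mem_mc] at hD1
    simp only [Finset.mem_coe]
    rw [mem_mc]
    refine ⟨?_, ?_, ?_⟩
    · intro x hx
      have := Finset.mem_erase.mp hx
      exact Finset.mem_erase.mpr ⟨this.1, hD1.1 this.2⟩
    · intro e he
      have he' := Finset.mem_filter.mp he
      obtain ⟨x, hx, hxe⟩ := hD1.2.1 e he'.1
      refine ⟨x, Finset.mem_erase.mpr ⟨?_, hx⟩, hxe⟩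
      rintro rfl
      exact he'.2 hxe
    · intro x hx
      have hx' := Finset.mem_erase.mp hx
      obtain ⟨e, he, hxe, huniq⟩ := hD1.2.2 x hx'.2
      refine ⟨e, Finset.mem_filter.mpr ⟨he, ?_⟩, hxe, ?_⟩
      · intro hwe
        exact hx'.1 (huniq w hwD hwe).symm
      · intro x' hx'' hx'e
        exact huniq x' (Finset.mem_of_mem_erase hx'') hx'e
  · intro D hD D' hD' heq
    have h1 := (Finset.mem_filter.mp (Finset.mem_coe.mp hD)).2
    have h2 := (Finset.mem_filter.mp (Finset.mem_coe.mp hD')).2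
    have h3 : D.erase w = D'.erase w := heq
    rw [← Finset.insert_erase h1, ← Finset.insert_erase h2, h3]

lemma mc_split {R : ι → κ → Prop} {A : Finset ι} {B : Finset κ} (w : ι) :
    (mc R A B).card ≤ (mc R (A.erase w) B).card + (mc R (A.erase w) (rem R w B)).card := by
  have h1 := Finset.card_filter_add_card_filter_not (s := mc R A B) (fun D => w ∈ D)
  have h2 := mc_in (R := R) (A := A) (B := B) w
  have h3 := Finset.card_le_card (mc_out (R := R) (A := A) (B := B) w)
  omega

/-- forced chooser -/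
lemma mc_forced {R : ι → κ → Prop} {A : Finset ι} {B : Finset κ} (w : ι) (e : κ) (he : e ∈ B)
    (hu : ∀ w' ∈ A, R w' e → w' = w) :
    (mc R A B).card ≤ (mc R (A.erase w) (rem R w B)).card := by
  refine le_trans ?_ (mc_in (R := R) (A := A) (B := B) w)
  apply Finset.card_le_card
  intro D hD
  refine Finset.mem_filter.mpr ⟨hD, ?_⟩
  rw [mem_mc] at hD
  obtain ⟨x, hx, hxe⟩ := hD.2.1 e he
  rw [← hu x (hD.1 hx) hxe]; exact hx

/-- all sizes at most one: branch on an element -/
lemma mc_elem {R : ι → κ → Prop} {A : Finset ι} {B : Finset κ} (hmax : ∀ w ∈ A, sz R w B ≤ 1)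
    (e : κ) (he : e ∈ B) :
    (mc R A B).card ≤ fr R A e * (mc R (A.filter (fun w => ¬ R w e)) (B.erase e)).card := by
  have hone : ∀ w ∈ A, ∀ x ∈ B, ∀ y ∈ B, R w x → R w y → x = y := by
    intro w hw x hx y hy hwx hwy
    have := hmax w hw
    unfold sz at this
    exact Finset.card_le_one.mp this x (Finset.mem_filter.mpr ⟨hx, hwx⟩) y (Finset.mem_filter.mpr ⟨hy, hwy⟩)
  have hsub : mc R A B ⊆ (A.filter (fun w => R w e)).biUnion
      (fun w => (mc R (A.filter (fun w => ¬ R w e)) (B.erase e)).image (fun D => insert w D)) := by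
    intro D hD
    rw [mem_mc] at hD
    obtain ⟨w, hw, hwe⟩ := hD.2.1 e he
    rw [Finset.mem_biUnion]
    refine ⟨w, Finset.mem_filter.mpr ⟨hD.1 hw, hwe⟩, ?_⟩
    rw [Finset.mem_image]
    refine ⟨D.erase w, ?_, Finset.insert_erase hw⟩
    rw [mem_mc]
    have huw : ∀ w' ∈ D, R w' e → w' = w := by
      intro w' hw' hw'e
      obtain ⟨e', he', hw'e', hu⟩ := hD.2.2 w' hw'
      have : e' = e := hone w' (hD.1 hw') e' he' e he hw'e' hw'e
      subst this
      exact (hu w hw hwe).symm
    refine ⟨?_, ?_, ?_⟩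
    · intro x hx
      have hx' := Finset.mem_erase.mp hx
      exact Finset.mem_filter.mpr ⟨hD.1 hx'.2, fun hxe => hx'.1 (huw x hx'.2 hxe)⟩
    · intro e' he'
      have he'' := Finset.mem_erase.mp he'
      obtain ⟨x, hx, hxe⟩ := hD.2.1 e' he''.2
      refine ⟨x, Finset.mem_erase.mpr ⟨?_, hx⟩, hxe⟩
      rintro rfl
      exact he''.1 (hone x (hD.1 hx) e' he''.2 e he hxe hwe)
    · intro x hx
      have hx' := Finset.mem_erase.mp hx
      obtain ⟨e', he', hxe', hu⟩ := hD.2.2 x hx'.2
      refine ⟨e', Finset.mem_erase.mpr ⟨?_, he'⟩, hxe', fun w' hw' hw'e' => hu w' (Finset.mem_of_mem_erase hw') hw'e'⟩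
      rintro rfl
      exact hx'.1 (huw x hx'.2 hxe')
  calc (mc R A B).card ≤ _ := Finset.card_le_card hsub
    _ ≤ ∑ w ∈ A.filter (fun w => R w e), ((mc R (A.filter (fun w => ¬ R w e)) (B.erase e)).image (fun D => insert w D)).card :=
        Finset.card_biUnion_le
    _ ≤ ∑ _w ∈ A.filter (fun w => R w e), (mc R (A.filter (fun w => ¬ R w e)) (B.erase e)).card :=
        Finset.sum_le_sum (fun w _ => Finset.card_image_le)
    _ = _ := by rw [Finset.sum_const]; rfl

lemma mu_elem {R : ι → κ → Prop} {α : ℕ → ℝ} {β : ℝ} (h : Wt α β) {A : Finset ι} {B : Finset κ}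
    (hmax : ∀ w ∈ A, sz R w B ≤ 1) (e : κ) (he : e ∈ B) :
    mu R α β (A.filter (fun w => ¬ R w e)) (B.erase e) + (α 1 * fr R A e + β) ≤ mu R α β A B := by
  unfold mu
  have h1 : ∑ w ∈ A, α (sz R w B) = ∑ w ∈ A.filter (fun w => R w e), α (sz R w B)
      + ∑ w ∈ A.filter (fun w => ¬ R w e), α (sz R w B) :=
    (Finset.sum_filter_add_sum_filter_not A (fun w => R w e) _).symm
  have h2 : ∑ w ∈ A.filter (fun w => R w e), α (sz R w B) = fr R A e * α 1 := by
    have : ∀ w ∈ A.filter (fun w => R w e), α (sz R w B) = α 1 := by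
      intro w hw
      have hw' := Finset.mem_filter.mp hw
      have h3 := hmax w hw'.1
      have h4 : 0 < sz R w B := Finset.card_pos.mpr ⟨e, Finset.mem_filter.mpr ⟨he, hw'.2⟩⟩
      have h5 : sz R w B = 1 := by omega
      rw [h5]
    rw [Finset.sum_congr rfl this, Finset.sum_const, nsmul_eq_mul]; rfl
  have h3 : ∑ w ∈ A.filter (fun w => ¬ R w e), α (sz R w (B.erase e))
      ≤ ∑ w ∈ A.filter (fun w => ¬ R w e), α (sz R w B) :=
    Finset.sum_le_sum (fun w _ => h.monotone (sz_mono w (Finset.erase_subset _ _)))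
  have h4 : ((B.erase e).card : ℝ) + 1 = B.card := by
    exact_mod_cast Finset.card_erase_add_one he
  rw [h1, h2, ← h4]
  linarith

lemma exp_helper (m a b c : ℝ) : Real.exp (m - a - b) + Real.exp (m - a - c)
    = Real.exp m * (Real.exp (-a) * (Real.exp (-b) + Real.exp (-c))) := by
  have h1 : m - a - b = m + (-a + -b) := by ring
  have h2 : m - a - c = m + (-a + -c) := by ring
  rw [h1, h2, Real.exp_add, Real.exp_add, Real.exp_add, Real.exp_add]; ring

lemma exp_helper' (m a c : ℝ) : Real.exp (m - a) + Real.exp (m - a - c)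
    = Real.exp m * (Real.exp (-a) * (1 + Real.exp (-c))) := by
  have h1 : m - a = m + -a := by ring
  have h2 : m - a - c = m + (-a + -c) := by ring
  rw [h2, h1, Real.exp_add, Real.exp_add, Real.exp_add]; ring

/-- **Weighted branching bound** for the number of minimal covers. -/
theorem cover_bound {α : ℕ → ℝ} {β : ℝ} (h : Wt α β) (R : ι → κ → Prop) :
    ∀ (n : ℕ) (A : Finset ι) (B : Finset κ), A.card + B.card = n →
      ((mc R A B).card : ℝ) ≤ Real.exp (mu R α β A B) := by
  intro n
  induction n using Nat.strong_induction_on with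
  | _ n ih =>
  intro A B hn
  -- generic recursion step for the forced case
  have hforced : ∀ w ∈ A, ∀ e ∈ B, R w e → (∀ w' ∈ A, R w' e → w' = w) →
      ((mc R A B).card : ℝ) ≤ Real.exp (mu R α β (A.erase w) (rem R w B)) := by
    intro w hw e he hwe hu
    have h1 := mc_forced (R := R) w e he hu
    have hc : (A.erase w).card + (rem R w B).card < n := by
      have := Finset.card_erase_lt_of_mem hw
      have := Finset.card_le_card (rem_subset (R := R) w B)
      omega
    have h2 := ih _ hc (A.erase w) (rem R w B) rfl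
    exact le_trans (by exact_mod_cast h1) h2
  by_cases hB : B = ∅
  · subst hB
    have h1 : mc R A (∅ : Finset κ) ⊆ {∅} := by
      intro D hD
      rw [mem_mc] at hD
      rw [Finset.mem_singleton]
      by_contra hne
      obtain ⟨w, hw⟩ := Finset.nonempty_iff_ne_empty.mpr hne
      obtain ⟨e, he, _⟩ := hD.2.2 w hw
      simp at he
    have h2 : (mc R A (∅ : Finset κ)).card ≤ 1 := by
      simpa using Finset.card_le_card h1
    calc ((mc R A (∅ : Finset κ)).card : ℝ) ≤ 1 := by exact_mod_cast h2
      _ = Real.exp 0 := Real.exp_zero.symm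
      _ ≤ _ := Real.exp_le_exp.mpr (mu_nonneg h A ∅)
  obtain ⟨e0, he0⟩ := Finset.nonempty_iff_ne_empty.mpr hB
  by_cases hmax : ∀ w ∈ A, sz R w B ≤ 1
  · -- element branching
    have h1 := mc_elem (R := R) hmax e0 he0
    have h2 := mu_elem (R := R) h hmax e0 he0
    have hc : (A.filter (fun w => ¬ R w e0)).card + (B.erase e0).card < n := by
      have h3 := Finset.card_erase_lt_of_mem he0
      have h4 := Finset.card_le_card (Finset.filter_subset (fun w => ¬ R w e0) A)
      omega
    have h3 := ih _ hc (A.filter (fun w => ¬ R w e0)) (B.erase e0) rfl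
    have h4 := h.cc (fr R A e0)
    calc ((mc R A B).card : ℝ) ≤ (fr R A e0 : ℝ) * (mc R (A.filter (fun w => ¬ R w e0)) (B.erase e0)).card := by
          exact_mod_cast h1
      _ ≤ Real.exp (α 1 * fr R A e0 + β) * Real.exp (mu R α β (A.filter (fun w => ¬ R w e0)) (B.erase e0)) :=
          mul_le_mul h4 h3 (Nat.cast_nonneg _) (Real.exp_pos _).le
      _ = Real.exp (mu R α β (A.filter (fun w => ¬ R w e0)) (B.erase e0) + (α 1 * fr R A e0 + β)) := by
          rw [← Real.exp_add]; ring_nf
      _ ≤ _ := Real.exp_le_exp.mpr h2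
  · push Not at hmax
    obtain ⟨w1, hw1, hw1s⟩ := hmax
    obtain ⟨w, hw, hwmax⟩ := Finset.exists_max_image A (fun w => sz R w B) ⟨w1, hw1⟩
    have hws : 2 ≤ sz R w B := le_trans hw1s (hwmax w1 hw1)
    obtain ⟨s, hs⟩ : ∃ s, sz R w B = s + 2 := ⟨sz R w B - 2, by omega⟩
    have hfrpos : ∀ e ∈ B, R w e → 1 ≤ fr R A e := by
      intro e _ hwe
      exact Finset.card_pos.mpr ⟨w, Finset.mem_filter.mpr ⟨hw, hwe⟩⟩
    by_cases hf1 : ∃ e ∈ B, R w e ∧ fr R A e = 1
    · obtain ⟨e, he, hwe, hfe⟩ := hf1
      have hu : ∀ w' ∈ A, R w' e → w' = w := by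
        intro w' hw' hw'e
        exact Finset.card_le_one.mp (le_of_eq hfe) w' (Finset.mem_filter.mpr ⟨hw', hw'e⟩) w
          (Finset.mem_filter.mpr ⟨hw, hwe⟩)
      refine (hforced w hw e he hwe hu).trans (Real.exp_le_exp.mpr ?_)
      have h1 := mu_take (R := R) h (B := B) hw
      have h2 := h.nonneg (sz R w B)
      have h3 : 0 ≤ β * (sz R w B : ℝ) := mul_nonneg h.beta (Nat.cast_nonneg _)
      linarith
    have hf2 : ∀ e ∈ B, R w e → 2 ≤ fr R A e := by
      intro e he hwe
      have h1 := hfrpos e he hwe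
      rcases Nat.lt_or_ge 1 (fr R A e) with h2 | h2
      · exact h2
      · exact absurd ⟨e, he, hwe, le_antisymm h2 h1⟩ hf1
    have hcE : (A.erase w).card + B.card < n := by
      have := Finset.card_erase_lt_of_mem hw
      omega
    have hcT : (A.erase w).card + (rem R w B).card < n := by
      have := Finset.card_erase_lt_of_mem hw
      have := Finset.card_le_card (rem_subset (R := R) w B)
      omega
    have hsplit := mc_split (R := R) (A := A) (B := B) w
    have hIn := ih _ hcT (A.erase w) (rem R w B) rfl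
    have hmuE := mu_erase (R := R) (α := α) (β := β) (B := B) hw
    rw [hs] at hmuE
    have hmax' : ∀ w' ∈ A, sz R w' B ≤ (s + 1) + 1 := by
      intro w' hw'
      have := hwmax w' hw'
      omega
    by_cases hf3 : ∃ e ∈ B, R w e ∧ fr R A e = 2
    · obtain ⟨e, he, hwe, hfe⟩ := hf3
      -- the other chooser
      obtain ⟨x, hx, hxw⟩ : ∃ x ∈ A.filter (fun w => R w e), x ≠ w := by
        have : 1 < (A.filter (fun w => R w e)).card := by unfold fr at hfe; omega
        exact Finset.exists_mem_ne this w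
      have hx' := Finset.mem_filter.mp hx
      have hu : ∀ w' ∈ A.erase w, R w' e → w' = x := by
        intro w' hw' hw'e
        have hw'' := Finset.mem_erase.mp hw'
        by_contra hne
        have hsub : ({w, x, w'} : Finset ι) ⊆ A.filter (fun w => R w e) := by
          intro y hy
          simp only [Finset.mem_insert, Finset.mem_singleton] at hy
          rcases hy with rfl | rfl | rfl
          · exact Finset.mem_filter.mpr ⟨hw, hwe⟩
          · exact hx
          · exact Finset.mem_filter.mpr ⟨hw''.2, hw'e⟩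
        have h3 : ({w, x, w'} : Finset ι).card = 3 := by
          rw [Finset.card_eq_three]
          exact ⟨w, x, w', hxw.symm, hw''.1.symm, fun h => hne h.symm, rfl⟩
        have := Finset.card_le_card hsub
        unfold fr at hfe
        omega
      have hxE : x ∈ A.erase w := Finset.mem_erase.mpr ⟨hxw, hx'.1⟩
      have h1 := mc_forced (R := R) (A := A.erase w) x e he hu
      have hc2 : ((A.erase w).erase x).card + (rem R x B).card < n := by
        have := Finset.card_erase_lt_of_mem hxE
        have := Finset.card_erase_lt_of_mem hw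
        have := Finset.card_le_card (rem_subset (R := R) x B)
        omega
      have h2 := ih _ hc2 ((A.erase w).erase x) (rem R x B) rfl
      have h3 := mu_take (R := R) h (B := B) hxE
      have h4 : 1 ≤ sz R x B := Finset.card_pos.mpr ⟨e, Finset.mem_filter.mpr ⟨he, hx'.2⟩⟩
      have h5 : α 1 ≤ α (sz R x B) := h.monotone h4
      have h6 : β * 1 ≤ β * (sz R x B : ℝ) := mul_le_mul_of_nonneg_left (by exact_mod_cast h4) h.beta
      have h7 : mu R α β ((A.erase w).erase x) (rem R x B) ≤ mu R α β A B - α (s + 2) - (α 1 + β) := by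
        linarith
      have h8 := mu_take_refined (R := R) h (B := B) hw (s + 1) 1 hs hmax'
        (fun e he hwe => hf2 e he hwe)
      have h9 : mu R α β (A.erase w) (rem R w B) ≤ mu R α β A B - α (s + 2)
          - (((s : ℝ) + 2) * β + ((s : ℝ) + 2) * (α (s + 2) - α (s + 1))) := by
        push_cast at h8
        have e1 : s + 1 + 1 = s + 2 := rfl
        rw [e1] at h8
        linarith
      have hcb := h.cb s
      calc ((mc R A B).card : ℝ) ≤ ((mc R (A.erase w) B).card : ℝ) + (mc R (A.erase w) (rem R w B)).card := by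
            exact_mod_cast hsplit
        _ ≤ Real.exp (mu R α β A B - α (s + 2) - (α 1 + β)) + Real.exp (mu R α β A B - α (s + 2)
          - (((s : ℝ) + 2) * β + ((s : ℝ) + 2) * (α (s + 2) - α (s + 1)))) := by
            apply add_le_add
            · exact le_trans (by exact_mod_cast h1) (h2.trans (Real.exp_le_exp.mpr h7))
            · exact hIn.trans (Real.exp_le_exp.mpr h9)
        _ = Real.exp (mu R α β A B) * (Real.exp (-α (s + 2)) *
      (Real.exp (-(α 1 + β)) + Real.exp (-(((s : ℝ) + 2) * β + ((s : ℝ) + 2) * (α (s + 2) - α (s + 1)))))) := by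
            exact exp_helper _ _ _ _
        _ ≤ Real.exp (mu R α β A B) * 1 := mul_le_mul_of_nonneg_left hcb (Real.exp_pos _).le
        _ = _ := mul_one _
    · have hf3' : ∀ e ∈ B, R w e → 3 ≤ fr R A e := by
        intro e he hwe
        have h1 := hf2 e he hwe
        rcases Nat.lt_or_ge 2 (fr R A e) with h2 | h2
        · exact h2
        · exact absurd ⟨e, he, hwe, le_antisymm h2 h1⟩ hf3
      have h8 := mu_take_refined (R := R) h (B := B) hw (s + 1) 2 hs hmax'
        (fun e he hwe => hf3' e he hwe)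
      have h9 : mu R α β (A.erase w) (rem R w B) ≤ mu R α β A B - α (s + 2)
          - (((s : ℝ) + 2) * β + 2 * ((s : ℝ) + 2) * (α (s + 2) - α (s + 1))) := by
        push_cast at h8
        have e1 : s + 1 + 1 = s + 2 := rfl
        rw [e1] at h8
        linarith
      have h2 := ih _ hcE (A.erase w) B rfl
      have h7 : mu R α β (A.erase w) B ≤ mu R α β A B - α (s + 2) := by linarith
      have hca := h.ca s
      calc ((mc R A B).card : ℝ) ≤ ((mc R (A.erase w) B).card : ℝ) + (mc R (A.erase w) (rem R w B)).card := by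
            exact_mod_cast hsplit
        _ ≤ Real.exp (mu R α β A B - α (s + 2)) + Real.exp (mu R α β A B - α (s + 2)
          - (((s : ℝ) + 2) * β + 2 * ((s : ℝ) + 2) * (α (s + 2) - α (s + 1)))) := by
            apply add_le_add
            · exact h2.trans (Real.exp_le_exp.mpr h7)
            · exact hIn.trans (Real.exp_le_exp.mpr h9)
        _ = Real.exp (mu R α β A B) * (Real.exp (-α (s + 2)) *
      (1 + Real.exp (-(((s : ℝ) + 2) * β + 2 * ((s : ℝ) + 2) * (α (s + 2) - α (s + 1)))))) := by
            exact exp_helper' _ _ _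
        _ ≤ Real.exp (mu R α β A B) * 1 := mul_le_mul_of_nonneg_left hca (Real.exp_pos _).le
        _ = _ := mul_one _

end Pool.Agent.MDS81
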