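import Pool.Agent.MDS81.Cover

set_option autoImplicit false

/-! Refined weighted branching: weights for sizes and for frequencies. General lemmas. -/

namespace Pool.Agent.MDS81

open Finset
open scoped Classical

variable {ι κ : Type*}

/-- refined measure -/
noncomputable def mu2 (R : ι → κ → Prop) (α β : ℕ → ℝ) (A : Finset ι) (B : Finset κ) : ℝ :=
  ∑ w ∈ A, α (sz R w B) + ∑ e ∈ B, β (fr R A e)

/-- basic shape conditions on the weights -/
structure Shape (α β : ℕ → ℝ) : Prop where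
  a0 : α 0 = 0
  b0 : β 0 = 0
  b1 : β 1 = 0
  amono : ∀ k, α k ≤ α (k + 1)
  aconc : ∀ k, α (k + 2) - α (k + 1) ≤ α (k + 1) - α k
  bmono : ∀ k, β k ≤ β (k + 1)

namespace Shape

variable {α β : ℕ → ℝ}

lemma am (h : Shape α β) : Monotone α := monotone_nat_of_le_succ h.amono
lemma bm (h : Shape α β) : Monotone β := monotone_nat_of_le_succ h.bmono

lemma an (h : Shape α β) (k : ℕ) : 0 ≤ α k := by
  have := h.am (Nat.zero_le k); rw [h.a0] at this; exact this

lemma bn (h : Shape α β) (k : ℕ) : 0 ≤ β k := by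
  have := h.bm (Nat.zero_le k); rw [h.b0] at this; exact this

lemma incr (h : Shape α β) (s k : ℕ) (hk : k ≤ s) : α (s + 1) - α s ≤ α (k + 1) - α k := by
  induction s with
  | zero =>
    have : k = 0 := by omega
    subst this; exact le_rfl
  | succ s ih =>
    rcases Nat.lt_or_ge k (s + 1) with h1 | h1
    · exact (h.aconc s).trans (ih (by omega))
    · have : k = s + 1 := by omega
      subst this; exact le_rfl

lemma drop (h : Shape α β) (s k j : ℕ) (hk : k ≤ s + 1) (hj : j ≤ k) :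
    α (k - j) + j * (α (s + 1) - α s) ≤ α k := by
  induction j with
  | zero => simp
  | succ j ih =>
    have h1 := ih (by omega)
    have h2 : k - j = (k - (j + 1)) + 1 := by omega
    have h3 := h.incr s (k - (j + 1)) (by omega)
    rw [h2] at h1
    push_cast
    linarith

end Shape

lemma fr_mono {R : ι → κ → Prop} (e : κ) {A' A : Finset ι} (h : A' ⊆ A) : fr R A' e ≤ fr R A e :=
  Finset.card_le_card (Finset.filter_subset_filter _ h)

/-- The general accounting lemma. -/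
lemma mu2_gain {R : ι → κ → Prop} {α β : ℕ → ℝ} {A A' : Finset ι} {B B' : Finset κ}
    (hA : A' ⊆ A) (hB : B' ⊆ B) (gA : ι → ℝ) (gB : κ → ℝ)
    (h1 : ∀ w ∈ A, w ∉ A' → gA w ≤ α (sz R w B))
    (h2 : ∀ w ∈ A', gA w + α (sz R w B') ≤ α (sz R w B))
    (h3 : ∀ e ∈ B, e ∉ B' → gB e ≤ β (fr R A e))
    (h4 : ∀ e ∈ B', gB e + β (fr R A' e) ≤ β (fr R A e)) :
    mu2 R α β A' B' + (∑ w ∈ A, gA w + ∑ e ∈ B, gB e) ≤ mu2 R α β A B := by
  unfold mu2
  have e1 : ∑ w ∈ A, gA w = ∑ w ∈ A \ A', gA w + ∑ w ∈ A', gA w := (Finset.sum_sdiff hA).symm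
  have e2 : ∑ w ∈ A, α (sz R w B) = ∑ w ∈ A \ A', α (sz R w B) + ∑ w ∈ A', α (sz R w B) :=
    (Finset.sum_sdiff hA).symm
  have e3 : ∑ e ∈ B, gB e = ∑ e ∈ B \ B', gB e + ∑ e ∈ B', gB e := (Finset.sum_sdiff hB).symm
  have e4 : ∑ e ∈ B, β (fr R A e) = ∑ e ∈ B \ B', β (fr R A e) + ∑ e ∈ B', β (fr R A e) :=
    (Finset.sum_sdiff hB).symm
  have i1 : ∑ w ∈ A \ A', gA w ≤ ∑ w ∈ A \ A', α (sz R w B) :=
    Finset.sum_le_sum (fun w hw => h1 w (Finset.mem_sdiff.mp hw).1 (Finset.mem_sdiff.mp hw).2)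
  have i2 : ∑ w ∈ A', gA w + ∑ w ∈ A', α (sz R w B') ≤ ∑ w ∈ A', α (sz R w B) := by
    rw [← Finset.sum_add_distrib]; exact Finset.sum_le_sum h2
  have i3 : ∑ e ∈ B \ B', gB e ≤ ∑ e ∈ B \ B', β (fr R A e) :=
    Finset.sum_le_sum (fun w hw => h3 w (Finset.mem_sdiff.mp hw).1 (Finset.mem_sdiff.mp hw).2)
  have i4 : ∑ e ∈ B', gB e + ∑ e ∈ B', β (fr R A' e) ≤ ∑ e ∈ B', β (fr R A e) := by
    rw [← Finset.sum_add_distrib]; exact Finset.sum_le_sum h4
  linarith

lemma mu2_mono {R : ι → κ → Prop} {α β : ℕ → ℝ} (h : Shape α β) {A A' : Finset ι} {B B' : Finset κ}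
    (hA : A' ⊆ A) (hB : B' ⊆ B) : mu2 R α β A' B' ≤ mu2 R α β A B := by
  have := mu2_gain (R := R) (α := α) (β := β) hA hB (fun _ => 0) (fun _ => 0)
    (fun w _ _ => h.an _) (fun w _ => by simpa using h.am (sz_mono w hB))
    (fun e _ _ => h.bn _) (fun e _ => by simpa using h.bm (fr_mono e hA))
  simpa using this

lemma mu2_nonneg {R : ι → κ → Prop} {α β : ℕ → ℝ} (h : Shape α β) (A : Finset ι) (B : Finset κ) :
    0 ≤ mu2 R α β A B := by
  unfold mu2
  exact add_nonneg (Finset.sum_nonneg (fun w _ => h.an _)) (Finset.sum_nonneg (fun e _ => h.bn _))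

/-- **Generic take lemma.** `X` = chosen and discarded choosers, `I ⊆ X` the chosen ones. -/
lemma mc_take {R : ι → κ → Prop} {A : Finset ι} {B : Finset κ} (I X : Finset ι)
    (F : Finset (Finset ι)) (hF : F ⊆ mc R A B) (hFI : ∀ D ∈ F, D ∩ X = I) :
    F.card ≤ (mc R (A \ X) (B.filter (fun e => ∀ w ∈ I, ¬ R w e))).card := by
  apply Finset.card_le_card_of_injOn (fun D => D \ I)
  · intro D hD
    have hD' := hF (Finset.mem_coe.mp hD)
    have hDI := hFI D (Finset.mem_coe.mp hD)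
    rw [mem_mc] at hD'
    simp only [Finset.mem_coe]
    rw [mem_mc]
    have hID : I ⊆ D := by rw [← hDI]; exact Finset.inter_subset_left
    have hnotX : ∀ x ∈ D, x ∉ I → x ∉ X := by
      intro x hx hxI hxX
      apply hxI; rw [← hDI]; exact Finset.mem_inter.mpr ⟨hx, hxX⟩
    refine ⟨?_, ?_, ?_⟩
    · intro x hx
      have hx' := Finset.mem_sdiff.mp hx
      exact Finset.mem_sdiff.mpr ⟨hD'.1 hx'.1, hnotX x hx'.1 hx'.2⟩
    · intro e he
      have he' := Finset.mem_filter.mp he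
      obtain ⟨x, hx, hxe⟩ := hD'.2.1 e he'.1
      exact ⟨x, Finset.mem_sdiff.mpr ⟨hx, fun hxI => he'.2 x hxI hxe⟩, hxe⟩
    · intro x hx
      have hx' := Finset.mem_sdiff.mp hx
      obtain ⟨e, he, hxe, hu⟩ := hD'.2.2 x hx'.1
      refine ⟨e, Finset.mem_filter.mpr ⟨he, ?_⟩, hxe, fun w' hw' hw'e => hu w' (Finset.mem_sdiff.mp hw').1 hw'e⟩
      intro w hw hwe
      have : w = x := hu w (hID hw) hwe
      subst this; exact hx'.2 hw
  · intro D hD D' hD' heq
    have h1 : I ⊆ D := by rw [← hFI D (Finset.mem_coe.mp hD)]; exact Finset.inter_subset_left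
    have h2 : I ⊆ D' := by rw [← hFI D' (Finset.mem_coe.mp hD')]; exact Finset.inter_subset_left
    have h3 : D \ I = D' \ I := heq
    rw [← Finset.sdiff_union_of_subset h1, ← Finset.sdiff_union_of_subset h2, h3]

/-- element domination -/
lemma mc_dom {R : ι → κ → Prop} {A : Finset ι} {B : Finset κ} (e f : κ) (hne : e ≠ f) (hf : f ∈ B)
    (hsub : ∀ w ∈ A, R w f → R w e) : mc R A B ⊆ mc R A (B.erase e) := by
  intro D hD
  rw [mem_mc] at hD ⊢
  refine ⟨hD.1, fun e' he' => hD.2.1 e' (Finset.mem_of_mem_erase he'), ?_⟩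
  intro w hw
  obtain ⟨e', he', hwe', hu⟩ := hD.2.2 w hw
  by_cases hee : e' = e
  · subst hee
    obtain ⟨x, hx, hxf⟩ := hD.2.1 f hf
    have hxw : x = w := hu x hx (hsub x (hD.1 hx) hxf)
    subst hxw
    exact ⟨f, Finset.mem_erase.mpr ⟨hne.symm, hf⟩, hxf, fun w' hw' hw'f => hu w' hw' (hsub w' (hD.1 hw') hw'f)⟩
  · exact ⟨e', Finset.mem_erase.mpr ⟨hee, he'⟩, hwe', hu⟩

/-- convexity: the exponential of minus a sum over a set of `s` elements -/
lemma exp_neg_sum_le {N : Finset κ} {s : ℕ} (hs : N.card = s) (hpos : 0 < s) (p : κ → ℝ) :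
    Real.exp (-∑ e ∈ N, p e) ≤ (∑ e ∈ N, Real.exp (-(s * p e))) / s := by
  have hs0 : (0 : ℝ) < s := by exact_mod_cast hpos
  have h := convexOn_exp.map_sum_le (t := N) (w := fun _ => (1 : ℝ) / s) (p := fun e => -(s * p e))
    (fun _ _ => by positivity) (by rw [Finset.sum_const, hs, nsmul_eq_mul]; field_simp)
    (fun _ _ => Set.mem_univ _)
  simp only [smul_eq_mul] at h
  have e1 : ∑ e ∈ N, 1 / (s : ℝ) * (-(s * p e)) = -∑ e ∈ N, p e := by
    rw [← Finset.sum_neg_distrib]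
    apply Finset.sum_congr rfl
    intro e _
    field_simp
  have e2 : ∑ e ∈ N, 1 / (s : ℝ) * Real.exp (-(s * p e)) = (∑ e ∈ N, Real.exp (-(s * p e))) / s := by
    rw [Finset.sum_div]
    apply Finset.sum_congr rfl
    intro e _
    ring
  rw [e1, e2] at h
  exact h

lemma exp_sub' (m a : ℝ) : Real.exp (m - a) = Real.exp m * Real.exp (-a) := by
  rw [sub_eq_add_neg, Real.exp_add]

lemma exp_two {m a b : ℝ} (h : Real.exp (-a) + Real.exp (-b) ≤ 1) :
    Real.exp (m - a) + Real.exp (m - b) ≤ Real.exp m := by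
  rw [exp_sub', exp_sub', ← mul_add]
  exact mul_le_of_le_one_right (Real.exp_pos _).le h

lemma exp_three {m a b c : ℝ} (h : Real.exp (-a) + Real.exp (-b) + Real.exp (-c) ≤ 1) :
    Real.exp (m - a) + Real.exp (m - b) + Real.exp (m - c) ≤ Real.exp m := by
  rw [exp_sub', exp_sub', exp_sub', ← mul_add, ← mul_add]
  exact mul_le_of_le_one_right (Real.exp_pos _).le h

end Pool.Agent.MDS81
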