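import Mathlib

set_option autoImplicit false

/-! A small hitting set, and the number of small subsets. -/

namespace Pool.Agent.MDS81

open Finset
open scoped Classical

variable {V : Type*} [Fintype V]

/-- All the sets `{e ∈ U : R v e}` with at least `L ^ 2` elements can be hit by at most `2 n / L`
elements of `U`. -/
theorem hitting (R : V → V → Prop) (U : Finset V) (L : ℕ) (hL : 1 ≤ L) :
    ∃ T : Finset V, T ⊆ U ∧ L * T.card ≤ 2 * Fintype.card V ∧
      ∀ v : V, L ^ 2 ≤ (U.filter (fun e => R v e)).card → ∃ e ∈ T, R v e := by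
  set unhit : Finset V → Finset V := fun T =>
    Finset.univ.filter (fun v => L ^ 2 ≤ (U.filter (fun e => R v e)).card ∧ ∀ e ∈ T, ¬ R v e) with hun
  obtain ⟨T1, hT1, hmin⟩ := Finset.exists_min_image U.powerset (fun T => L * T.card + (unhit T).card)
    ⟨∅, Finset.empty_mem_powerset U⟩
  have hT1U : T1 ⊆ U := Finset.mem_powerset.mp hT1
  have h0 : L * T1.card + (unhit T1).card ≤ Fintype.card V := by
    have h1 := hmin ∅ (Finset.empty_mem_powerset U)
    have h2 : (unhit ∅).card ≤ Fintype.card V := Finset.card_le_univ _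
    simp only [Finset.card_empty, mul_zero, zero_add] at h1
    omega
  -- each element of `U` hits at most `L` unhit sets
  have h1 : ∀ u ∈ U, ((unhit T1).filter (fun v => R v u)).card ≤ L := by
    intro u hu
    have h2 := hmin (insert u T1) (Finset.mem_powerset.mpr (Finset.insert_subset hu hT1U))
    have h3 : (insert u T1).card ≤ T1.card + 1 := Finset.card_insert_le _ _
    have h4 : unhit (insert u T1) = (unhit T1).filter (fun v => ¬ R v u) := by
      ext v
      simp only [hun, Finset.mem_filter, Finset.mem_univ, true_and, Finset.mem_insert, forall_eq_or_imp]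
      tauto
    have h5 := Finset.card_filter_add_card_filter_not (s := unhit T1) (fun v => R v u)
    rw [← h4] at h5
    have h6 : L * (insert u T1).card ≤ L * (T1.card + 1) := Nat.mul_le_mul_left _ h3
    have h7 : L * (T1.card + 1) = L * T1.card + L := by ring
    omega
  -- double counting
  have h2 : L ^ 2 * (unhit T1).card ≤ L * Fintype.card V := by
    calc L ^ 2 * (unhit T1).card = ∑ _v ∈ unhit T1, L ^ 2 := by rw [Finset.sum_const, smul_eq_mul, mul_comm]
      _ ≤ ∑ v ∈ unhit T1, (U.filter (fun e => R v e)).card :=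
          Finset.sum_le_sum (fun v hv => (Finset.mem_filter.mp hv).2.1)
      _ = ∑ u ∈ U, ((unhit T1).filter (fun v => R v u)).card := by
          simp only [Finset.card_filter]
          exact Finset.sum_comm
      _ ≤ ∑ _u ∈ U, L := Finset.sum_le_sum h1
      _ = U.card * L := by rw [Finset.sum_const, smul_eq_mul]
      _ ≤ L * Fintype.card V := by
          rw [mul_comm]; exact Nat.mul_le_mul_left _ (Finset.card_le_univ _)
  have h3 : L * (unhit T1).card ≤ Fintype.card V := by
    have : L * (L * (unhit T1).card) ≤ L * Fintype.card V := by rw [← mul_assoc, ← pow_two]; exact h2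
    exact Nat.le_of_mul_le_mul_left this hL
  -- pick one element for each unhit set
  have h4 : ∀ v : V, ∃ e : V, v ∈ unhit T1 → e ∈ U ∧ R v e := by
    intro v
    by_cases hv : v ∈ unhit T1
    · have h5 := (Finset.mem_filter.mp hv).2.1
      have h6 : 0 < (U.filter (fun e => R v e)).card := lt_of_lt_of_le (by positivity) h5
      obtain ⟨e, he⟩ := Finset.card_pos.mp h6
      have he' := Finset.mem_filter.mp he
      exact ⟨e, fun _ => ⟨he'.1, he'.2⟩⟩
    · exact ⟨v, fun h => absurd h hv⟩
  choose f hf using h4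
  refine ⟨T1 ∪ (unhit T1).image f, ?_, ?_, ?_⟩
  · apply Finset.union_subset hT1U
    intro e he
    obtain ⟨v, hv, rfl⟩ := Finset.mem_image.mp he
    exact (hf v hv).1
  · have h5 : (T1 ∪ (unhit T1).image f).card ≤ T1.card + (unhit T1).card :=
      (Finset.card_union_le _ _).trans (Nat.add_le_add_left Finset.card_image_le _)
    calc L * (T1 ∪ (unhit T1).image f).card ≤ L * (T1.card + (unhit T1).card) := Nat.mul_le_mul_left _ h5
      _ = L * T1.card + L * (unhit T1).card := by ring
      _ ≤ 2 * Fintype.card V := by omega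
  · intro v hv
    by_cases h5 : ∃ e ∈ T1, R v e
    · obtain ⟨e, he, hve⟩ := h5
      exact ⟨e, Finset.mem_union_left _ he, hve⟩
    · push Not at h5
      have hvu : v ∈ unhit T1 := Finset.mem_filter.mpr ⟨Finset.mem_univ _, hv, h5⟩
      exact ⟨f v, Finset.mem_union_right _ (Finset.mem_image_of_mem f hvu), (hf v hvu).2⟩

/-- small subsets -/
noncomputable def small (V : Type*) [Fintype V] (L : ℕ) : Finset (Finset V) :=
  Finset.univ.filter (fun S => L * S.card ≤ 3 * Fintype.card V)

/-- The number of subsets with at most `3 n / L` elements. -/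
theorem card_small (L : ℕ) (hL : 1 ≤ L) (t : ℝ) (ht : 0 ≤ t) :
    ((small V L).card : ℝ) ≤ Real.exp ((Real.exp (-t) + 3 * t / L) * Fintype.card V) := by
  set n : ℝ := (Fintype.card V : ℝ) with hn
  have hLpos : (0 : ℝ) < L := by exact_mod_cast hL
  have h1 : ∑ S : Finset V, (Real.exp (-t)) ^ S.card = (1 + Real.exp (-t)) ^ Fintype.card V := by
    have := Finset.sum_pow_mul_eq_add_pow (Real.exp (-t)) 1 (Finset.univ : Finset V)
    simp only [one_pow, mul_one, Finset.powerset_univ, Finset.card_univ] at this
    rw [this, add_comm]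
  have h2 : ∀ S ∈ small V L, Real.exp (-(t * (3 * n / L))) ≤ (Real.exp (-t)) ^ S.card := by
    intro S hS
    have hS' : L * S.card ≤ 3 * Fintype.card V := (Finset.mem_filter.mp hS).2
    have hS'' : (L : ℝ) * S.card ≤ 3 * n := by rw [hn]; exact_mod_cast hS'
    rw [← Real.exp_nat_mul]
    apply Real.exp_le_exp.mpr
    have h3 : (S.card : ℝ) ≤ 3 * n / L := by rw [le_div_iff₀ hLpos]; linarith
    have h4 := mul_le_mul_of_nonneg_left h3 ht
    linarith
  have h3 : ((small V L).card : ℝ) * Real.exp (-(t * (3 * n / L))) ≤ (1 + Real.exp (-t)) ^ Fintype.card V := by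
    rw [← h1]
    calc ((small V L).card : ℝ) * Real.exp (-(t * (3 * n / L)))
        = ∑ _S ∈ small V L, Real.exp (-(t * (3 * n / L))) := by rw [Finset.sum_const, nsmul_eq_mul]
      _ ≤ ∑ S ∈ small V L, (Real.exp (-t)) ^ S.card := Finset.sum_le_sum h2
      _ ≤ ∑ S : Finset V, (Real.exp (-t)) ^ S.card :=
          Finset.sum_le_sum_of_subset_of_nonneg (Finset.subset_univ _) (fun S _ _ => by positivity)
  have h4 : (1 + Real.exp (-t)) ^ Fintype.card V ≤ Real.exp (Real.exp (-t) * n) := by
    calc (1 + Real.exp (-t)) ^ Fintype.card V ≤ (Real.exp (Real.exp (-t))) ^ Fintype.card V := by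
          apply pow_le_pow_left₀ (by positivity)
          have := Real.add_one_le_exp (Real.exp (-t)); linarith
      _ = _ := by rw [← Real.exp_nat_mul, mul_comm]
  have h5 := h3.trans h4
  have h6 : ((small V L).card : ℝ) = ((small V L).card : ℝ) * Real.exp (-(t * (3 * n / L))) * Real.exp (t * (3 * n / L)) := by
    rw [mul_assoc, ← Real.exp_add]; simp
  rw [h6]
  calc _ ≤ Real.exp (Real.exp (-t) * n) * Real.exp (t * (3 * n / L)) :=
        mul_le_mul_of_nonneg_right h5 (Real.exp_pos _).le
    _ = _ := by rw [← Real.exp_add]; congr 1; field_simp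

end Pool.Agent.MDS81
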