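import Pool.Agent.MDS81.Cover
import Pool.Agent.MDS81.Hitting

set_option autoImplicit false

/-! The fingerprint encoding of minimal dominating sets. -/

namespace Pool.Agent.MDS81

open Finset
open scoped Classical

variable {V : Type*} [Fintype V]

/-- vertices hit by `T` -/
noncomputable def zone (R : V → V → Prop) (T : Finset V) : Finset V :=
  Finset.univ.filter (fun v => ∃ e ∈ T, R v e)

/-- vertices with few related vertices outside the zone of `T` -/
noncomputable def light (R : V → V → Prop) (L : ℕ) (T : Finset V) : Finset V :=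
  Finset.univ.filter (fun e => (((zone R T)ᶜ).filter (fun w => R w e)).card ≤ L ^ 4)

/-- residual elements -/
noncomputable def resid (R : V → V → Prop) (L : ℕ) (T D1 : Finset V) : Finset V :=
  (light R L T).filter (fun e => ∀ w ∈ D1, ¬ R w e)

/-- For each minimal cover `D` of the whole vertex set there are two small sets `T`, `D1` such that
`D1 ⊆ D` and `D \ D1` is a minimal cover of the residual instance. -/
theorem fingerprint (R : V → V → Prop) (L : ℕ) (hL : 1 ≤ L)
    (D : Finset V) (hD : D ∈ mc R Finset.univ Finset.univ) :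
    ∃ T ∈ small V L, ∃ D1 ∈ small V L, D1 ⊆ D ∧
      D \ D1 ∈ mc R ((zone R T)ᶜ) (resid R L T D1) := by
  rw [mem_mc] at hD
  obtain ⟨-, hcov, hpriv⟩ := hD
  set U : Finset V := Finset.univ.filter (fun e => ∃ w ∈ D, R w e ∧ ∀ w' ∈ D, R w' e → w' = w) with hU
  obtain ⟨T, hTU, hTcard, hThit⟩ := hitting R U L hL
  -- first part of the fingerprint
  set D0 : Finset V := D ∩ zone R T with hD0
  have hD0card : D0.card ≤ T.card := by
    have h1 : ∀ v : V, ∃ e : V, v ∈ D0 → e ∈ T ∧ R v e := by
      intro v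
      by_cases hv : v ∈ D0
      · obtain ⟨e, he, hve⟩ := (Finset.mem_filter.mp (Finset.mem_inter.mp hv).2).2
        exact ⟨e, fun _ => ⟨he, hve⟩⟩
      · exact ⟨v, fun h => absurd h hv⟩
    choose f hf using h1
    apply Finset.card_le_card_of_injOn f
    · intro v hv
      exact (hf v hv).1
    · intro v hv v' hv' heq
      have h2 := hf v hv
      have h3 := hf v' hv'
      obtain ⟨w, hw, hwe, hu⟩ := (Finset.mem_filter.mp (hTU h2.1)).2
      have e1 := hu v (Finset.mem_inter.mp hv).1 h2.2
      have e2 := hu v' (Finset.mem_inter.mp hv').1 (by rw [heq]; exact h3.2)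
      rw [e1, e2]
  set A : Finset V := (zone R T)ᶜ with hA
  -- choosers outside the zone with no private element in the light part
  set Dbad : Finset V := (D ∩ A).filter (fun w => ¬ ∃ e ∈ light R L T, R w e ∧ ∀ w' ∈ D, R w' e → w' = w)
    with hDbad
  have hbad : L ^ 4 * Dbad.card ≤ L ^ 2 * Fintype.card V := by
    -- private heavy elements
    have h1 : ∀ w : V, ∃ e : V, w ∈ Dbad → R w e ∧ (∀ w' ∈ D, R w' e → w' = w) ∧ e ∉ light R L T := by
      intro w
      by_cases hw : w ∈ Dbad
      · have hw' := Finset.mem_filter.mp hw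
        obtain ⟨e, -, hwe, hu⟩ := hpriv w (Finset.mem_inter.mp hw'.1).1
        exact ⟨e, fun _ => ⟨hwe, hu, fun hl => hw'.2 ⟨e, hl, hwe, hu⟩⟩⟩
      · exact ⟨w, fun h => absurd h hw⟩
    choose f hf using h1
    set H : Finset V := U.filter (fun e => e ∉ light R L T) with hH
    have h2 : Dbad.card ≤ H.card := by
      apply Finset.card_le_card_of_injOn f
      · intro w hw
        have h3 := hf w hw
        refine Finset.mem_coe.mpr (Finset.mem_filter.mpr ⟨Finset.mem_filter.mpr ⟨Finset.mem_univ _, w,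
          (Finset.mem_inter.mp (Finset.mem_filter.mp hw).1).1, h3.1, h3.2.1⟩, h3.2.2⟩)
      · intro w hw w' hw' heq
        have h3 := hf w hw
        have h4 := hf w' hw'
        have hwD : w ∈ D := (Finset.mem_inter.mp (Finset.mem_filter.mp hw).1).1
        exact h4.2.1 w hwD (by rw [← heq]; exact h3.1)
    have h3 : ∀ e ∈ H, L ^ 4 ≤ (A.filter (fun w => R w e)).card := by
      intro e he
      have h4 := (Finset.mem_filter.mp he).2
      by_contra h5
      push Not at h5
      exact h4 (Finset.mem_filter.mpr ⟨Finset.mem_univ _, le_of_lt h5⟩)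
    have h4 : ∀ w ∈ A, (U.filter (fun e => R w e)).card ≤ L ^ 2 := by
      intro w hw
      by_contra h5
      push Not at h5
      obtain ⟨e, he, hwe⟩ := hThit w (le_of_lt h5)
      have : w ∈ zone R T := Finset.mem_filter.mpr ⟨Finset.mem_univ _, e, he, hwe⟩
      exact (Finset.mem_compl.mp hw) this
    calc L ^ 4 * Dbad.card ≤ L ^ 4 * H.card := Nat.mul_le_mul_left _ h2
      _ = ∑ _e ∈ H, L ^ 4 := by rw [Finset.sum_const, smul_eq_mul, mul_comm]
      _ ≤ ∑ e ∈ H, (A.filter (fun w => R w e)).card := Finset.sum_le_sum h3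
      _ = ∑ w ∈ A, (H.filter (fun e => R w e)).card := by
          simp only [Finset.card_filter]
          exact Finset.sum_comm
      _ ≤ ∑ w ∈ A, (U.filter (fun e => R w e)).card :=
          Finset.sum_le_sum (fun w _ => Finset.card_le_card
            (Finset.filter_subset_filter _ (Finset.filter_subset _ _)))
      _ ≤ ∑ _w ∈ A, L ^ 2 := Finset.sum_le_sum h4
      _ = A.card * L ^ 2 := by rw [Finset.sum_const, smul_eq_mul]
      _ ≤ L ^ 2 * Fintype.card V := by
          rw [mul_comm]; exact Nat.mul_le_mul_left _ (Finset.card_le_univ _)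
  have hbad' : L * Dbad.card ≤ Fintype.card V := by
    have h1 : L ^ 2 * (L ^ 2 * Dbad.card) ≤ L ^ 2 * Fintype.card V := by
      calc L ^ 2 * (L ^ 2 * Dbad.card) = L ^ 4 * Dbad.card := by ring
        _ ≤ _ := hbad
    have h2 : L ^ 2 * Dbad.card ≤ Fintype.card V := Nat.le_of_mul_le_mul_left h1 (by positivity)
    have h3 : L * Dbad.card ≤ L ^ 2 * Dbad.card := Nat.mul_le_mul_right _ (by nlinarith)
    exact h3.trans h2
  refine ⟨T, ?_, D0 ∪ Dbad, ?_, ?_, ?_⟩
  · refine Finset.mem_filter.mpr ⟨Finset.mem_univ _, ?_⟩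
    omega
  · refine Finset.mem_filter.mpr ⟨Finset.mem_univ _, ?_⟩
    have h1 : (D0 ∪ Dbad).card ≤ T.card + Dbad.card :=
      (Finset.card_union_le _ _).trans (Nat.add_le_add_right hD0card _)
    calc L * (D0 ∪ Dbad).card ≤ L * (T.card + Dbad.card) := Nat.mul_le_mul_left _ h1
      _ = L * T.card + L * Dbad.card := by ring
      _ ≤ 3 * Fintype.card V := by omega
  · apply Finset.union_subset Finset.inter_subset_left
    exact (Finset.filter_subset _ _).trans Finset.inter_subset_left
  · rw [mem_mc]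
    have hmem : ∀ w, w ∈ D \ (D0 ∪ Dbad) → w ∈ D ∧ w ∈ A ∧
        ∃ e ∈ light R L T, R w e ∧ ∀ w' ∈ D, R w' e → w' = w := by
      intro w hw
      rw [Finset.mem_sdiff, Finset.mem_union, not_or] at hw
      obtain ⟨hwD, hw0, hwb⟩ := hw
      have hwA : w ∈ A := by
        rw [hA, Finset.mem_compl]
        intro hz
        exact hw0 (Finset.mem_inter.mpr ⟨hwD, hz⟩)
      refine ⟨hwD, hwA, ?_⟩
      by_contra hne
      exact hwb (Finset.mem_filter.mpr ⟨Finset.mem_inter.mpr ⟨hwD, hwA⟩, hne⟩)
    refine ⟨fun w hw => (hmem w hw).2.1, ?_, ?_⟩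
    · intro e he
      have he' := Finset.mem_filter.mp he
      obtain ⟨w, hw, hwe⟩ := hcov e (Finset.mem_univ _)
      refine ⟨w, Finset.mem_sdiff.mpr ⟨hw, fun h1 => he'.2 w h1 hwe⟩, hwe⟩
    · intro w hw
      obtain ⟨hwD, hwA, e, he, hwe, hu⟩ := hmem w hw
      refine ⟨e, Finset.mem_filter.mpr ⟨he, ?_⟩, hwe, ?_⟩
      · intro w' hw' hw'e
        have hw'D : w' ∈ D := by
          rcases Finset.mem_union.mp hw' with h1 | h1
          · exact (Finset.mem_inter.mp h1).1
          · exact (Finset.mem_inter.mp (Finset.mem_filter.mp h1).1).1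
        have : w' = w := hu w' hw'D hw'e
        subst this
        exact (Finset.mem_sdiff.mp hw).2 hw'
      · intro w' hw' hw'e
        exact hu w' (Finset.mem_sdiff.mp hw').1 hw'e

/-- Counting through the fingerprints. -/
theorem count_bound (R : V → V → Prop) (L : ℕ) (hL : 1 ≤ L)
    (M : ℝ)
    (hM : ∀ T D1 : Finset V, ((mc R ((zone R T)ᶜ) (resid R L T D1)).card : ℝ) ≤ M) :
    ((mc R (Finset.univ : Finset V) Finset.univ).card : ℝ) ≤ ((small V L).card : ℝ) ^ 2 * M := by
  have hsub : mc R (Finset.univ : Finset V) Finset.univ ⊆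
      (small V L ×ˢ small V L).biUnion
        (fun p => (mc R ((zone R p.1)ᶜ) (resid R L p.1 p.2)).image (fun E => p.2 ∪ E)) := by
    intro D hD
    obtain ⟨T, hT, D1, hD1, hsub, hmem⟩ := fingerprint R L hL D hD
    rw [Finset.mem_biUnion]
    refine ⟨(T, D1), Finset.mem_product.mpr ⟨hT, hD1⟩, ?_⟩
    rw [Finset.mem_image]
    exact ⟨D \ D1, hmem, Finset.union_sdiff_of_subset hsub⟩
  have h1 : ((mc R (Finset.univ : Finset V) Finset.univ).card : ℝ) ≤
      ∑ p ∈ small V L ×ˢ small V L, M := by
    calc ((mc R (Finset.univ : Finset V) Finset.univ).card : ℝ)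
        ≤ (((small V L ×ˢ small V L).biUnion
          (fun p => (mc R ((zone R p.1)ᶜ) (resid R L p.1 p.2)).image (fun E => p.2 ∪ E))).card : ℝ) := by
          exact_mod_cast Finset.card_le_card hsub
      _ ≤ ((∑ p ∈ small V L ×ˢ small V L,
          ((mc R ((zone R p.1)ᶜ) (resid R L p.1 p.2)).image (fun E => p.2 ∪ E)).card : ℕ) : ℝ) := by
          exact_mod_cast Finset.card_biUnion_le
      _ = ∑ p ∈ small V L ×ˢ small V L,
          (((mc R ((zone R p.1)ᶜ) (resid R L p.1 p.2)).image (fun E => p.2 ∪ E)).card : ℝ) := by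
          push_cast; rfl
      _ ≤ ∑ p ∈ small V L ×ˢ small V L, M := by
          apply Finset.sum_le_sum
          intro p _
          exact le_trans (by exact_mod_cast Finset.card_image_le) (hM p.1 p.2)
  refine h1.trans (le_of_eq ?_)
  rw [Finset.sum_const, Finset.card_product, nsmul_eq_mul]
  push_cast
  ring

end Pool.Agent.MDS81
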