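import Pool.Agent.MDS81.Graph2

set_option autoImplicit false

/-! The step at an element of frequency three, all choosers having size two. -/

namespace Pool.Agent.MDS81

open Finset
open scoped Classical

variable {ι κ : Type*}

lemma exp_six {m a b c d e f : ℝ} (h : Real.exp (-a) + Real.exp (-b) + Real.exp (-c) + Real.exp (-d)
    + Real.exp (-e) + Real.exp (-f) ≤ 1) :
    Real.exp (m - a) + Real.exp (m - b) + Real.exp (m - c) + Real.exp (m - d) + Real.exp (m - e)
      + Real.exp (m - f) ≤ Real.exp m := by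
  have : Real.exp (m - a) + Real.exp (m - b) + Real.exp (m - c) + Real.exp (m - d) + Real.exp (m - e)
      + Real.exp (m - f) = Real.exp m * (Real.exp (-a) + Real.exp (-b) + Real.exp (-c) + Real.exp (-d)
    + Real.exp (-e) + Real.exp (-f)) := by
    simp only [exp_sub']; ring
  rw [this]
  exact mul_le_of_le_one_right (Real.exp_pos _).le h

lemma exp_five {m a b c d e : ℝ} (h : Real.exp (-a) + Real.exp (-b) + Real.exp (-c) + Real.exp (-d)
    + Real.exp (-e) ≤ 1) :
    Real.exp (m - a) + Real.exp (m - b) + Real.exp (m - c) + Real.exp (m - d) + Real.exp (m - e)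
      ≤ Real.exp m := by
  have : Real.exp (m - a) + Real.exp (m - b) + Real.exp (m - c) + Real.exp (m - d) + Real.exp (m - e)
      = Real.exp m * (Real.exp (-a) + Real.exp (-b) + Real.exp (-c) + Real.exp (-d)
    + Real.exp (-e)) := by
    simp only [exp_sub']; ring
  rw [this]
  exact mul_le_of_le_one_right (Real.exp_pos _).le h

lemma card_six {τ : Type*} [DecidableEq τ] {S a b c d e f : Finset τ} (hS : S ⊆ a ∪ (b ∪ (c ∪ (d ∪ (e ∪ f))))) :
    (S.card : ℝ) ≤ a.card + b.card + c.card + d.card + e.card + f.card := by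
  have h0 := Finset.card_le_card hS
  have h1 := Finset.card_union_le a (b ∪ (c ∪ (d ∪ (e ∪ f))))
  have h2 := Finset.card_union_le b (c ∪ (d ∪ (e ∪ f)))
  have h3 := Finset.card_union_le c (d ∪ (e ∪ f))
  have h4 := Finset.card_union_le d (e ∪ f)
  have h5 := Finset.card_union_le e f
  have : S.card ≤ a.card + b.card + c.card + d.card + e.card + f.card := by omega
  exact_mod_cast this

lemma card_five {τ : Type*} [DecidableEq τ] {S a b c d e : Finset τ} (hS : S ⊆ a ∪ (b ∪ (c ∪ (d ∪ e)))) :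
    (S.card : ℝ) ≤ a.card + b.card + c.card + d.card + e.card := by
  have h0 := Finset.card_le_card hS
  have h1 := Finset.card_union_le a (b ∪ (c ∪ (d ∪ e)))
  have h2 := Finset.card_union_le b (c ∪ (d ∪ e))
  have h3 := Finset.card_union_le c (d ∪ e)
  have h4 := Finset.card_union_le d e
  have : S.card ≤ a.card + b.card + c.card + d.card + e.card := by omega
  exact_mod_cast this

/-- numerical condition, three distinct neighbours -/
def G3a (α β : ℕ → ℝ) : Prop := ∀ f1 f2 f3 n12 n13 n23 : ℕ, 3 ≤ f1 → 3 ≤ f2 → 3 ≤ f3 →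
  max f1 f2 + 1 ≤ n12 → max f1 f3 + 1 ≤ n13 → max f2 f3 + 1 ≤ n23 →
  f1 + f2 + f3 + 1 ≤ n12 + n13 → f1 + f2 + f3 + 1 ≤ n12 + n23 → f1 + f2 + f3 + 1 ≤ n13 + n23 →
  Real.exp (-(3 * α 2 + ((f1 : ℝ) - 1) * (α 2 - α 1) + β 3 + β f1 + ((β f2 - β (f2 - 1)) + (β f3 - β (f3 - 1)))))
  + Real.exp (-(3 * α 2 + ((f2 : ℝ) - 1) * (α 2 - α 1) + β 3 + β f2 + ((β f1 - β (f1 - 1)) + (β f3 - β (f3 - 1)))))
  + Real.exp (-(3 * α 2 + ((f3 : ℝ) - 1) * (α 2 - α 1) + β 3 + β f3 + ((β f1 - β (f1 - 1)) + (β f2 - β (f2 - 1)))))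
  + Real.exp (-((n12 : ℝ) * α 2 + (α 2 - α 1) + β 3 + β f1 + β f2))
  + Real.exp (-(((n13 : ℝ) + 1) * α 2 + β 3 + β f1 + β f3 + (β f2 - β (f2 - 1))))
  + Real.exp (-(((n23 : ℝ) + 1) * α 2 + β 3 + β f2 + β f3 + (β f1 - β (f1 - 1)))) ≤ 1

/-- weight lost when two choosers are discarded -/
noncomputable def lose2 (α β : ℕ → ℝ) (f : ℕ) : ℝ := if f = 3 then β 3 + α 1 else β f - β (f - 2)

/-- numerical condition, a double and a single neighbour -/
def G3b (α β : ℕ → ℝ) : Prop := ∀ f g : ℕ, 3 ≤ f → 3 ≤ g →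
  Real.exp (-(3 * α 2 + ((f : ℝ) - 2) * (α 2 - α 1) + β 3 + β f + (β g - β (g - 1))))
  + Real.exp (-(3 * α 2 + ((f : ℝ) - 2) * (α 2 - α 1) + β 3 + β f + (β g - β (g - 1))))
  + Real.exp (-(3 * α 2 + ((g : ℝ) - 1) * (α 2 - α 1) + β 3 + β g + lose2 α β f))
  + Real.exp (-(((max (f + 1) (g + 2) : ℕ) : ℝ) * α 2 + β 3 + β f + β g))
  + Real.exp (-(((max (f + 1) (g + 2) : ℕ) : ℝ) * α 2 + β 3 + β f + β g)) ≤ 1

/-- three distinct neighbours -/
theorem graph3a_step {R : ι → κ → Prop} {α β : ℕ → ℝ} (h : Shape α β) {A : Finset ι} {B : Finset κ}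
    (hsz : ∀ w ∈ A, sz R w B = 2) (hfr : ∀ y ∈ B, 3 ≤ fr R A y) {e x1 x2 x3 : κ} {w1 w2 w3 : ι}
    (he : e ∈ B) (hcho : cho R A e = {w1, w2, w3}) (n12 : w1 ≠ w2) (n13 : w1 ≠ w3) (n23 : w2 ≠ w3)
    (hx1 : x1 ∈ B) (hx2 : x2 ∈ B) (hx3 : x3 ∈ B) (h1e : x1 ≠ e) (h2e : x2 ≠ e) (h3e : x3 ≠ e)
    (h12 : x1 ≠ x2) (h13 : x1 ≠ x3) (h23 : x2 ≠ x3)
    (hw1x : R w1 x1) (hw2x : R w2 x2) (hw3x : R w3 x3)
    (he1 : ∀ y ∈ B, R w1 y → y = e ∨ y = x1) (he2 : ∀ y ∈ B, R w2 y → y = e ∨ y = x2)
    (he3 : ∀ y ∈ B, R w3 y → y = e ∨ y = x3)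
    (hg : G3a α β)
    (IH : ∀ (A' : Finset ι) (B' : Finset κ), A'.card + B'.card < A.card + B.card →
      ((mc R A' B').card : ℝ) ≤ Real.exp (mu2 R α β A' B')) :
    ((mc R A B).card : ℝ) ≤ Real.exp (mu2 R α β A B) := by
  have hw1c : w1 ∈ cho R A e := by rw [hcho]; simp
  have hw2c : w2 ∈ cho R A e := by rw [hcho]; simp
  have hw3c : w3 ∈ cho R A e := by rw [hcho]; simp
  have hw1 := (mem_cho.mp hw1c).1
  have hw2 := (mem_cho.mp hw2c).1
  have hw3 := (mem_cho.mp hw3c).1
  have hw1e := (mem_cho.mp hw1c).2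
  have hw2e := (mem_cho.mp hw2c).2
  have hw3e := (mem_cho.mp hw3c).2
  have hinc : 0 ≤ α 2 - α 1 := sub_nonneg.mpr (h.amono 1)
  have hfe : fr R A e = 3 := by
    rw [← card_cho, hcho]
    exact Finset.card_eq_three.mpr ⟨w1, w2, w3, n12, n13, n23, rfl⟩
  -- no other incidences
  have k12 : ¬ R w1 x2 := fun hh => by
    rcases he1 x2 hx2 hh with h4 | h4
    · exact h2e h4
    · exact h12 h4.symm
  have k13 : ¬ R w1 x3 := fun hh => by
    rcases he1 x3 hx3 hh with h4 | h4
    · exact h3e h4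
    · exact h13 h4.symm
  have k21 : ¬ R w2 x1 := fun hh => by
    rcases he2 x1 hx1 hh with h4 | h4
    · exact h1e h4
    · exact h12 h4
  have k23 : ¬ R w2 x3 := fun hh => by
    rcases he2 x3 hx3 hh with h4 | h4
    · exact h3e h4
    · exact h23 h4.symm
  have k31 : ¬ R w3 x1 := fun hh => by
    rcases he3 x1 hx1 hh with h4 | h4
    · exact h1e h4
    · exact h13 h4
  have k32 : ¬ R w3 x2 := fun hh => by
    rcases he3 x2 hx2 hh with h4 | h4
    · exact h2e h4
    · exact h23 h4
  have c1 : cho R A e ∩ cho R A x1 = {w1} := by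
    ext z; rw [Finset.mem_inter, hcho, mem_cho]; simp only [Finset.mem_insert, Finset.mem_singleton]
    constructor
    · rintro ⟨rfl | rfl | rfl, _, hz⟩
      · rfl
      · exact absurd hz k21
      · exact absurd hz k31
    · rintro rfl; exact ⟨Or.inl rfl, hw1, hw1x⟩
  have c2 : cho R A e ∩ cho R A x2 = {w2} := by
    ext z; rw [Finset.mem_inter, hcho, mem_cho]; simp only [Finset.mem_insert, Finset.mem_singleton]
    constructor
    · rintro ⟨rfl | rfl | rfl, _, hz⟩
      · exact absurd hz k12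
      · rfl
      · exact absurd hz k32
    · rintro rfl; exact ⟨Or.inr (Or.inl rfl), hw2, hw2x⟩
  have c3 : cho R A e ∩ cho R A x3 = {w3} := by
    ext z; rw [Finset.mem_inter, hcho, mem_cho]; simp only [Finset.mem_insert, Finset.mem_singleton]
    constructor
    · rintro ⟨rfl | rfl | rfl, _, hz⟩
      · exact absurd hz k13
      · exact absurd hz k23
      · rfl
    · rintro rfl; exact ⟨Or.inr (Or.inr rfl), hw3, hw3x⟩
  have dcard : ∀ (x : κ) (w : ι), w ∈ cho R A x → cho R A e ∩ cho R A x = {w} →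
      ((cho R A x \ cho R A e).card : ℝ) = (fr R A x : ℝ) - 1 := by
    intro x w hw hc
    have h4 := Finset.card_sdiff_add_card_inter (cho R A x) (cho R A e)
    rw [Finset.inter_comm, hc, Finset.card_singleton, card_cho] at h4
    have h5 : ((cho R A x \ cho R A e).card : ℝ) + 1 = fr R A x := by exact_mod_cast h4
    linarith
  have m1 : w1 ∈ cho R A x1 := mem_cho.mpr ⟨hw1, hw1x⟩
  have m2 : w2 ∈ cho R A x2 := mem_cho.mpr ⟨hw2, hw2x⟩
  have m3 : w3 ∈ cho R A x3 := mem_cho.mpr ⟨hw3, hw3x⟩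
  set f1 := fr R A x1 with hf1
  set f2 := fr R A x2 with hf2
  set f3 := fr R A x3 with hf3
  -- singles
  have s1 : (((mc R A B).filter (fun D => D ∩ cho R A e = {w1})).card : ℝ) ≤
      Real.exp (mu2 R α β A B - (3 * α 2 + ((f1 : ℝ) - 1) * (α 2 - α 1) + β 3 + β f1
        + ((β f2 - β (f2 - 1)) + (β f3 - β (f3 - 1))))) := by
    have hb := single_bound (R := R) h hsz IH hw1 he hx1 h1e hw1e hw1x {x2, x3}
      (by intro z hz; simp only [Finset.mem_insert, Finset.mem_singleton] at hz; rcases hz with rfl | rfl <;> assumption)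
      (by simp only [Finset.mem_insert, Finset.mem_singleton, not_or]; exact ⟨h2e.symm, h3e.symm⟩)
      (by simp only [Finset.mem_insert, Finset.mem_singleton, not_or]; exact ⟨h12, h13⟩)
    rw [Finset.sum_pair h23, dcard x1 w1 m1 c1, hfe, c2, c3, Finset.card_singleton, Finset.card_singleton] at hb
    push_cast at hb
    exact hb
  have s2 : (((mc R A B).filter (fun D => D ∩ cho R A e = {w2})).card : ℝ) ≤
      Real.exp (mu2 R α β A B - (3 * α 2 + ((f2 : ℝ) - 1) * (α 2 - α 1) + β 3 + β f2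
        + ((β f1 - β (f1 - 1)) + (β f3 - β (f3 - 1))))) := by
    have hb := single_bound (R := R) h hsz IH hw2 he hx2 h2e hw2e hw2x {x1, x3}
      (by intro z hz; simp only [Finset.mem_insert, Finset.mem_singleton] at hz; rcases hz with rfl | rfl <;> assumption)
      (by simp only [Finset.mem_insert, Finset.mem_singleton, not_or]; exact ⟨h1e.symm, h3e.symm⟩)
      (by simp only [Finset.mem_insert, Finset.mem_singleton, not_or]; exact ⟨h12.symm, h23⟩)
    rw [Finset.sum_pair h13, dcard x2 w2 m2 c2, hfe, c1, c3, Finset.card_singleton, Finset.card_singleton] at hb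
    push_cast at hb
    exact hb
  have s3 : (((mc R A B).filter (fun D => D ∩ cho R A e = {w3})).card : ℝ) ≤
      Real.exp (mu2 R α β A B - (3 * α 2 + ((f3 : ℝ) - 1) * (α 2 - α 1) + β 3 + β f3
        + ((β f1 - β (f1 - 1)) + (β f2 - β (f2 - 1))))) := by
    have hb := single_bound (R := R) h hsz IH hw3 he hx3 h3e hw3e hw3x {x1, x2}
      (by intro z hz; simp only [Finset.mem_insert, Finset.mem_singleton] at hz; rcases hz with rfl | rfl <;> assumption)
      (by simp only [Finset.mem_insert, Finset.mem_singleton, not_or]; exact ⟨h1e.symm, h2e.symm⟩)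
      (by simp only [Finset.mem_insert, Finset.mem_singleton, not_or]; exact ⟨h13.symm, h23.symm⟩)
    rw [Finset.sum_pair h12, dcard x3 w3 m3 c3, hfe, c1, c2, Finset.card_singleton, Finset.card_singleton] at hb
    push_cast at hb
    exact hb
  -- pairs
  set N12 := (cho R A x1 ∪ cho R A x2).card with hN12
  set N13 := (cho R A x1 ∪ cho R A x3).card with hN13
  set N23 := (cho R A x2 ∪ cho R A x3).card with hN23
  have p12 : (((mc R A B).filter (fun D => w1 ∈ D ∧ w2 ∈ D ∧ D ∩ (∅ : Finset ι) = ∅)).card : ℝ) ≤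
      Real.exp (mu2 R α β A B - ((N12 : ℝ) * α 2 + (α 2 - α 1) + β 3 + β f1 + β f2)) := by
    have hb := pair_bound (R := R) h hsz IH hw1 hw2 n12 he hx1 hx2 h1e h2e h12 hw1e hw2e he1 he2 hw1x hw2x
      ∅ (by simp) (by simp) ∅ (by simp) (by simp) (by simp) (by simp)
    refine hb.trans (Real.exp_le_exp.mpr ?_)
    have h4 : (1 : ℝ) ≤ ((cho R A e \ ((cho R A x1 ∪ cho R A x2) ∪ ∅)).card : ℝ) := by
      have : 0 < (cho R A e \ ((cho R A x1 ∪ cho R A x2) ∪ ∅)).card := by
        apply Finset.card_pos.mpr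
        refine ⟨w3, Finset.mem_sdiff.mpr ⟨hw3c, ?_⟩⟩
        simp only [Finset.union_empty, Finset.mem_union, mem_cho, not_or]
        exact ⟨fun hh => k31 hh.2, fun hh => k32 hh.2⟩
      exact_mod_cast this
    have h5 := mul_le_mul_of_nonneg_right h4 hinc
    rw [hfe, Finset.sum_empty, Finset.card_empty, ← hN12]
    push_cast
    linarith
  have p13 : (((mc R A B).filter (fun D => w1 ∈ D ∧ w3 ∈ D ∧ D ∩ ({w2} : Finset ι) = ∅)).card : ℝ) ≤
      Real.exp (mu2 R α β A B - (((N13 : ℝ) + 1) * α 2 + β 3 + β f1 + β f3 + (β f2 - β (f2 - 1)))) := by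
    have hb := pair_bound (R := R) h hsz IH hw1 hw3 n13 he hx1 hx3 h1e h3e h13 hw1e hw3e he1 he3 hw1x hw3x
      {w2} (by simpa using hw2) (by
        rw [Finset.disjoint_singleton_right]
        simp only [Finset.mem_union, mem_cho, not_or]
        exact ⟨fun hh => k21 hh.2, fun hh => k23 hh.2⟩)
      {x2} (by simpa using hx2) (by simpa using h2e.symm) (by simpa using h12) (by simpa using h23.symm)
    refine hb.trans (Real.exp_le_exp.mpr ?_)
    have h4 : 0 ≤ ((cho R A e \ ((cho R A x1 ∪ cho R A x3) ∪ {w2})).card : ℝ) * (α 2 - α 1) :=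
      mul_nonneg (Nat.cast_nonneg _) hinc
    have h5 : ({w2} : Finset ι) ∩ cho R A x2 = {w2} := by
      rw [Finset.singleton_inter_of_mem m2]
    rw [hfe, Finset.sum_singleton, h5, Finset.card_singleton, ← hN13]
    push_cast
    linarith
  have p23 : (((mc R A B).filter (fun D => w2 ∈ D ∧ w3 ∈ D ∧ D ∩ ({w1} : Finset ι) = ∅)).card : ℝ) ≤
      Real.exp (mu2 R α β A B - (((N23 : ℝ) + 1) * α 2 + β 3 + β f2 + β f3 + (β f1 - β (f1 - 1)))) := by
    have hb := pair_bound (R := R) h hsz IH hw2 hw3 n23 he hx2 hx3 h2e h3e h23 hw2e hw3e he2 he3 hw2x hw3x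
      {w1} (by simpa using hw1) (by
        rw [Finset.disjoint_singleton_right]
        simp only [Finset.mem_union, mem_cho, not_or]
        exact ⟨fun hh => k12 hh.2, fun hh => k13 hh.2⟩)
      {x1} (by simpa using hx1) (by simpa using h1e.symm) (by simpa using h12.symm) (by simpa using h13.symm)
    refine hb.trans (Real.exp_le_exp.mpr ?_)
    have h4 : 0 ≤ ((cho R A e \ ((cho R A x2 ∪ cho R A x3) ∪ {w1})).card : ℝ) * (α 2 - α 1) :=
      mul_nonneg (Nat.cast_nonneg _) hinc
    have h5 : ({w1} : Finset ι) ∩ cho R A x1 = {w1} := by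
      rw [Finset.singleton_inter_of_mem m1]
    rw [hfe, Finset.sum_singleton, h5, Finset.card_singleton, ← hN23]
    push_cast
    linarith
  -- cardinalities of the unions
  have maxb : ∀ (x y : κ) (u v : ι), u ∈ cho R A x → v ∈ cho R A y → v ∉ cho R A x → u ∉ cho R A y →
      max (fr R A x) (fr R A y) + 1 ≤ (cho R A x ∪ cho R A y).card := by
    intro x y u v hu hv hv' hu'
    have h3 : fr R A x + 1 ≤ (cho R A x ∪ cho R A y).card := by
      have h4 : insert v (cho R A x) ⊆ cho R A x ∪ cho R A y := by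
        intro z hz
        rcases Finset.mem_insert.mp hz with rfl | hz
        · exact Finset.mem_union_right _ hv
        · exact Finset.mem_union_left _ hz
      have h5 := Finset.card_le_card h4
      rw [Finset.card_insert_of_notMem hv', card_cho] at h5
      exact h5
    have h3' : fr R A y + 1 ≤ (cho R A x ∪ cho R A y).card := by
      have h4 : insert u (cho R A y) ⊆ cho R A x ∪ cho R A y := by
        intro z hz
        rcases Finset.mem_insert.mp hz with rfl | hz
        · exact Finset.mem_union_left _ hu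
        · exact Finset.mem_union_right _ hz
      have h5 := Finset.card_le_card h4
      rw [Finset.card_insert_of_notMem hu', card_cho] at h5
      exact h5
    omega
  have hm12 := maxb x1 x2 w1 w2 m1 m2 (fun hh => k21 (mem_cho.mp hh).2) (fun hh => k12 (mem_cho.mp hh).2)
  have hm13 := maxb x1 x3 w1 w3 m1 m3 (fun hh => k31 (mem_cho.mp hh).2) (fun hh => k13 (mem_cho.mp hh).2)
  have hm23 := maxb x2 x3 w2 w3 m2 m3 (fun hh => k32 (mem_cho.mp hh).2) (fun hh => k23 (mem_cho.mp hh).2)
  -- intersections at a common element are disjoint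
  have inter : ∀ (x y z : κ) (u : ι), x ∈ B → y ∈ B → z ∈ B → x ≠ y → x ≠ z → y ≠ z → u ∈ cho R A x →
      u ∉ cho R A y → u ∉ cho R A z →
      (cho R A x ∩ cho R A y).card + (cho R A x ∩ cho R A z).card + 1 ≤ fr R A x := by
    intro x y z u hx hy hz hxy hxz hyz hu huy huz
    have hdisj : Disjoint (cho R A x ∩ cho R A y) (cho R A x ∩ cho R A z) := by
      rw [Finset.disjoint_left]
      intro t ht ht'
      have t1 := mem_cho.mp (Finset.mem_inter.mp ht).1
      have t2 := mem_cho.mp (Finset.mem_inter.mp ht).2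
      have t3 := mem_cho.mp (Finset.mem_inter.mp ht').2
      have hsub : ({x, y, z} : Finset κ) ⊆ B.filter (fun y => R t y) := by
        intro v hv
        simp only [Finset.mem_insert, Finset.mem_singleton] at hv
        rcases hv with rfl | rfl | rfl
        · exact Finset.mem_filter.mpr ⟨hx, t1.2⟩
        · exact Finset.mem_filter.mpr ⟨hy, t2.2⟩
        · exact Finset.mem_filter.mpr ⟨hz, t3.2⟩
      have h3 : ({x, y, z} : Finset κ).card = 3 := by
        rw [Finset.card_eq_three]
        exact ⟨x, y, z, hxy, hxz, hyz, rfl⟩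
      have h4 := Finset.card_le_card hsub
      have h5 := hsz t t1.1
      unfold sz at h5
      omega
    have hsub : insert u ((cho R A x ∩ cho R A y) ∪ (cho R A x ∩ cho R A z)) ⊆ cho R A x := by
      intro v hv
      rcases Finset.mem_insert.mp hv with rfl | hv
      · exact hu
      · rcases Finset.mem_union.mp hv with hv | hv
        · exact (Finset.mem_inter.mp hv).1
        · exact (Finset.mem_inter.mp hv).1
    have h3 := Finset.card_le_card hsub
    rw [Finset.card_insert_of_notMem (by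
      rw [Finset.mem_union, not_or]
      exact ⟨fun hh => huy (Finset.mem_inter.mp hh).2, fun hh => huz (Finset.mem_inter.mp hh).2⟩),
      Finset.card_union_of_disjoint hdisj, card_cho] at h3
    exact h3
  have hi1 := inter x1 x2 x3 w1 hx1 hx2 hx3 h12 h13 h23 m1 (fun hh => k12 (mem_cho.mp hh).2) (fun hh => k13 (mem_cho.mp hh).2)
  have hi2 := inter x2 x1 x3 w2 hx2 hx1 hx3 h12.symm h23 h13 m2 (fun hh => k21 (mem_cho.mp hh).2) (fun hh => k23 (mem_cho.mp hh).2)
  have hi3 := inter x3 x1 x2 w3 hx3 hx1 hx2 h13.symm h23.symm h12 m3 (fun hh => k31 (mem_cho.mp hh).2) (fun hh => k32 (mem_cho.mp hh).2)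
  have hu12 := Finset.card_union_add_card_inter (cho R A x1) (cho R A x2)
  have hu13 := Finset.card_union_add_card_inter (cho R A x1) (cho R A x3)
  have hu23 := Finset.card_union_add_card_inter (cho R A x2) (cho R A x3)
  have hc21 : (cho R A x2 ∩ cho R A x1).card = (cho R A x1 ∩ cho R A x2).card := by rw [Finset.inter_comm]
  have hc31 : (cho R A x3 ∩ cho R A x1).card = (cho R A x1 ∩ cho R A x3).card := by rw [Finset.inter_comm]
  have hc32 : (cho R A x3 ∩ cho R A x2).card = (cho R A x2 ∩ cho R A x3).card := by rw [Finset.inter_comm]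
  rw [hc21] at hi2
  rw [hc31, hc32] at hi3
  simp only [card_cho] at hu12 hu13 hu23
  have hfinal := hg f1 f2 f3 N12 N13 N23 (hfr x1 hx1) (hfr x2 hx2) (hfr x3 hx3) hm12 hm13 hm23
    (by omega) (by omega) (by omega)
  -- covering
  have hcover : mc R A B ⊆ (mc R A B).filter (fun D => D ∩ cho R A e = {w1}) ∪
      ((mc R A B).filter (fun D => D ∩ cho R A e = {w2}) ∪
      ((mc R A B).filter (fun D => D ∩ cho R A e = {w3}) ∪
      ((mc R A B).filter (fun D => w1 ∈ D ∧ w2 ∈ D ∧ D ∩ (∅ : Finset ι) = ∅) ∪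
      ((mc R A B).filter (fun D => w1 ∈ D ∧ w3 ∈ D ∧ D ∩ ({w2} : Finset ι) = ∅) ∪
      (mc R A B).filter (fun D => w2 ∈ D ∧ w3 ∈ D ∧ D ∩ ({w1} : Finset ι) = ∅))))) := by
    intro D hD
    have hDm := mem_mc.mp hD
    obtain ⟨z, hz, hze⟩ := hDm.2.1 e he
    have hzc : z ∈ cho R A e := mem_cho.mpr ⟨hDm.1 hz, hze⟩
    rw [hcho] at hzc ⊢
    simp only [Finset.mem_insert, Finset.mem_singleton] at hzc
    simp only [Finset.mem_union, Finset.mem_filter]
    have single : ∀ u v t : ι, u ∈ D → v ∉ D → t ∉ D → (∀ y, y ∈ ({w1, w2, w3} : Finset ι) ↔ y = u ∨ y = v ∨ y = t) →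
        D ∩ {w1, w2, w3} = {u} := by
      intro u v t hu hv ht hall
      ext y
      rw [Finset.mem_inter, hall, Finset.mem_singleton]
      constructor
      · rintro ⟨hy, rfl | rfl | rfl⟩
        · rfl
        · exact absurd hy hv
        · exact absurd hy ht
      · rintro rfl; exact ⟨hu, Or.inl rfl⟩
    by_cases h1 : w1 ∈ D
    · by_cases h2 : w2 ∈ D
      · right; right; right; left; exact ⟨hD, h1, h2, Finset.inter_empty _⟩
      · by_cases h3 : w3 ∈ D
        · right; right; right; right; left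
          exact ⟨hD, h1, h3, Finset.inter_singleton_of_notMem h2⟩
        · left
          exact ⟨hD, single w1 w2 w3 h1 h2 h3 (fun y => by simp only [Finset.mem_insert, Finset.mem_singleton])⟩
    · by_cases h2 : w2 ∈ D
      · by_cases h3 : w3 ∈ D
        · right; right; right; right; right
          exact ⟨hD, h2, h3, Finset.inter_singleton_of_notMem h1⟩
        · right; left
          exact ⟨hD, single w2 w1 w3 h2 h1 h3 (fun y => by simp only [Finset.mem_insert, Finset.mem_singleton]; exact or_left_comm)⟩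
      · have h3 : w3 ∈ D := by
          rcases hzc with rfl | rfl | rfl
          · exact absurd hz h1
          · exact absurd hz h2
          · exact hz
        right; right; left
        exact ⟨hD, single w3 w1 w2 h3 h1 h2 (fun y => by
          simp only [Finset.mem_insert, Finset.mem_singleton]
          constructor
          · intro h
            rcases h with h | h | h
            exacts [Or.inr (Or.inl h), Or.inr (Or.inr h), Or.inl h]
          · intro h
            rcases h with h | h | h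
            exacts [Or.inr (Or.inr h), Or.inl h, Or.inr (Or.inl h)])⟩
  exact (card_six hcover).trans ((add_le_add (add_le_add (add_le_add (add_le_add (add_le_add s1 s2) s3)
    p12) p13) p23).trans (exp_six hfinal))

end Pool.Agent.MDS81
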