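import Pool.Agent.MDS81.Small

set_option autoImplicit false

/-! Instances in which every chooser has size exactly two: tools. -/

namespace Pool.Agent.MDS81

open Finset
open scoped Classical

variable {ι κ : Type*}

/-- the other end of a chooser of size two -/
lemma ends {R : ι → κ → Prop} {B : Finset κ} {w : ι} {e : κ} (hw : sz R w B = 2) (he : e ∈ B)
    (hwe : R w e) : ∃ x ∈ B, x ≠ e ∧ R w x ∧ ∀ y ∈ B, R w y → y = e ∨ y = x := by
  have he' : e ∈ B.filter (fun e => R w e) := Finset.mem_filter.mpr ⟨he, hwe⟩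
  unfold sz at hw
  obtain ⟨x, hx, hxe⟩ := Finset.exists_mem_ne (by omega : 1 < (B.filter (fun e => R w e)).card) e
  have hx' := Finset.mem_filter.mp hx
  refine ⟨x, hx'.1, hxe, hx'.2, ?_⟩
  intro y hy hwy
  by_contra hne
  push Not at hne
  have hsub : ({e, x, y} : Finset κ) ⊆ B.filter (fun e => R w e) := by
    intro z hz
    simp only [Finset.mem_insert, Finset.mem_singleton] at hz
    rcases hz with rfl | rfl | rfl
    · exact he'
    · exact hx
    · exact Finset.mem_filter.mpr ⟨hy, hwy⟩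
  have h3 : ({e, x, y} : Finset κ).card = 3 := by
    rw [Finset.card_eq_three]
    exact ⟨e, x, y, hxe.symm, fun h => hne.1 h.symm, fun h => hne.2 h.symm, rfl⟩
  have := Finset.card_le_card hsub
  omega

/-- if `e` is covered by another member, the other end is private -/
lemma priv_other {R : ι → κ → Prop} {A : Finset ι} {B : Finset κ} {D : Finset ι} (hD : D ∈ mc R A B)
    {w w' : ι} {e x : κ} (hw : w ∈ D) (hw' : w' ∈ D) (hne : w' ≠ w) (hw'e : R w' e)
    (hends : ∀ y ∈ B, R w y → y = e ∨ y = x) : R w x ∧ ∀ z ∈ D, R z x → z = w := by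
  rw [mem_mc] at hD
  obtain ⟨y, hy, hwy, hu⟩ := hD.2.2 w hw
  rcases hends y hy hwy with rfl | rfl
  · exact absurd (hu w' hw' hw'e) hne
  · exact ⟨hwy, hu⟩

/-- actual gain at an element -/
noncomputable def act (R : ι → κ → Prop) (β : ℕ → ℝ) (A X : Finset ι) (B' : Finset κ) (y : κ) : ℝ :=
  β (fr R A y) - (if y ∈ B' then β (fr R (A \ X) y) else 0)

lemma act_cov {R : ι → κ → Prop} {β : ℕ → ℝ} {A X : Finset ι} {B' : Finset κ} {y : κ} (hy : y ∉ B') :
    act R β A X B' y = β (fr R A y) := by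
  unfold act; simp [hy]

lemma act_nonneg {R : ι → κ → Prop} {α β : ℕ → ℝ} (h : Shape α β) {A X : Finset ι} {B' : Finset κ} (y : κ) :
    0 ≤ act R β A X B' y := by
  unfold act
  by_cases hy : y ∈ B'
  · simp only [hy, if_true]; linarith [h.bm (fr_mono (R := R) y (Finset.sdiff_subset : A \ X ⊆ A))]
  · simp only [hy, if_false]; linarith [h.bn (fr R A y)]

lemma fr_sdiff_le {R : ι → κ → Prop} {A X : Finset ι} {y : κ} (W : Finset ι) (hW : W ⊆ A) (hWX : W ⊆ X)
    (hWy : ∀ w ∈ W, R w y) : fr R (A \ X) y + W.card ≤ fr R A y := by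
  unfold fr
  rw [← Finset.card_union_of_disjoint]
  · apply Finset.card_le_card
    intro z hz
    rcases Finset.mem_union.mp hz with h1 | h1
    · have h2 := Finset.mem_filter.mp h1
      exact Finset.mem_filter.mpr ⟨(Finset.mem_sdiff.mp h2.1).1, h2.2⟩
    · exact Finset.mem_filter.mpr ⟨hW h1, hWy z h1⟩
  · rw [Finset.disjoint_left]
    intro z hz hzW
    exact (Finset.mem_sdiff.mp (Finset.mem_filter.mp hz).1).2 (hWX hzW)

/-- an element losing `k` choosers -/
lemma act_lose {R : ι → κ → Prop} {α β : ℕ → ℝ} (h : Shape α β) {A X : Finset ι} {B' : Finset κ} {y : κ}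
    (W : Finset ι) (hW : W ⊆ A) (hWX : W ⊆ X) (hWy : ∀ w ∈ W, R w y) :
    β (fr R A y) - β (fr R A y - W.card) ≤ act R β A X B' y := by
  unfold act
  by_cases hy : y ∈ B'
  · simp only [hy, if_true]
    have h1 := fr_sdiff_le (R := R) (y := y) W hW hWX hWy
    have h2 : β (fr R (A \ X) y) ≤ β (fr R A y - W.card) := h.bm (by omega)
    linarith
  · simp only [hy, if_false]; linarith [h.bn (fr R A y - W.card)]

/-- accounting in the case of choosers of size two -/
lemma graph_gain {R : ι → κ → Prop} {α β : ℕ → ℝ} (h : Shape α β) {A : Finset ι} {B : Finset κ}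
    (hsz : ∀ w ∈ A, sz R w B = 2) {X : Finset ι} (hX : X ⊆ A) {B' : Finset κ} (hB' : B' ⊆ B)
    {U : Finset ι} (hUA : U ⊆ A) (hUX : ∀ u ∈ U, u ∉ X) (hU : ∀ u ∈ U, ∃ y ∈ B, y ∉ B' ∧ R u y)
    {S : Finset κ} (hS : S ⊆ B) :
    mu2 R α β (A \ X) B' + ((X.card : ℝ) * α 2 + (U.card : ℝ) * (α 2 - α 1) + ∑ y ∈ S, act R β A X B' y)
      ≤ mu2 R α β A B := by
  have hgain := mu2_gain (R := R) (α := α) (β := β) (A := A) (A' := A \ X) (B := B) (B' := B')
    Finset.sdiff_subset hB'
    (fun w => (if w ∈ X then α 2 else 0) + (if w ∈ U then α 2 - α 1 else 0))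
    (fun y => if y ∈ S then act R β A X B' y else 0)
    (by
      intro w hw hnot
      have hwX : w ∈ X := by
        by_contra hne
        exact hnot (Finset.mem_sdiff.mpr ⟨hw, hne⟩)
      have hwU : w ∉ U := fun hh => hUX w hh hwX
      simp only [hwX, hwU, if_true, if_false, add_zero]
      rw [hsz w hw])
    (by
      intro w hw
      have hw' := Finset.mem_sdiff.mp hw
      by_cases hwU : w ∈ U
      · simp only [hw'.2, hwU, if_true, if_false, zero_add]
        obtain ⟨y, hy, hyB', hwy⟩ := hU w hwU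
        have h1 : sz R w B' ≤ 1 := by
          have h2 : sz R w B' < sz R w B := by
            apply Finset.card_lt_card
            rw [Finset.ssubset_iff_of_subset (Finset.filter_subset_filter _ hB')]
            exact ⟨y, Finset.mem_filter.mpr ⟨hy, hwy⟩, fun hh => hyB' (Finset.mem_filter.mp hh).1⟩
          rw [hsz w hw'.1] at h2; omega
        rw [hsz w hw'.1]
        have := h.am h1
        linarith
      · simp only [hw'.2, hwU, if_false, add_zero, zero_add]
        exact h.am (sz_mono w hB'))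
    (by
      intro e he hnot
      by_cases heS : e ∈ S
      · simp only [heS, if_true]; rw [act_cov hnot]
      · simp only [heS, if_false]; exact h.bn _)
    (by
      intro e he
      by_cases heS : e ∈ S
      · simp only [heS, if_true]
        unfold act
        simp only [he, if_true]
        linarith
      · simp only [heS, if_false, zero_add]
        exact h.bm (fr_mono e Finset.sdiff_subset))
  have e1 : ∑ w ∈ A, ((if w ∈ X then α 2 else 0) + (if w ∈ U then α 2 - α 1 else 0))
      = (X.card : ℝ) * α 2 + (U.card : ℝ) * (α 2 - α 1) := by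
    rw [Finset.sum_add_distrib, ← Finset.sum_filter, ← Finset.sum_filter, Finset.sum_const,
      Finset.sum_const, nsmul_eq_mul, nsmul_eq_mul]
    congr 3
    · congr 1
      ext z; rw [Finset.mem_filter]; exact ⟨fun hh => hh.2, fun hh => ⟨hX hh, hh⟩⟩
    · congr 1
      ext z; rw [Finset.mem_filter]; exact ⟨fun hh => hh.2, fun hh => ⟨hUA hh, hh⟩⟩
  have e2 : ∑ y ∈ B, (if y ∈ S then act R β A X B' y else 0) = ∑ y ∈ S, act R β A X B' y := by
    rw [← Finset.sum_filter]
    congr 1
    ext z; rw [Finset.mem_filter]; exact ⟨fun hh => hh.2, fun hh => ⟨hS hh, hh⟩⟩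
  rw [e1, e2] at hgain
  exact hgain

/-- The combined step: bound a family of covers by take + gain. -/
lemma graph_take {R : ι → κ → Prop} {α β : ℕ → ℝ} (h : Shape α β) {A : Finset ι} {B : Finset κ}
    (hsz : ∀ w ∈ A, sz R w B = 2) (I X : Finset ι) (hX : X ⊆ A) (hXne : X.Nonempty)
    (F : Finset (Finset ι)) (hF : F ⊆ mc R A B) (hFI : ∀ D ∈ F, D ∩ X = I)
    {U : Finset ι} (hUA : U ⊆ A) (hUX : ∀ u ∈ U, u ∉ X)
    (hU : ∀ u ∈ U, ∃ y ∈ B, (∃ w ∈ I, R w y) ∧ R u y)
    {S : Finset κ} (hS : S ⊆ B)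
    (IH : ∀ (A' : Finset ι) (B' : Finset κ), A'.card + B'.card < A.card + B.card →
      ((mc R A' B').card : ℝ) ≤ Real.exp (mu2 R α β A' B'))
    (c : ℝ) (hc : c ≤ (X.card : ℝ) * α 2 + (U.card : ℝ) * (α 2 - α 1)
      + ∑ y ∈ S, act R β A X (B.filter (fun e => ∀ w ∈ I, ¬ R w e)) y) :
    (F.card : ℝ) ≤ Real.exp (mu2 R α β A B - c) := by
  have h1 := mc_take (R := R) (A := A) (B := B) I X F hF hFI
  set B' := B.filter (fun e => ∀ w ∈ I, ¬ R w e) with hB'
  have hlt : (A \ X).card + B'.card < A.card + B.card := by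
    have h2 : (A \ X).card < A.card := Finset.card_lt_card (Finset.sdiff_ssubset hX hXne)
    have h3 : B'.card ≤ B.card := Finset.card_le_card (Finset.filter_subset _ _)
    omega
  have h2 := IH _ _ hlt
  have h3 := graph_gain (R := R) h hsz hX (B' := B') (Finset.filter_subset _ _) hUA hUX
    (fun u hu => by
      obtain ⟨y, hy, ⟨w, hwI, hwy⟩, huy⟩ := hU u hu
      exact ⟨y, hy, fun hh => (Finset.mem_filter.mp hh).2 w hwI hwy, huy⟩) hS
  refine le_trans (by exact_mod_cast h1) (h2.trans (Real.exp_le_exp.mpr ?_))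
  linarith

lemma not_mem_resid {R : ι → κ → Prop} {B : Finset κ} {I : Finset ι} {y : κ} {w : ι} (hw : w ∈ I)
    (hwy : R w y) : y ∉ B.filter (fun e => ∀ w ∈ I, ¬ R w e) :=
  fun hh => (Finset.mem_filter.mp hh).2 w hw hwy

end Pool.Agent.MDS81
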