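import Mathlib

set_option autoImplicit false

/-! The independence polynomial of a graph with small independence number. -/

namespace Pool.Agent.MDS81

open Finset
open scoped Classical

variable {V : Type*} [Fintype V]

/-- the independent subsets of `S` -/
noncomputable def indF (G : SimpleGraph V) (S : Finset V) : Finset (Finset V) :=
  S.powerset.filter (fun I => ∀ u ∈ I, ∀ v ∈ I, ¬ G.Adj u v)

/-- the independence polynomial of `S` at `z` -/
noncomputable def indP (G : SimpleGraph V) (z : ℝ) (S : Finset V) : ℝ := ∑ I ∈ indF G S, z ^ I.card

lemma mem_indF {G : SimpleGraph V} {S I : Finset V} :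
    I ∈ indF G S ↔ I ⊆ S ∧ ∀ u ∈ I, ∀ v ∈ I, ¬ G.Adj u v := by
  simp [indF, Finset.mem_filter, Finset.mem_powerset]

lemma indP_nonneg (G : SimpleGraph V) {z : ℝ} (hz : 0 ≤ z) (S : Finset V) : 0 ≤ indP G z S :=
  Finset.sum_nonneg fun _ _ => pow_nonneg hz _

/-- the part of `S` outside the closed neighbourhood of `v` -/
noncomputable def far (G : SimpleGraph V) (S : Finset V) (v : V) : Finset V :=
  S.filter (fun w => w ≠ v ∧ ¬ G.Adj v w)

/-- the part of `S` in the closed neighbourhood of `v` -/
noncomputable def near (G : SimpleGraph V) (S : Finset V) (v : V) : Finset V :=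
  S.filter (fun w => ¬ (w ≠ v ∧ ¬ G.Adj v w))

lemma card_far_near (G : SimpleGraph V) (S : Finset V) (v : V) :
    (far G S v).card + (near G S v).card = S.card :=
  Finset.card_filter_add_card_filter_not _

/-- the sets which contain `t` -/
lemma sum_mem_le (G : SimpleGraph V) {z : ℝ} (hz : 0 ≤ z) (S : Finset V) (t : V) :
    ∑ I ∈ (indF G S).filter (fun I => t ∈ I), z ^ I.card ≤ z * indP G z (far G S t) := by
  have hsub : (indF G S).filter (fun I => t ∈ I) ⊆ (indF G (far G S t)).image (insert t) := by
    intro I hI
    rw [Finset.mem_filter, mem_indF] at hI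
    rw [Finset.mem_image]
    refine ⟨I.erase t, mem_indF.2 ⟨?_, ?_⟩, Finset.insert_erase hI.2⟩
    · intro w hw
      rw [Finset.mem_erase] at hw
      exact Finset.mem_filter.2 ⟨hI.1.1 hw.2, hw.1, hI.1.2 t hI.2 w hw.2⟩
    · intro u hu v hv
      exact hI.1.2 u (Finset.mem_of_mem_erase hu) v (Finset.mem_of_mem_erase hv)
  refine (Finset.sum_le_sum_of_subset_of_nonneg hsub fun _ _ _ => pow_nonneg hz _).trans ?_
  have hnot : ∀ J ∈ indF G (far G S t), t ∉ J := by
    intro J hJ htJ
    have := (mem_indF.1 hJ).1 htJ
    exact (Finset.mem_filter.1 this).2.1 rfl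
  rw [Finset.sum_image]
  · unfold indP
    rw [Finset.mul_sum]
    refine Finset.sum_le_sum fun J hJ => ?_
    rw [Finset.card_insert_of_notMem (hnot J hJ), pow_succ, mul_comm]
  · intro J hJ J' hJ' h
    have h1 := hnot J (Finset.mem_coe.1 hJ)
    have h2 := hnot J' (Finset.mem_coe.1 hJ')
    rw [← Finset.erase_insert h1, ← Finset.erase_insert h2]
    exact congrArg (fun s => s.erase t) h

/-- splitting at a closed neighbourhood -/
lemma indP_split (G : SimpleGraph V) {z : ℝ} (hz : 0 ≤ z) (S : Finset V) (v : V) :
    indP G z S ≤ indP G z (far G S v) + ∑ t ∈ near G S v, z * indP G z (far G S t) := by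
  have h1 : indP G z S ≤ indP G z (far G S v) +
      ∑ I ∈ indF G S, ∑ t ∈ near G S v, if t ∈ I then z ^ I.card else 0 := by
    unfold indP
    have e : ∑ I ∈ indF G (far G S v), z ^ I.card =
        ∑ I ∈ indF G S, if I ⊆ far G S v then z ^ I.card else 0 := by
      rw [← Finset.sum_filter]
      refine Finset.sum_congr ?_ fun _ _ => rfl
      ext I
      rw [Finset.mem_filter, mem_indF, mem_indF]
      constructor
      · rintro ⟨a, b⟩
        exact ⟨⟨a.trans (Finset.filter_subset _ _), b⟩, a⟩
      · rintro ⟨⟨_, b⟩, c⟩
        exact ⟨c, b⟩
    rw [e, ← Finset.sum_add_distrib]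
    refine Finset.sum_le_sum fun I hI => ?_
    have hp : 0 ≤ z ^ I.card := pow_nonneg hz _
    have hs : 0 ≤ ∑ t ∈ near G S v, if t ∈ I then z ^ I.card else 0 :=
      Finset.sum_nonneg fun t _ => by split_ifs <;> [exact hp; exact le_rfl]
    by_cases h : I ⊆ far G S v
    · rw [if_pos h]
      linarith
    · rw [if_neg h, zero_add]
      obtain ⟨t, ht, ht'⟩ := Finset.not_subset.1 h
      have htS := (mem_indF.1 hI).1 ht
      have htn : t ∈ near G S v := by
        refine Finset.mem_filter.2 ⟨htS, fun hh => ht' (Finset.mem_filter.2 ⟨htS, hh⟩)⟩
      have := Finset.single_le_sum (f := fun t => if t ∈ I then z ^ I.card else 0)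
        (fun t _ => by
          show 0 ≤ if t ∈ I then z ^ I.card else 0
          split_ifs <;> [exact hp; exact le_rfl]) htn
      simp only [if_pos ht] at this
      exact this
  refine h1.trans (add_le_add le_rfl ?_)
  rw [Finset.sum_comm]
  refine Finset.sum_le_sum fun t _ => ?_
  rw [← Finset.sum_filter]
  exact sum_mem_le G hz S t

/-- the arithmetic-geometric inequality which is used -/
lemma amgm_pow {x y : ℝ} (hx : 0 ≤ x) (hy : 0 < y) (k : ℕ) :
    x * y ^ k ≤ ((x + k * y) / (k + 1)) ^ (k + 1) := by
  have hk : (0 : ℝ) < (k : ℝ) + 1 := by positivity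
  set s : ℝ := (x - y) / ((k + 1) * y) with hs
  have hs1 : -2 ≤ s := by
    rw [hs, le_div_iff₀ (by positivity)]
    nlinarith [mul_pos hk hy, (Nat.cast_nonneg k : (0 : ℝ) ≤ k), mul_nonneg (Nat.cast_nonneg k : (0 : ℝ) ≤ k) hy.le]
  have h := one_add_mul_le_pow hs1 (k + 1)
  have e1 : 1 + ((k + 1 : ℕ) : ℝ) * s = x / y := by
    rw [hs]
    push_cast
    field_simp
    ring
  have e2 : (x + k * y) / (k + 1) = y * (1 + s) := by
    rw [hs]
    field_simp
    ring
  rw [e1] at h
  rw [e2, mul_pow]
  calc x * y ^ k = y ^ (k + 1) * (x / y) := by
        rw [pow_succ]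
        field_simp
    _ ≤ y ^ (k + 1) * (1 + s) ^ (k + 1) := mul_le_mul_of_nonneg_left h (by positivity)

/-- **a graph on `m` vertices whose independent sets have at most `a` elements has independence
polynomial at most `(1 + m z / a) ^ a` at `z`** -/
theorem indP_le (G : SimpleGraph V) {z : ℝ} (hz : 0 ≤ z) (a : ℕ) : ∀ S : Finset V,
    (∀ I ∈ indF G S, I.card ≤ a + 1) →
    indP G z S ≤ (1 + S.card * z / ((a : ℝ) + 1)) ^ (a + 1) := by
  induction a with
  | zero =>
    intro S hS
    rcases S.eq_empty_or_nonempty with rfl | hne
    · have : indF G (∅ : Finset V) = {∅} := by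
        ext I
        rw [mem_indF, Finset.subset_empty, Finset.mem_singleton]
        constructor
        · exact fun h => h.1
        · rintro rfl
          simp
      simp [indP, this]
    · obtain ⟨v, hv, hmax⟩ := Finset.exists_max_image S (fun v => indP G z (far G S v)) hne
      have hsp := indP_split G hz S v
      have hfar : far G S v = ∅ := by
        by_contra h
        obtain ⟨w, hw⟩ := Finset.nonempty_iff_ne_empty.2 h
        have hw' := Finset.mem_filter.1 hw
        have : ({v, w} : Finset V) ∈ indF G S := by
          rw [mem_indF]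
          refine ⟨?_, ?_⟩
          · intro x hx
            rw [Finset.mem_insert, Finset.mem_singleton] at hx
            rcases hx with rfl | rfl
            · exact hv
            · exact hw'.1
          · intro x hx y hy
            rw [Finset.mem_insert, Finset.mem_singleton] at hx hy
            rcases hx with rfl | rfl <;> rcases hy with rfl | rfl
            · exact G.loopless.irrefl _
            · exact hw'.2.2
            · exact fun h => hw'.2.2 h.symm
            · exact G.loopless.irrefl _
        have h2 := hS _ this
        rw [Finset.card_pair (Ne.symm hw'.2.1)] at h2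
        omega
      have h1 : indP G z (∅ : Finset V) = 1 := by
        have : indF G (∅ : Finset V) = {∅} := by
          ext I
          rw [mem_indF, Finset.subset_empty, Finset.mem_singleton]
          constructor
          · exact fun h => h.1
          · rintro rfl
            simp
        simp [indP, this]
      have hle : ∑ t ∈ near G S v, z * indP G z (far G S t) ≤ ∑ _t ∈ near G S v, z * 1 := by
        refine Finset.sum_le_sum fun t ht => mul_le_mul_of_nonneg_left ?_ hz
        have := hmax t (Finset.mem_filter.1 ht).1
        simp only [hfar, h1] at this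
        exact this
      rw [hfar, h1] at hsp
      rw [Finset.sum_const, nsmul_eq_mul] at hle
      have hc : ((near G S v).card : ℝ) ≤ S.card := by
        exact_mod_cast Finset.card_le_card (Finset.filter_subset _ _)
      have : ((near G S v).card : ℝ) * (z * 1) ≤ S.card * z := by
        rw [mul_one]
        exact mul_le_mul_of_nonneg_right hc hz
      simp only [Nat.cast_zero, zero_add, div_one, pow_one]
      linarith
  | succ a ih =>
    intro S hS
    rcases S.eq_empty_or_nonempty with rfl | hne
    · have : indF G (∅ : Finset V) = {∅} := by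
        ext I
        rw [mem_indF, Finset.subset_empty, Finset.mem_singleton]
        constructor
        · exact fun h => h.1
        · rintro rfl
          simp
      simp [indP, this]
    · obtain ⟨v, hv, hmax⟩ := Finset.exists_max_image S (fun v => indP G z (far G S v)) hne
      have hsp := indP_split G hz S v
      have hf : ∀ I ∈ indF G (far G S v), I.card ≤ a + 1 := by
        intro I hI
        have hI' := mem_indF.1 hI
        have hvI : v ∉ I := fun h => (Finset.mem_filter.1 (hI'.1 h)).2.1 rfl
        have : insert v I ∈ indF G S := by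
          rw [mem_indF]
          refine ⟨?_, ?_⟩
          · intro x hx
            rw [Finset.mem_insert] at hx
            rcases hx with rfl | hx
            · exact hv
            · exact (Finset.mem_filter.1 (hI'.1 hx)).1
          · intro x hx y hy
            rw [Finset.mem_insert] at hx hy
            rcases hx with rfl | hx <;> rcases hy with rfl | hy
            · exact G.loopless.irrefl _
            · exact (Finset.mem_filter.1 (hI'.1 hy)).2.2
            · exact fun h => (Finset.mem_filter.1 (hI'.1 hx)).2.2 h.symm
            · exact hI'.2 x hx y hy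
        have h2 := hS _ this
        rw [Finset.card_insert_of_notMem hvI] at h2
        omega
      have hih := ih (far G S v) hf
      have hF0 : 0 ≤ indP G z (far G S v) := indP_nonneg G hz _
      have hle : ∑ t ∈ near G S v, z * indP G z (far G S t) ≤
          ∑ _t ∈ near G S v, z * indP G z (far G S v) :=
        Finset.sum_le_sum fun t ht => mul_le_mul_of_nonneg_left
          (hmax t (Finset.mem_filter.1 ht).1) hz
      rw [Finset.sum_const, nsmul_eq_mul] at hle
      have hc : ((far G S v).card : ℝ) + (near G S v).card = S.card := by
        exact_mod_cast card_far_near G S v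
      have hT0 : (0 : ℝ) ≤ (near G S v).card := Nat.cast_nonneg _
      have hR0 : (0 : ℝ) ≤ (far G S v).card := Nat.cast_nonneg _
      have ha : (0 : ℝ) < (a : ℝ) + 1 := by positivity
      have hx : 0 ≤ 1 + ((near G S v).card : ℝ) * z := by positivity
      have hy : 0 < 1 + ((far G S v).card : ℝ) * z / ((a : ℝ) + 1) := by positivity
      have key := amgm_pow hx hy (a + 1)
      calc indP G z S ≤ indP G z (far G S v) + (near G S v).card * (z * indP G z (far G S v)) :=
            hsp.trans (add_le_add le_rfl hle)
        _ = (1 + (near G S v).card * z) * indP G z (far G S v) := by ring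
        _ ≤ (1 + (near G S v).card * z) *
            (1 + (far G S v).card * z / ((a : ℝ) + 1)) ^ (a + 1) :=
            mul_le_mul_of_nonneg_left hih hx
        _ ≤ _ := key
        _ = _ := by
            congr 1
            push_cast
            rw [← hc]
            field_simp
            ring

end Pool.Agent.MDS81
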