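import Pool.Agent.MDS81.Cobip
import Pool.Agent.MDS81.IndepPoly

set_option autoImplicit false

/-! Minimal dominating sets of a graph with small independence number. -/

namespace Pool.Agent.MDS81

open Finset
open scoped Classical

variable {V : Type*} [Fintype V]

lemma nbr_symm (G : SimpleGraph V) {u v : V} (h : nbr G u v) : nbr G v u := by
  rcases h with h | h
  · exact Or.inl h.symm
  · exact Or.inr h.symm

/-- the vertices which see no vertex of `I` -/
noncomputable def iW (G : SimpleGraph V) (I : Finset V) : Finset V :=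
  Finset.univ.filter (fun v => ∀ q ∈ I, ¬ nbr G v q)

/-- the vertices which see `q` and no other vertex of `I` -/
noncomputable def iN (G : SimpleGraph V) (I : Finset V) (q : V) : Finset V :=
  Finset.univ.filter (fun v => nbr G v q ∧ ∀ q' ∈ I, q' ≠ q → ¬ nbr G v q')

/-- the vertices which see `I` but not `f I` -/
noncomputable def iU (G : SimpleGraph V) (I : Finset V) (f : V → V) : Finset V :=
  Finset.univ.filter (fun v => (∃ q ∈ I, nbr G v q) ∧ ∀ q ∈ I, ¬ nbr G (f q) v)

/-- the choice functions -/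
noncomputable def iT (G : SimpleGraph V) (I : Finset V) : Finset (V → V) :=
  Fintype.piFinset (fun q => if q ∈ I then iN G I q else {q})

/-- a maximal independent subset -/
lemma exists_max_indep (G : SimpleGraph V) (P : Finset V) : ∃ I ∈ indF G P,
    ∀ p ∈ P, ∃ q ∈ I, nbr G p q := by
  have hne : (indF G P).Nonempty := ⟨∅, mem_indF.2 ⟨Finset.empty_subset _, by simp⟩⟩
  obtain ⟨I, hI, hmax⟩ := Finset.exists_max_image (indF G P) Finset.card hne
  refine ⟨I, hI, fun p hp => ?_⟩
  by_contra h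
  push Not at h
  have hpI : p ∉ I := fun hp' => h p hp' (Or.inl rfl)
  have hI' := mem_indF.1 hI
  have : insert p I ∈ indF G P := by
    rw [mem_indF]
    refine ⟨Finset.insert_subset hp hI'.1, ?_⟩
    intro x hx y hy
    rw [Finset.mem_insert] at hx hy
    rcases hx with rfl | hx <;> rcases hy with rfl | hy
    · exact G.loopless.irrefl _
    · exact fun hh => h y hy (Or.inr hh)
    · exact fun hh => h x hx (Or.inr hh.symm)
    · exact hI'.2 x hx y hy
  have h2 := hmax _ this
  rw [Finset.card_insert_of_notMem hpI] at h2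
  omega

/-- **the fingerprint**: every minimal dominating set is `f I ∪ D'` with `I` independent, `f` a choice
function and `D'` a minimal cover of `iU` by `iW` -/
theorem mc_subset (G : SimpleGraph V) :
    mc (nbr G) (Finset.univ : Finset V) Finset.univ ⊆
      (indF G Finset.univ).biUnion fun I => (iT G I).biUnion fun f =>
        (mc (nbr G) (iW G I) (iU G I f)).image (fun D' => I.image f ∪ D') := by
  intro D hD
  rw [mem_mc] at hD
  obtain ⟨-, hcov, hpr⟩ := hD
  choose! p hp using hpr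
  obtain ⟨I, hI, hdom⟩ := exists_max_indep G (D.image p)
  have hI' := mem_indF.1 hI
  -- the partner of a vertex of `I`
  have hex : ∀ q ∈ I, ∃ b ∈ D, p b = q := fun q hq => by
    have := hI'.1 hq
    rwa [Finset.mem_image] at this
  choose! g hg using hex
  have hun : ∀ q ∈ I, ∀ w ∈ D, nbr G w q → w = g q := by
    intro q hq w hw hwq
    have h1 := (hp (g q) (hg q hq).1).2.2 w hw
    rw [(hg q hq).2] at h1
    exact h1 hwq
  have hgq : ∀ q ∈ I, nbr G (g q) q := by
    intro q hq
    have h1 := (hp (g q) (hg q hq).1).2.1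
    rwa [(hg q hq).2] at h1
  have hginj : ∀ q ∈ I, ∀ q' ∈ I, g q = g q' → q = q' := by
    intro q hq q' hq' h
    rw [← (hg q hq).2, ← (hg q' hq').2, h]
  set f : V → V := fun q => if q ∈ I then g q else q with hf
  have hfI : ∀ q ∈ I, f q = g q := fun q hq => by simp [hf, hq]
  rw [Finset.mem_biUnion]
  refine ⟨I, mem_indF.2 ⟨Finset.subset_univ _, hI'.2⟩, ?_⟩
  rw [Finset.mem_biUnion]
  refine ⟨f, ?_, ?_⟩
  · unfold iT
    rw [Fintype.mem_piFinset]
    intro q
    by_cases hq : q ∈ I
    · rw [if_pos hq, hfI q hq]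
      refine Finset.mem_filter.2 ⟨Finset.mem_univ _, hgq q hq, ?_⟩
      intro q' hq' hne h
      exact hne (hginj q' hq' q hq (hun q' hq' (g q) (hg q hq).1 h).symm)
    · rw [if_neg hq]
      simp [hf, hq]
  · rw [Finset.mem_image]
    refine ⟨D \ I.image f, ?_, ?_⟩
    · rw [mem_mc]
      refine ⟨?_, ?_, ?_⟩
      · intro w hw
        rw [Finset.mem_sdiff] at hw
        refine Finset.mem_filter.2 ⟨Finset.mem_univ _, fun q hq h => hw.2 ?_⟩
        rw [hun q hq w hw.1 h, ← hfI q hq]
        exact Finset.mem_image_of_mem _ hq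
      · intro e he
        have he' := (Finset.mem_filter.1 he).2
        obtain ⟨w, hw, hwe⟩ := hcov e (Finset.mem_univ _)
        refine ⟨w, Finset.mem_sdiff.2 ⟨hw, fun h => ?_⟩, hwe⟩
        obtain ⟨q, hq, rfl⟩ := Finset.mem_image.1 h
        exact he'.2 q hq hwe
      · intro w hw
        rw [Finset.mem_sdiff] at hw
        have h1 := hp w hw.1
        refine ⟨p w, Finset.mem_filter.2 ⟨Finset.mem_univ _, ?_, ?_⟩, h1.2.1, ?_⟩
        · exact hdom (p w) (Finset.mem_image_of_mem _ hw.1)
        · intro q hq h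
          rw [hfI q hq] at h
          have h2 := h1.2.2 (g q) (hg q hq).1 h
          apply hw.2
          rw [← h2, ← hfI q hq]
          exact Finset.mem_image_of_mem _ hq
        · intro w' hw' h
          exact h1.2.2 w' (Finset.mem_sdiff.1 hw').1 h
    · ext w
      rw [Finset.mem_union, Finset.mem_sdiff]
      constructor
      · rintro (h | h)
        · obtain ⟨q, hq, rfl⟩ := Finset.mem_image.1 h
          rw [hfI q hq]
          exact (hg q hq).1
        · exact h.1
      · intro h
        by_cases h' : w ∈ I.image f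
        · exact Or.inl h'
        · exact Or.inr ⟨h, h'⟩

/-- the sizes -/
lemma card_sum_le (G : SimpleGraph V) {I : Finset V} (hI : I ∈ indF G Finset.univ) {f : V → V}
    (hf : f ∈ iT G I) :
    (iW G I).card + (iU G I f).card + ∑ q ∈ I, ({q, f q} : Finset V).card ≤ Fintype.card V := by
  have hI' := mem_indF.1 hI
  have hfI : ∀ q ∈ I, nbr G (f q) q ∧ ∀ q' ∈ I, q' ≠ q → ¬ nbr G (f q) q' := by
    intro q hq
    have := (Fintype.mem_piFinset.1 hf) q
    rw [if_pos hq] at this
    exact (Finset.mem_filter.1 this).2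
  have hdis : (↑I : Set V).PairwiseDisjoint (fun q => ({q, f q} : Finset V)) := by
    intro q hq q' hq' hne
    rw [Finset.mem_coe] at hq hq'
    rw [Function.onFun, Finset.disjoint_left]
    intro x hx hx'
    rw [Finset.mem_insert, Finset.mem_singleton] at hx hx'
    rcases hx with hx | hx <;> rcases hx' with hx' | hx'
    · exact hne (hx.symm.trans hx')
    · -- q = f q'
      have := (hfI q' hq').2 q hq hne
      rw [← hx', hx] at this
      exact this (Or.inl rfl)
    · have := (hfI q hq).2 q' hq' hne.symm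
      rw [← hx, hx'] at this
      exact this (Or.inl rfl)
    · have := (hfI q hq).2 q' hq' hne.symm
      rw [← hx, hx'] at this
      exact this (hfI q' hq').1
  rw [← Finset.card_biUnion hdis, ← Finset.card_union_of_disjoint, ← Finset.card_union_of_disjoint]
  · exact Finset.card_le_univ _
  · rw [Finset.disjoint_left]
    intro x hx hx'
    obtain ⟨q, hq, hxq⟩ := Finset.mem_biUnion.1 hx'
    rw [Finset.mem_insert, Finset.mem_singleton] at hxq
    rw [Finset.mem_union] at hx
    rcases hx with hx | hx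
    · have h1 := (Finset.mem_filter.1 hx).2 q hq
      rcases hxq with rfl | rfl
      · exact h1 (Or.inl rfl)
      · exact h1 (hfI q hq).1
    · have h1 := (Finset.mem_filter.1 hx).2.2 q hq
      rcases hxq with rfl | rfl
      · exact h1 (hfI x hq).1
      · exact h1 (Or.inl rfl)
  · rw [Finset.disjoint_left]
    intro x hx hx'
    obtain ⟨q, hq, h⟩ := (Finset.mem_filter.1 hx').2.1
    exact (Finset.mem_filter.1 hx).2 q hq h

/-- the sum over the choices at one vertex of `I` -/
lemma one_sum_le (G : SimpleGraph V) {I : Finset V} {q : V} (hq : q ∈ iN G I q) {κ lam : ℝ}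
    (hκ : 1 ≤ κ) (hlam : 0 < lam) :
    ∑ b ∈ iN G I q, κ⁻¹ ^ ({q, b} : Finset V).card ≤
      (κ⁻¹ ^ 2 * lam * Real.exp ((κ - 1) / lam - 1)) * Real.exp ((iN G I q).card / lam) := by
  have hκ0 : 0 < κ := lt_of_lt_of_le one_pos hκ
  have e1 : ∑ b ∈ iN G I q, κ⁻¹ ^ ({q, b} : Finset V).card =
      κ⁻¹ + ((iN G I q).card - 1) * κ⁻¹ ^ 2 := by
    rw [← Finset.add_sum_erase _ _ hq]
    have e2 : ∑ b ∈ (iN G I q).erase q, κ⁻¹ ^ ({q, b} : Finset V).card =
        ∑ _b ∈ (iN G I q).erase q, κ⁻¹ ^ 2 := by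
      refine Finset.sum_congr rfl fun b hb => ?_
      rw [Finset.card_pair (Finset.ne_of_mem_erase hb).symm]
    rw [e2, Finset.sum_const, nsmul_eq_mul, Finset.card_erase_of_mem hq, Nat.cast_sub
      (Finset.card_pos.2 ⟨q, hq⟩)]
    simp
  rw [e1]
  set x : ℝ := ((iN G I q).card : ℝ) with hx
  have e3 : κ⁻¹ + (x - 1) * κ⁻¹ ^ 2 = κ⁻¹ ^ 2 * (x + κ - 1) := by
    field_simp
    ring
  rw [e3]
  have h1 : (x + κ - 1) / lam ≤ Real.exp ((x + κ - 1) / lam - 1) := by
    have := Real.add_one_le_exp ((x + κ - 1) / lam - 1)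
    linarith
  have h2 : x + κ - 1 ≤ lam * Real.exp ((x + κ - 1) / lam - 1) := by
    rw [div_le_iff₀ hlam] at h1
    linarith
  have e4 : Real.exp ((x + κ - 1) / lam - 1) = Real.exp ((κ - 1) / lam - 1) * Real.exp (x / lam) := by
    rw [← Real.exp_add]
    congr 1
    ring
  calc κ⁻¹ ^ 2 * (x + κ - 1) ≤ κ⁻¹ ^ 2 * (lam * Real.exp ((x + κ - 1) / lam - 1)) :=
        mul_le_mul_of_nonneg_left h2 (by positivity)
    _ = _ := by
        rw [e4]
        ring

/-- the sum over the fingerprints with first part `I` -/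
lemma sum_iT_le (G : SimpleGraph V) {I : Finset V} (hI : I ∈ indF G Finset.univ) {κ lam : ℝ}
    (hκ : 1 ≤ κ) (hlam : 0 < lam) :
    ∑ f ∈ iT G I, κ ^ ((iW G I).card + (iU G I f).card) ≤
      κ ^ Fintype.card V * Real.exp (Fintype.card V / lam) *
        (κ⁻¹ ^ 2 * lam * Real.exp ((κ - 1) / lam - 1)) ^ I.card := by
  have hκ0 : 0 < κ := lt_of_lt_of_le one_pos hκ
  have hI' := mem_indF.1 hI
  have hqN : ∀ q ∈ I, q ∈ iN G I q := by
    intro q hq
    refine Finset.mem_filter.2 ⟨Finset.mem_univ _, Or.inl rfl, ?_⟩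
    rintro q' hq' hne (h | h)
    · exact hne h.symm
    · exact hI'.2 q hq q' hq' h
  have h1 : ∀ f ∈ iT G I, κ ^ ((iW G I).card + (iU G I f).card) ≤
      κ ^ Fintype.card V * ∏ q, (if q ∈ I then κ⁻¹ ^ ({q, f q} : Finset V).card else 1) := by
    intro f hf
    have h2 := card_sum_le G hI hf
    have e : ∏ q, (if q ∈ I then κ⁻¹ ^ ({q, f q} : Finset V).card else 1) =
        κ⁻¹ ^ (∑ q ∈ I, ({q, f q} : Finset V).card) := by
      rw [Finset.prod_ite_mem, Finset.univ_inter, Finset.prod_pow_eq_pow_sum]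
    rw [e, inv_pow]
    rw [← div_eq_mul_inv, le_div_iff₀ (by positivity), ← pow_add]
    exact pow_le_pow_right₀ hκ h2
  refine (Finset.sum_le_sum h1).trans ?_
  rw [← Finset.mul_sum]
  have e2 : ∑ f ∈ iT G I, ∏ q, (if q ∈ I then κ⁻¹ ^ ({q, f q} : Finset V).card else 1) =
      ∏ q, ∑ b ∈ (if q ∈ I then iN G I q else {q}),
        (if q ∈ I then κ⁻¹ ^ ({q, b} : Finset V).card else 1) := by
    unfold iT
    rw [Finset.prod_univ_sum]
  have e3 : ∏ q, ∑ b ∈ (if q ∈ I then iN G I q else {q}),
        (if q ∈ I then κ⁻¹ ^ ({q, b} : Finset V).card else 1) =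
      ∏ q ∈ I, ∑ b ∈ iN G I q, κ⁻¹ ^ ({q, b} : Finset V).card := by
    rw [← Finset.prod_subset (Finset.subset_univ I)]
    · refine Finset.prod_congr rfl fun q hq => ?_
      simp only [if_pos hq]
    · intro q _ hq
      simp [hq]
  rw [e2, e3]
  have h4 : ∏ q ∈ I, ∑ b ∈ iN G I q, κ⁻¹ ^ ({q, b} : Finset V).card ≤
      ∏ q ∈ I, ((κ⁻¹ ^ 2 * lam * Real.exp ((κ - 1) / lam - 1)) *
        Real.exp ((iN G I q).card / lam)) := by
    refine Finset.prod_le_prod (fun q _ => Finset.sum_nonneg fun b _ => by positivity)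
      fun q hq => one_sum_le G (hqN q hq) hκ hlam
  have h5 : ∏ q ∈ I, ((κ⁻¹ ^ 2 * lam * Real.exp ((κ - 1) / lam - 1)) *
        Real.exp ((iN G I q).card / lam)) =
      (κ⁻¹ ^ 2 * lam * Real.exp ((κ - 1) / lam - 1)) ^ I.card *
        Real.exp ((∑ q ∈ I, ((iN G I q).card : ℝ)) / lam) := by
    rw [Finset.prod_mul_distrib, Finset.prod_const, ← Real.exp_sum, Finset.sum_div]
  have hdis : (↑I : Set V).PairwiseDisjoint (iN G I) := by
    intro q hq q' hq' hne
    rw [Finset.mem_coe] at hq hq'
    rw [Function.onFun, Finset.disjoint_left]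
    intro x hx hx'
    exact (Finset.mem_filter.1 hx).2.2 q' hq' hne.symm (Finset.mem_filter.1 hx').2.1
  have h6 : (∑ q ∈ I, ((iN G I q).card : ℝ)) ≤ Fintype.card V := by
    rw [← Nat.cast_sum, ← Finset.card_biUnion hdis]
    exact_mod_cast Finset.card_le_univ _
  have h7 : Real.exp ((∑ q ∈ I, ((iN G I q).card : ℝ)) / lam) ≤ Real.exp (Fintype.card V / lam) :=
    Real.exp_le_exp.2 (div_le_div_of_nonneg_right h6 hlam.le)
  calc κ ^ Fintype.card V * ∏ q ∈ I, ∑ b ∈ iN G I q, κ⁻¹ ^ ({q, b} : Finset V).card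
      ≤ κ ^ Fintype.card V * ((κ⁻¹ ^ 2 * lam * Real.exp ((κ - 1) / lam - 1)) ^ I.card *
        Real.exp (Fintype.card V / lam)) := by
        refine mul_le_mul_of_nonneg_left (h4.trans (h5.le.trans ?_)) (by positivity)
        exact mul_le_mul_of_nonneg_left h7 (by positivity)
    _ = _ := by ring

/-- **the bound by the independence polynomial** -/
theorem mds_le_indP (G : SimpleGraph V) {lam : ℝ} (hlam : 0 < lam) :
    ((mc (nbr G) (Finset.univ : Finset V) Finset.univ).card : ℝ) ≤
      (1.354 : ℝ) ^ Fintype.card V * Real.exp (Fintype.card V / lam) *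
        indP G ((1.354 : ℝ)⁻¹ ^ 2 * lam * Real.exp ((1.354 - 1) / lam - 1)) Finset.univ := by
  have h1 := Finset.card_le_card (mc_subset G)
  have h2 : (((indF G Finset.univ).biUnion fun I => (iT G I).biUnion fun f =>
        (mc (nbr G) (iW G I) (iU G I f)).image (fun D' => I.image f ∪ D')).card : ℝ) ≤
      ∑ I ∈ indF G Finset.univ, ∑ f ∈ iT G I, (1.354 : ℝ) ^ ((iW G I).card + (iU G I f).card) := by
    refine (Nat.cast_le.2 Finset.card_biUnion_le).trans ?_
    rw [Nat.cast_sum]
    refine Finset.sum_le_sum fun I _ => ?_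
    refine (Nat.cast_le.2 Finset.card_biUnion_le).trans ?_
    rw [Nat.cast_sum]
    refine Finset.sum_le_sum fun f _ => ?_
    exact (Nat.cast_le.2 Finset.card_image_le).trans (cover_balanced _ _ _)
  refine ((Nat.cast_le.2 h1).trans h2).trans ?_
  unfold indP
  rw [Finset.mul_sum]
  exact Finset.sum_le_sum fun I hI => sum_iT_le G hI (by norm_num) hlam

end Pool.Agent.MDS81
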