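import Pool.Agent.MDS81.IndepCount

set_option autoImplicit false

/-! The bound `15 ^ (n / 6)` for graphs whose independence number is at most `n / 49`. -/

namespace Pool.Agent.MDS81

open Finset
open scoped Classical

variable {V : Type*} [Fintype V]

/-- the weight of a vertex of the fingerprint for `λ = 49` -/
noncomputable def z49 : ℝ := (1.354 : ℝ)⁻¹ ^ 2 * 49 * Real.exp ((1.354 - 1) / 49 - 1)

lemma z49_pos : 0 < z49 := by
  unfold z49
  positivity

lemma num49 : (1.354 : ℝ) ^ 49 * (Real.exp 1 * (1 + 49 * z49)) ≤ (15 : ℝ) ^ ((49 : ℝ) / 6) := by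
  have h1 : Real.exp 1 * (1 + 49 * z49) ≤ 1322 := by
    have e1 : Real.exp 1 * (1 + 49 * z49) =
        Real.exp 1 + 49 * 49 * (1.354 : ℝ)⁻¹ ^ 2 * Real.exp (0.354 / 49) := by
      unfold z49
      have : Real.exp ((1.354 - 1) / 49 - 1) = Real.exp (0.354 / 49) * (Real.exp 1)⁻¹ := by
        rw [← Real.exp_neg, ← Real.exp_add]
        congr 1
        norm_num
      rw [this]
      have h0 := (Real.exp_pos 1).ne'
      field_simp
    have h2 : Real.exp (0.354 / 49) ≤ 1.00728 := by
      have h3 := Real.one_sub_le_exp_neg (0.354 / 49)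
      have h4 : (0 : ℝ) < 1 - 0.354 / 49 := by norm_num
      have h5 : Real.exp (0.354 / 49) * Real.exp (-(0.354 / 49)) = 1 := by
        rw [← Real.exp_add]
        simp
      have h6 : Real.exp (0.354 / 49) * (1 - 0.354 / 49) ≤ 1 :=
        (mul_le_mul_of_nonneg_left h3 (Real.exp_pos _).le).trans h5.le
      have h7 : Real.exp (0.354 / 49) ≤ 1 / (1 - 0.354 / 49) := by
        rwa [le_div_iff₀ h4]
      refine h7.trans ?_
      norm_num
    rw [e1]
    have h3 := Real.exp_one_lt_d9
    have h4 : (49 * 49 * (1.354 : ℝ)⁻¹ ^ 2) * Real.exp (0.354 / 49) ≤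
        (49 * 49 * (1.354 : ℝ)⁻¹ ^ 2) * 1.00728 := mul_le_mul_of_nonneg_left h2 (by positivity)
    have h5 : (49 * 49 * (1.354 : ℝ)⁻¹ ^ 2) * 1.00728 ≤ 1319.2 := by norm_num
    linarith
  have h2 : (1.354 : ℝ) ^ 49 * (Real.exp 1 * (1 + 49 * z49)) ≤ (1.354 : ℝ) ^ 49 * 1322 :=
    mul_le_mul_of_nonneg_left h1 (by positivity)
  refine h2.trans ?_
  have h3 : (15 : ℝ) ^ ((49 : ℝ) / 6) = ((15 : ℝ) ^ (49 : ℕ)) ^ ((6 : ℝ)⁻¹) := by
    rw [← Real.rpow_natCast, ← Real.rpow_mul (by norm_num)]
    norm_num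
  rw [h3, Real.le_rpow_inv_iff_of_pos (by positivity) (by positivity) (by norm_num)]
  have h4 : ((1.354 : ℝ) ^ 49 * 1322) ^ (6 : ℝ) = ((1.354 : ℝ) ^ 49 * 1322) ^ (6 : ℕ) := by
    rw [← Real.rpow_natCast]
    norm_num
  rw [h4]
  norm_num

/-- **graphs with independence number at most `n / 49`** -/
theorem indep_bound (G : SimpleGraph V) (h : 49 * G.indepNum ≤ Fintype.card V) :
    ((mc (nbr G) (Finset.univ : Finset V) Finset.univ).card : ℝ) ≤
      (15 : ℝ) ^ ((Fintype.card V : ℝ) / 6) := by
  have hI : ∀ I ∈ indF G Finset.univ, I.card ≤ G.indepNum := by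
    intro I hI
    have hI' := (mem_indF.1 hI).2
    have : G.IsIndepSet (I : Set V) := by
      intro u hu v hv _
      exact hI' u (Finset.mem_coe.1 hu) v (Finset.mem_coe.1 hv)
    exact this.card_le_indepNum
  rcases isEmpty_or_nonempty V with hV | hV
  · have hc : Fintype.card V = 0 := Fintype.card_eq_zero
    have h1 : ((mc (nbr G) (Finset.univ : Finset V) Finset.univ).card : ℝ) ≤ 1 := by
      have : (mc (nbr G) (Finset.univ : Finset V) Finset.univ).card ≤ 1 := by
        rw [Finset.card_le_one]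
        intro a _ b _
        exact Subsingleton.elim a b
      exact_mod_cast this
    rw [hc]
    simpa using h1
  · have ha : 1 ≤ G.indepNum := by
      obtain ⟨v⟩ := hV
      have : ({v} : Finset V) ∈ indF G Finset.univ := by
        rw [mem_indF]
        refine ⟨Finset.subset_univ _, ?_⟩
        intro x hx y hy
        rw [Finset.mem_singleton] at hx hy
        rw [hx, hy]
        exact G.loopless.irrefl _
      simpa using hI _ this
    obtain ⟨a, haa⟩ : ∃ a : ℕ, G.indepNum = a + 1 := ⟨G.indepNum - 1, by omega⟩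
    rw [haa] at h hI
    have h1 := mds_le_indP G (lam := 49) (by norm_num)
    have h2 := indP_le G z49_pos.le a Finset.univ hI
    have hn : (49 : ℝ) * ((a : ℝ) + 1) ≤ Fintype.card V := by exact_mod_cast h
    have hA : (0 : ℝ) < (a : ℝ) + 1 := by positivity
    set n : ℝ := (Fintype.card V : ℝ) with hnn
    have hz := z49_pos
    -- the monotonicity in `a`
    have h3 : (1 + n * z49 / ((a : ℝ) + 1)) ^ (a + 1) ≤ (1 + 49 * z49) ^ (n / 49) := by
      have h4 : 1 ≤ n / 49 / ((a : ℝ) + 1) := by
        rw [le_div_iff₀ hA, one_mul, le_div_iff₀ (by norm_num)]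
        linarith
      have h5 := one_add_mul_self_le_rpow_one_add (s := 49 * z49) (by linarith) h4
      have h6 : 1 + n / 49 / ((a : ℝ) + 1) * (49 * z49) = 1 + n * z49 / ((a : ℝ) + 1) := by
        field_simp
      rw [h6] at h5
      have h7 : (1 + 49 * z49) ^ (n / 49) = ((1 + 49 * z49) ^ (n / 49 / ((a : ℝ) + 1))) ^ (a + 1) := by
        rw [← Real.rpow_mul_natCast (by positivity)]
        congr 1
        push_cast
        field_simp
      rw [h7]
      refine pow_le_pow_left₀ ?_ h5 _
      have hn0 : 0 ≤ n := by rw [hnn]; positivity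
      positivity
    have h8 : ((mc (nbr G) (Finset.univ : Finset V) Finset.univ).card : ℝ) ≤
        (1.354 : ℝ) ^ Fintype.card V * Real.exp (n / 49) * (1 + 49 * z49) ^ (n / 49) := by
      refine h1.trans (mul_le_mul_of_nonneg_left ?_ (by positivity))
      refine h2.trans ?_
      rw [Finset.card_univ]
      exact h3
    refine h8.trans ?_
    have e1 : (1.354 : ℝ) ^ Fintype.card V = ((1.354 : ℝ) ^ 49) ^ (n / 49) := by
      rw [← Real.rpow_natCast, ← Real.rpow_natCast, ← Real.rpow_mul (by norm_num)]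
      congr 1
      push_cast
      rw [hnn]
      field_simp
    have e2 : Real.exp (n / 49) = (Real.exp 1) ^ (n / 49) := by
      rw [← Real.exp_mul, one_mul]
    have e3 : (15 : ℝ) ^ (n / 6) = ((15 : ℝ) ^ ((49 : ℝ) / 6)) ^ (n / 49) := by
      rw [← Real.rpow_mul (by norm_num)]
      congr 1
      field_simp
    rw [e1, e2, e3, ← Real.mul_rpow (by positivity) (by positivity),
      ← Real.mul_rpow (by positivity) (by positivity)]
    refine Real.rpow_le_rpow (by positivity) ?_ (by positivity)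
    rw [mul_assoc]
    exact num49

end Pool.Agent.MDS81
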