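import Pool.Agent.MDS81.Fingerprint

set_option autoImplicit false

/-! The main bound in terms of the inverse degree sums. -/

namespace Pool.Agent.MDS81

open Finset
open scoped Classical

variable {V : Type*} [Fintype V]

/-- number of vertices covering `e` -/
noncomputable def dg (R : V → V → Prop) (e : V) : ℕ := (Finset.univ.filter (fun w => R w e)).card

/-- inverse degree sum of the elements covered by `z` -/
noncomputable def omega (R : V → V → Prop) (z : V) : ℝ :=
  ∑ e ∈ Finset.univ.filter (fun e => R z e), 1 / (dg R e : ℝ)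

/-- vertices with few covering vertices -/
noncomputable def low (R : V → V → Prop) (d : ℕ) : Finset V := Finset.univ.filter (fun e => dg R e < d)

lemma omega_nonneg (R : V → V → Prop) (z : V) : 0 ≤ omega R z :=
  Finset.sum_nonneg (fun e _ => by positivity)

/-- Light vertices of large degree are paid for by the zone. -/
lemma light_le (R : V → V → Prop) (L d : ℕ) (hd : 1 ≤ d) (δ : ℝ)
    (hL : (L : ℝ) ^ 4 ≤ δ * d) (T : Finset V) :
    (((light R L T).filter (fun e => ¬ dg R e < d)).card : ℝ)
      ≤ ∑ z ∈ zone R T, omega R z + δ * Fintype.card V := by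
  set E : Finset V := (light R L T).filter (fun e => ¬ dg R e < d) with hE
  have h1 : ∀ e ∈ E, (1 : ℝ) - δ ≤ ∑ z ∈ (zone R T).filter (fun z => R z e), 1 / (dg R e : ℝ) := by
    intro e he
    have he' := Finset.mem_filter.mp he
    have hdg : (d : ℝ) ≤ dg R e := by exact_mod_cast (not_lt.mp he'.2)
    have hdpos : (0 : ℝ) < d := by exact_mod_cast hd
    have hdgpos : (0 : ℝ) < dg R e := lt_of_lt_of_le hdpos hdg
    have hlight : (((zone R T)ᶜ).filter (fun w => R w e)).card ≤ L ^ 4 := (Finset.mem_filter.mp he'.1).2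
    have hsplit : ((zone R T).filter (fun w => R w e)).card
        + (((zone R T)ᶜ).filter (fun w => R w e)).card = dg R e := by
      unfold dg
      rw [← Finset.card_union_of_disjoint]
      · congr 1
        ext w
        simp only [Finset.mem_union, Finset.mem_filter, Finset.mem_compl, Finset.mem_univ, true_and]
        tauto
      · rw [Finset.disjoint_left]
        intro w hw hw'
        exact (Finset.mem_compl.mp (Finset.mem_filter.mp hw').1) (Finset.mem_filter.mp hw).1
    rw [Finset.sum_const, nsmul_eq_mul, mul_one_div, le_div_iff₀ hdgpos]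
    have h2 : (((zone R T).filter (fun w => R w e)).card : ℝ)
        + (((zone R T)ᶜ).filter (fun w => R w e)).card = dg R e := by exact_mod_cast hsplit
    have h3 : ((((zone R T)ᶜ).filter (fun w => R w e)).card : ℝ) ≤ (L : ℝ) ^ 4 := by exact_mod_cast hlight
    by_cases hδ : 0 ≤ δ
    · have h4 : δ * d ≤ δ * dg R e := mul_le_mul_of_nonneg_left hdg hδ
      nlinarith
    · push Not at hδ
      have h5 : (0 : ℝ) ≤ (L : ℝ) ^ 4 := by positivity
      nlinarith
  have h2 : (E.card : ℝ) * (1 - δ) ≤ ∑ z ∈ zone R T, omega R z := by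
    calc (E.card : ℝ) * (1 - δ) = ∑ _e ∈ E, (1 - δ) := by rw [Finset.sum_const, nsmul_eq_mul]
      _ ≤ ∑ e ∈ E, ∑ z ∈ (zone R T).filter (fun z => R z e), 1 / (dg R e : ℝ) := Finset.sum_le_sum h1
      _ = ∑ z ∈ zone R T, ∑ e ∈ E.filter (fun e => R z e), 1 / (dg R e : ℝ) := by
          simp only [Finset.sum_filter]
          exact Finset.sum_comm
      _ ≤ ∑ z ∈ zone R T, omega R z := by
          apply Finset.sum_le_sum
          intro z _
          apply Finset.sum_le_sum_of_subset_of_nonneg
          · intro e he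
            exact Finset.mem_filter.mpr ⟨Finset.mem_univ _, (Finset.mem_filter.mp he).2⟩
          · intro e _ _; positivity
  by_cases hδ : 0 ≤ δ
  · have h3 : δ * (E.card : ℝ) ≤ δ * Fintype.card V :=
      mul_le_mul_of_nonneg_left (by exact_mod_cast Finset.card_le_univ E) hδ
    linarith
  · push Not at hδ
    have h5 : (0 : ℝ) ≤ (L : ℝ) ^ 4 := by positivity
    have h6 : (0 : ℝ) < d := by exact_mod_cast hd
    nlinarith

/-- **Main bound.** -/
theorem main_bound {α : ℕ → ℝ} {β : ℝ} (h : Wt α β) (a : ℝ) (ha : ∀ k, α k ≤ a) (ε : ℝ) (hε : 0 < ε) :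
    ∃ d : ℕ, ∀ (V : Type*) [Fintype V] (R : V → V → Prop),
      ((mc R (Finset.univ : Finset V) Finset.univ).card : ℝ) ≤
        Real.exp ((a + ε) * Fintype.card V + β * (low R d).card + ∑ z : V, max 0 (β * omega R z - a)) := by
  -- the parameters
  have ha0 : 0 ≤ a := by have := ha 0; rw [h.zero] at this; exact this
  set t : ℝ := max 0 (-Real.log (ε / 8)) with ht
  have ht0 : 0 ≤ t := le_max_left _ _
  have ht1 : Real.exp (-t) ≤ ε / 8 := by
    have h1 : -Real.log (ε / 8) ≤ t := le_max_right _ _
    calc Real.exp (-t) ≤ Real.exp (Real.log (ε / 8)) := Real.exp_le_exp.mpr (by linarith)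
      _ = ε / 8 := Real.exp_log (by positivity)
  obtain ⟨L0, hL0⟩ := exists_nat_ge (24 * t / ε)
  set L : ℕ := L0 + 1 with hL
  have hL1 : 1 ≤ L := by omega
  have hLpos : (0 : ℝ) < L := by exact_mod_cast hL1
  have hL2 : 3 * t / L ≤ ε / 8 := by
    rw [div_le_iff₀ hLpos]
    have h1 : 24 * t / ε ≤ L := hL0.trans (by rw [hL]; push_cast; linarith)
    rw [div_le_iff₀ hε] at h1
    linarith
  set δ : ℝ := ε / (2 * (β + 1)) with hδ
  have hβ1 : 0 < β + 1 := by linarith [h.beta]
  have hδpos : 0 < δ := by positivity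
  have hβδ : β * δ ≤ ε / 2 := by
    rw [hδ, mul_div_assoc', div_le_div_iff₀ (by positivity) (by norm_num)]
    nlinarith [h.beta]
  obtain ⟨d0, hd0⟩ := exists_nat_ge ((L : ℝ) ^ 4 / δ)
  set d : ℕ := d0 + 1 with hd
  have hd1 : 1 ≤ d := by omega
  have hLd : (L : ℝ) ^ 4 ≤ δ * d := by
    have h1 : (L : ℝ) ^ 4 / δ ≤ d := hd0.trans (by rw [hd]; push_cast; linarith)
    rw [div_le_iff₀ hδpos] at h1
    linarith
  refine ⟨d, ?_⟩
  intro V _ R
  set n : ℝ := (Fintype.card V : ℝ) with hn
  have hn0 : 0 ≤ n := Nat.cast_nonneg _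
  set X : ℝ := a * n + β * (low R d).card + ε / 2 * n + ∑ z : V, max 0 (β * omega R z - a) with hX
  have hmain : ∀ T D1 : Finset V, ((mc R ((zone R T)ᶜ) (resid R L T D1)).card : ℝ) ≤ Real.exp X := by
    intro T D1
    refine (cover_bound h R _ _ _ rfl).trans (Real.exp_le_exp.mpr ?_)
    unfold mu
    have h1 : ∑ w ∈ (zone R T)ᶜ, α (sz R w (resid R L T D1)) ≤ a * (n - (zone R T).card) := by
      calc ∑ w ∈ (zone R T)ᶜ, α (sz R w (resid R L T D1)) ≤ ∑ _w ∈ (zone R T)ᶜ, a :=
            Finset.sum_le_sum (fun w _ => ha _)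
        _ = ((zone R T)ᶜ.card : ℝ) * a := by rw [Finset.sum_const, nsmul_eq_mul]
        _ = a * (n - (zone R T).card) := by
            rw [Finset.card_compl, Nat.cast_sub (Finset.card_le_univ _)]; ring
    have h2 : ((resid R L T D1).card : ℝ) ≤ (low R d).card + (∑ z ∈ zone R T, omega R z + δ * n) := by
      have h3 : (resid R L T D1).card ≤ (light R L T).card := Finset.card_le_card (Finset.filter_subset _ _)
      have h4 := Finset.card_filter_add_card_filter_not (s := light R L T) (fun e => dg R e < d)
      have h5 : ((light R L T).filter (fun e => dg R e < d)).card ≤ (low R d).card :=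
        Finset.card_le_card (Finset.filter_subset_filter _ (Finset.subset_univ _))
      have h6 := light_le R L d hd1 δ hLd T
      have h7 : ((resid R L T D1).card : ℝ) ≤ (low R d).card
          + ((light R L T).filter (fun e => ¬ dg R e < d)).card := by
        have : (resid R L T D1).card ≤ (low R d).card + ((light R L T).filter (fun e => ¬ dg R e < d)).card := by
          omega
        exact_mod_cast this
      linarith
    have h3 : β * ((resid R L T D1).card : ℝ) ≤ β * (low R d).card + β * (∑ z ∈ zone R T, omega R z) + ε / 2 * n := by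
      have h4 := mul_le_mul_of_nonneg_left h2 h.beta
      have h5 : β * δ * n ≤ ε / 2 * n := mul_le_mul_of_nonneg_right hβδ hn0
      nlinarith
    have h4 : β * (∑ z ∈ zone R T, omega R z) - a * (zone R T).card ≤ ∑ z : V, max 0 (β * omega R z - a) := by
      calc β * (∑ z ∈ zone R T, omega R z) - a * (zone R T).card
          = ∑ z ∈ zone R T, (β * omega R z - a) := by
            rw [Finset.sum_sub_distrib, Finset.mul_sum, Finset.sum_const, nsmul_eq_mul]; ring
        _ ≤ ∑ z ∈ zone R T, max 0 (β * omega R z - a) := Finset.sum_le_sum (fun z _ => le_max_right _ _)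
        _ ≤ ∑ z : V, max 0 (β * omega R z - a) :=
            Finset.sum_le_sum_of_subset_of_nonneg (Finset.subset_univ _) (fun z _ _ => le_max_left _ _)
    rw [hX]
    linarith
  have hcount := count_bound R L hL1 (Real.exp X) hmain
  refine hcount.trans ?_
  have hsm := card_small (V := V) L hL1 t ht0
  have hsm2 : ((small V L).card : ℝ) ≤ Real.exp (ε / 4 * n) := by
    refine hsm.trans (Real.exp_le_exp.mpr ?_)
    apply mul_le_mul_of_nonneg_right _ hn0
    linarith
  calc ((small V L).card : ℝ) ^ 2 * Real.exp X ≤ (Real.exp (ε / 4 * n)) ^ 2 * Real.exp X := by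
        apply mul_le_mul_of_nonneg_right _ (Real.exp_pos _).le
        exact pow_le_pow_left₀ (Nat.cast_nonneg _) hsm2 2
    _ = Real.exp ((a + ε) * n + β * (low R d).card + ∑ z : V, max 0 (β * omega R z - a)) := by
        rw [← Real.exp_nat_mul, ← Real.exp_add]
        congr 1
        rw [hX]; push_cast; ring

end Pool.Agent.MDS81
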