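import Pool.Agent.MDS81.Assemble

set_option autoImplicit false

/-! Weights given as logarithms: reduction of all numerical conditions to finitely many checks. -/

namespace Pool.Agent.MDS81

open Finset

/-- loss factor of an element of frequency `f` -/
noncomputable def lf (y : ℕ → ℝ) (f : ℕ) : ℝ := y f / y (f - 1)

noncomputable def qp (x y : ℕ → ℝ) (f : ℕ) : ℝ := if f = 2 then y 2 * x 2 else lf y f

noncomputable def lp (x y : ℕ → ℝ) (f : ℕ) : ℝ := if f = 2 then y 2 * x 1 else lf y f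

noncomputable def lp2 (x y : ℕ → ℝ) (f : ℕ) : ℝ := if f = 3 then y 3 * x 1 else y f / y (f - 2)

noncomputable def bigT (x y : ℕ → ℝ) (s f : ℕ) : ℝ :=
  x s * ((y f * (x s / x (s - 1)) ^ (f - 1)) ^ s + (qp x y f) ^ s)

noncomputable def g2T (x y : ℕ → ℝ) (f g : ℕ) : ℝ :=
  x 2 ^ 2 * (x 2 / x 1) ^ (f - 1) * y 2 * y f * lp x y g
    + x 2 ^ 2 * (x 2 / x 1) ^ (g - 1) * y 2 * y g * lp x y f
    + x 2 ^ (max f g) * x 2 * y 2 * y f * y g

noncomputable def g3T (x y l : ℕ → ℝ) (a b c n12 n13 n23 : ℕ) : ℝ :=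
  x 2 ^ 3 * (x 2 / x 1) ^ (a - 1) * y 3 * y a * (l b * l c)
  + x 2 ^ 3 * (x 2 / x 1) ^ (b - 1) * y 3 * y b * (l a * l c)
  + x 2 ^ 3 * (x 2 / x 1) ^ (c - 1) * y 3 * y c * (l a * l b)
  + x 2 ^ n12 * (x 2 / x 1) * y 3 * y a * y b
  + x 2 ^ (n13 + 1) * y 3 * y a * y c * l b
  + x 2 ^ (n23 + 1) * y 3 * y b * y c * l a

/-- loss factor, bounded by one from frequency five on -/
noncomputable def l5 (y : ℕ → ℝ) (f : ℕ) : ℝ := if f ≤ 4 then lf y f else 1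

noncomputable def g3bT (x y : ℕ → ℝ) (f g : ℕ) : ℝ :=
  x 2 ^ 3 * (x 2 / x 1) ^ (f - 2) * y 3 * y f * lf y g
  + x 2 ^ 3 * (x 2 / x 1) ^ (f - 2) * y 3 * y f * lf y g
  + x 2 ^ 3 * (x 2 / x 1) ^ (g - 1) * y 3 * y g * lp2 x y f
  + x 2 ^ (max (f + 1) (g + 2)) * y 3 * y f * y g
  + x 2 ^ (max (f + 1) (g + 2)) * y 3 * y f * y g

noncomputable def g4T (x y : ℕ → ℝ) (f g : ℕ) : ℝ :=
  x 2 * lf y f * lf y g + x 2 ^ f * (x 2 / x 1) ^ 2 * y f * y g + x 2 ^ g * (x 2 / x 1) ^ 2 * y f * y g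

/-- The finite list of checks. -/
structure Chk (x y : ℕ → ℝ) : Prop where
  x0 : x 0 = 1
  y0 : y 0 = 1
  y1 : y 1 = 1
  xpos : 0 < x 6
  ypos : 0 < y 5
  xsat : ∀ k, 6 ≤ k → x k = x 6
  ysat : ∀ f, 5 ≤ f → y f = y 5
  xmono : ∀ k, k < 6 → x (k + 1) ≤ x k
  xconc : ∀ k, k < 5 → x (k + 1) ^ 2 ≤ x k * x (k + 2)
  ymono : ∀ f, f < 5 → y (f + 1) ≤ y f
  big : ∀ s f, 3 ≤ s → s ≤ 7 → 2 ≤ f → f ≤ 6 → bigT x y s f ≤ 1
  x1 : x 1 ≤ 5 / 6
  pure : ∀ f : ℕ, f ≤ 6 → (f : ℝ) * (x 1 ^ f * y f) ≤ 1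
  one2 : x 1 * x 2 * y 2 + x 1 * x 2 * y 2 * y 2 ≤ 1
  one3 : ∀ f, 3 ≤ f → f ≤ 6 → x 1 ^ (f - 1) * x 2 * y f + x 1 * lf y f ≤ 1
  g2 : ∀ f g, 2 ≤ f → f ≤ 6 → 2 ≤ g → g ≤ f → g2T x y f g ≤ 1
  g3a : ∀ a b c, 3 ≤ a → a ≤ 5 → 3 ≤ b → b ≤ 5 → 3 ≤ c → c ≤ 5 →
    g3T x y (l5 y) a b c (max a b + 1) (max (max a c + 1) (a + b + c - max a b))
      (max (max b c + 1) (a + b + c - max a b)) ≤ 1 ∧
    g3T x y (l5 y) a b c (max (max a b + 2) (a + b + c - max a c)) (max a c + 1)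
      (max (max b c + 1) (a + b + c - max a c)) ≤ 1 ∧
    g3T x y (l5 y) a b c (max (max a b + 2) (a + b + c - max b c)) (max (max a c + 2) (a + b + c - max b c))
      (max b c + 1) ≤ 1 ∧
    g3T x y (l5 y) a b c (max a b + 2) (max a c + 2) (max b c + 2) ≤ 1
  g3b : ∀ f g, 3 ≤ f → f ≤ 7 → 3 ≤ g → g ≤ 6 → g3bT x y f g ≤ 1
  g4 : ∀ f g, 4 ≤ f → f ≤ 6 → 4 ≤ g → g ≤ f → g4T x y f g ≤ 1

namespace Chk

variable {x y : ℕ → ℝ}

lemma xanti (h : Chk x y) (k : ℕ) : x (k + 1) ≤ x k := by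
  rcases Nat.lt_or_ge k 6 with hk | hk
  · exact h.xmono k hk
  · rw [h.xsat k hk, h.xsat (k + 1) (by omega)]

lemma yanti (h : Chk x y) (k : ℕ) : y (k + 1) ≤ y k := by
  rcases Nat.lt_or_ge k 5 with hk | hk
  · exact h.ymono k hk
  · rw [h.ysat k hk, h.ysat (k + 1) (by omega)]

lemma xA (h : Chk x y) : Antitone x := antitone_nat_of_succ_le h.xanti
lemma yA (h : Chk x y) : Antitone y := antitone_nat_of_succ_le h.yanti

lemma xp (h : Chk x y) (k : ℕ) : 0 < x k := by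
  rcases Nat.lt_or_ge k 6 with hk | hk
  · exact h.xpos.trans_le (h.xA hk.le)
  · rw [h.xsat k hk]; exact h.xpos

lemma yp (h : Chk x y) (k : ℕ) : 0 < y k := by
  rcases Nat.lt_or_ge k 5 with hk | hk
  · exact h.ypos.trans_le (h.yA hk.le)
  · rw [h.ysat k hk]; exact h.ypos

lemma xle (h : Chk x y) (k : ℕ) : x k ≤ 1 := by rw [← h.x0]; exact h.xA (Nat.zero_le k)
lemma yle (h : Chk x y) (k : ℕ) : y k ≤ 1 := by rw [← h.y0]; exact h.yA (Nat.zero_le k)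

lemma lfp (h : Chk x y) (f : ℕ) : 0 < lf y f := div_pos (h.yp _) (h.yp _)

lemma lfle (h : Chk x y) (f : ℕ) : lf y f ≤ 1 := by
  unfold lf; rw [div_le_one (h.yp _)]; exact h.yA (Nat.sub_le _ _)

lemma l5p (h : Chk x y) (f : ℕ) : 0 < l5 y f := by
  unfold l5; split_ifs
  · exact h.lfp f
  · exact one_pos

lemma lpp (h : Chk x y) (f : ℕ) : 0 < lp x y f := by
  unfold lp; split_ifs
  · exact mul_pos (h.yp _) (h.xp _)
  · exact h.lfp f

lemma qpp (h : Chk x y) (f : ℕ) : 0 < qp x y f := by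
  unfold qp; split_ifs
  · exact mul_pos (h.yp _) (h.xp _)
  · exact h.lfp f

lemma qple (h : Chk x y) (f : ℕ) : qp x y f ≤ 1 := by
  unfold qp; split_ifs
  · exact mul_le_one₀ (h.yle _) (h.xp _).le (h.xle _)
  · exact h.lfle f

lemma lp2p (h : Chk x y) (f : ℕ) : 0 < lp2 x y f := by
  unfold lp2; split_ifs
  · exact mul_pos (h.yp _) (h.xp _)
  · exact div_pos (h.yp _) (h.yp _)

lemma rp (h : Chk x y) (s : ℕ) : 0 < x s / x (s - 1) := div_pos (h.xp _) (h.xp _)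

lemma rle (h : Chk x y) (s : ℕ) : x s / x (s - 1) ≤ 1 := by
  rw [div_le_one (h.xp _)]; exact h.xA (Nat.sub_le _ _)

lemma rho_pos (h : Chk x y) : 0 < x 2 / x 1 := div_pos (h.xp _) (h.xp _)
lemma rho_le (h : Chk x y) : x 2 / x 1 ≤ 1 := by
  rw [div_le_one (h.xp _)]; exact h.xA (by norm_num)

/-- capping -/
lemma ycap (h : Chk x y) (f : ℕ) : y f = y (min f 6) := by
  rcases Nat.le_total f 6 with hf | hf
  · rw [min_eq_left hf]
  · rw [min_eq_right hf, h.ysat f (by omega), h.ysat 6 (by omega)]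

lemma lcap (h : Chk x y) (f : ℕ) : lf y f = lf y (min f 6) := by
  rcases Nat.le_total f 6 with hf | hf
  · rw [min_eq_left hf]
  · rw [min_eq_right hf]; unfold lf
    rw [h.ysat f (by omega), h.ysat (f - 1) (by omega), h.ysat 6 (by omega)]

lemma ycap5 (h : Chk x y) (f : ℕ) : y f = y (min f 5) := by
  rcases Nat.le_total f 5 with hf | hf
  · rw [min_eq_left hf]
  · rw [min_eq_right hf, h.ysat f (by omega)]

lemma lcap5 (h : Chk x y) (f : ℕ) : lf y f ≤ l5 y (min f 5) := by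
  unfold l5
  rcases Nat.lt_or_ge f 5 with hf | hf
  · rw [min_eq_left hf.le, if_pos (by omega)]
  · rw [min_eq_right hf, if_neg (by omega)]; exact h.lfle f

lemma lpcap (h : Chk x y) (f : ℕ) : lp x y f = lp x y (min f 6) := by
  rcases Nat.le_total f 6 with hf | hf
  · rw [min_eq_left hf]
  · rw [min_eq_right hf]; unfold lp
    rw [if_neg (by omega), if_neg (by omega), h.lcap f, min_eq_right hf]

lemma qpcap (h : Chk x y) (f : ℕ) : qp x y f = qp x y (min f 6) := by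
  rcases Nat.le_total f 6 with hf | hf
  · rw [min_eq_left hf]
  · rw [min_eq_right hf]; unfold qp
    rw [if_neg (by omega), if_neg (by omega), h.lcap f, min_eq_right hf]

lemma pow_anti {r : ℝ} (h0 : 0 ≤ r) (h1 : r ≤ 1) {m n : ℕ} (hmn : m ≤ n) : r ^ n ≤ r ^ m :=
  pow_le_pow_of_le_one h0 h1 hmn

end Chk

end Pool.Agent.MDS81
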