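import Pool.Agent.MDS81.Prod

set_option autoImplicit false

/-! From the finite checks to the numerical conditions. -/

namespace Pool.Agent.MDS81

open Finset

/-- logarithmic weights -/
noncomputable def lg (x : ℕ → ℝ) (k : ℕ) : ℝ := -Real.log (x k)

lemma exp_neg_nat_mul (n : ℕ) (u : ℝ) : Real.exp (-((n : ℝ) * u)) = Real.exp (-u) ^ n := by
  rw [← mul_neg, Real.exp_nat_mul]

lemma exp_neg_add (u v : ℝ) : Real.exp (-(u + v)) = Real.exp (-u) * Real.exp (-v) := by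
  rw [neg_add, Real.exp_add]

lemma exp_lg {x : ℕ → ℝ} {k : ℕ} (h : 0 < x k) : Real.exp (-(lg x k)) = x k := by
  unfold lg; rw [neg_neg, Real.exp_log h]

lemma exp_lg_sub {x : ℕ → ℝ} {k l : ℕ} (h : 0 < x k) (h' : 0 < x l) :
    Real.exp (-(lg x k - lg x l)) = x k / x l := by
  unfold lg
  rw [show -(-Real.log (x k) - -Real.log (x l)) = Real.log (x k) - Real.log (x l) by ring,
    Real.exp_sub, Real.exp_log h, Real.exp_log h']

lemma cast_pred {f : ℕ} (hf : 1 ≤ f) : ((f : ℝ) - 1) = ((f - 1 : ℕ) : ℝ) := by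
  rw [Nat.cast_sub hf]; simp

lemma cast_pred2 {f : ℕ} (hf : 2 ≤ f) : ((f : ℝ) - 2) = ((f - 2 : ℕ) : ℝ) := by
  rw [Nat.cast_sub hf]; simp

namespace Chk

variable {x y : ℕ → ℝ}

lemma eA (h : Chk x y) (k : ℕ) : Real.exp (-(lg x k)) = x k := exp_lg (h.xp k)
lemma eB (h : Chk x y) (k : ℕ) : Real.exp (-(lg y k)) = y k := exp_lg (h.yp k)
lemma eAs (h : Chk x y) (k l : ℕ) : Real.exp (-(lg x k - lg x l)) = x k / x l := exp_lg_sub (h.xp k) (h.xp l)
lemma eBs (h : Chk x y) (k l : ℕ) : Real.exp (-(lg y k - lg y l)) = y k / y l := exp_lg_sub (h.yp k) (h.yp l)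

lemma shape (h : Chk x y) : Shape (lg x) (lg y) := by
  refine ⟨?_, ?_, ?_, ?_, ?_, ?_⟩
  · unfold lg; rw [h.x0]; simp
  · unfold lg; rw [h.y0]; simp
  · unfold lg; rw [h.y1]; simp
  · intro k
    unfold lg
    exact neg_le_neg (Real.log_le_log (h.xp _) (h.xanti k))
  · intro k
    have key : x (k + 1) ^ 2 ≤ x k * x (k + 2) := by
      rcases Nat.lt_or_ge k 5 with hk | hk
      · exact h.xconc k hk
      · rw [h.xsat (k + 2) (by omega), h.xsat (k + 1) (by omega), pow_two]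
        have h1 : x 6 ≤ x k := by
          rcases Nat.lt_or_ge k 6 with h2 | h2
          · exact h.xA h2.le
          · rw [h.xsat k h2]
        exact mul_le_mul_of_nonneg_right h1 h.xpos.le
    have h1 := Real.log_le_log (pow_pos (h.xp (k + 1)) 2) key
    rw [Real.log_pow, Real.log_mul (h.xp _).ne' (h.xp _).ne'] at h1
    unfold lg
    push_cast at h1
    linarith
  · intro k
    unfold lg
    exact neg_le_neg (Real.log_le_log (h.yp _) (h.yanti k))

lemma eqq (h : Chk x y) (f : ℕ) : Real.exp (-(qq (lg x) (lg y) f)) = qp x y f := by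
  unfold qq qp lf
  split_ifs
  · rw [exp_neg_add, h.eA, h.eB]
  · exact h.eBs _ _

lemma elose (h : Chk x y) (f : ℕ) : Real.exp (-(lose (lg x) (lg y) f)) = lp x y f := by
  unfold lose lp lf
  split_ifs
  · rw [exp_neg_add, h.eA, h.eB]
  · exact h.eBs _ _

lemma elose2 (h : Chk x y) (f : ℕ) : Real.exp (-(lose2 (lg x) (lg y) f)) = lp2 x y f := by
  unfold lose2 lp2
  split_ifs
  · rw [exp_neg_add, h.eA, h.eB]
  · exact h.eBs _ _

lemma big' (h : Chk x y) (s : ℕ) (hs : 2 ≤ s) (f : ℕ) (hf : 2 ≤ f) :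
    Real.exp (-(((s + 1 : ℕ) : ℝ) * (lg y f + ((f : ℝ) - 1) * (lg x (s + 1) - lg x s))))
      + Real.exp (-(((s + 1 : ℕ) : ℝ) * qq (lg x) (lg y) f)) ≤ Real.exp (lg x (s + 1)) := by
  rw [exp_neg_nat_mul, exp_neg_nat_mul, h.eqq, exp_neg_add, h.eB, cast_pred (by omega), exp_neg_nat_mul,
    h.eAs]
  have hx := h.xp (s + 1)
  have hinv : Real.exp (lg x (s + 1)) = (x (s + 1))⁻¹ := by
    unfold lg; rw [Real.exp_neg, Real.exp_log hx]
  rw [hinv, ← one_div, le_div_iff₀ hx, mul_comm]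
  set S := min (s + 1) 7 with hS
  set F := min f 6 with hF
  have hS3 : 3 ≤ S := by omega
  have hchk := h.big S F hS3 (by omega) (by omega) (by omega)
  unfold bigT at hchk
  have e1 : x (s + 1) = x S := by
    rcases Nat.le_total (s + 1) 7 with h1 | h1
    · rw [hS, min_eq_left h1]
    · rw [hS, min_eq_right h1, h.xsat _ (by omega), h.xsat 7 (by omega)]
  have e2 : x (s + 1) / x s = x S / x (S - 1) := by
    rcases Nat.le_total (s + 1) 7 with h1 | h1
    · rw [hS, min_eq_left h1]; rfl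
    · rw [hS, min_eq_right h1, h.xsat _ (by omega), h.xsat s (by omega), h.xsat 7 (by omega)]
  have e3 : y f = y F := h.ycap f
  have e4 : qp x y f = qp x y F := h.qpcap f
  rw [e2, e3, e4, e1]
  refine le_trans ?_ hchk
  have hr0 := (h.rp S).le
  have hr1 := h.rle S
  have p1 : (x S / x (S - 1)) ^ (f - 1) ≤ (x S / x (S - 1)) ^ (F - 1) := pow_anti hr0 hr1 (by omega)
  have hb0 : 0 ≤ y F * (x S / x (S - 1)) ^ (F - 1) := mul_nonneg (h.yp _).le (pow_nonneg hr0 _)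
  have hb1 : y F * (x S / x (S - 1)) ^ (F - 1) ≤ 1 :=
    mul_le_one₀ (h.yle _) (pow_nonneg hr0 _) (pow_le_one₀ hr0 hr1)
  have p2 : (y F * (x S / x (S - 1)) ^ (f - 1)) ^ (s + 1) ≤ (y F * (x S / x (S - 1)) ^ (F - 1)) ^ S := by
    calc (y F * (x S / x (S - 1)) ^ (f - 1)) ^ (s + 1)
        ≤ (y F * (x S / x (S - 1)) ^ (F - 1)) ^ (s + 1) :=
          pow_le_pow_left₀ (mul_nonneg (h.yp _).le (pow_nonneg hr0 _))
            (mul_le_mul_of_nonneg_left p1 (h.yp _).le) _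
      _ ≤ _ := pow_anti hb0 hb1 (by omega)
  have p3 : (qp x y F) ^ (s + 1) ≤ (qp x y F) ^ S := pow_anti (h.qpp F).le (h.qple F) (by omega)
  exact mul_le_mul_of_nonneg_left (add_le_add p2 p3) (h.xp S).le

lemma pure' (h : Chk x y) (f : ℕ) : (f : ℝ) ≤ Real.exp (lg x 1 * f + lg y f) := by
  have hx := h.xp 1
  have key : (f : ℝ) * (x 1 ^ f * y f) ≤ 1 := by
    rcases Nat.le_total f 6 with hf | hf
    · exact h.pure f hf
    · have h6 := h.pure 6 le_rfl
      rw [h.ysat f (by omega)]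
      rw [h.ysat 6 (by omega)] at h6
      refine Nat.le_induction (m := 6) (P := fun f _ => (f : ℝ) * (x 1 ^ f * y 5) ≤ 1) h6 ?_ f hf
      intro n hn ih
      refine le_trans ?_ ih
      have hn6 : (6 : ℝ) ≤ n := by exact_mod_cast hn
      have h1 : ((n : ℝ) + 1) * x 1 ≤ n := by
        have := mul_le_mul_of_nonneg_left h.x1 (by linarith : (0:ℝ) ≤ (n : ℝ) + 1)
        linarith
      have h2 : 0 ≤ x 1 ^ n * y 5 := mul_nonneg (pow_nonneg hx.le _) h.ypos.le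
      calc ((n + 1 : ℕ) : ℝ) * (x 1 ^ (n + 1) * y 5) = (((n : ℝ) + 1) * x 1) * (x 1 ^ n * y 5) := by
            push_cast; ring
        _ ≤ (n : ℝ) * (x 1 ^ n * y 5) := mul_le_mul_of_nonneg_right h1 h2
  have hpos : 0 < x 1 ^ f * y f := mul_pos (pow_pos hx _) (h.yp f)
  have he : Real.exp (lg x 1 * f + lg y f) = (x 1 ^ f * y f)⁻¹ := by
    have h1 : Real.exp (-(lg x 1 * f + lg y f)) = x 1 ^ f * y f := by
      rw [exp_neg_add, mul_comm (lg x 1), exp_neg_nat_mul, h.eA, h.eB]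
    rw [← h1, Real.exp_neg, inv_inv]
  rw [he, ← one_div, le_div_iff₀ hpos]
  exact key

lemma one3' (h : Chk x y) (f : ℕ) (hf : 3 ≤ f) : Real.exp (-(((f : ℝ) - 1) * lg x 1 + lg x 2 + lg y f)) +
      Real.exp (-(lg x 1 + (lg y f - lg y (f - 1)))) ≤ 1 := by
  rw [exp_neg_add, exp_neg_add, exp_neg_add, cast_pred (by omega), exp_neg_nat_mul, h.eA, h.eA, h.eB, h.eBs]
  have hchk := h.one3 (min f 6) (by omega) (by omega)
  refine le_trans ?_ hchk
  rw [show y f / y (f - 1) = lf y f from rfl, h.lcap f, h.ycap f]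
  have p1 : x 1 ^ (f - 1) ≤ x 1 ^ (min f 6 - 1) := pow_anti (h.xp 1).le (h.xle 1) (by omega)
  have := h.xp 2
  have := h.yp (min f 6)
  gcongr

lemma g2sym (f g : ℕ) : g2T x y f g = g2T x y g f := by
  unfold g2T; rw [max_comm]; ring

lemma g2all (h : Chk x y) (f g : ℕ) (hf : 2 ≤ f) (hf6 : f ≤ 6) (hg : 2 ≤ g) (hg6 : g ≤ 6) :
    g2T x y f g ≤ 1 := by
  rcases Nat.le_total g f with h1 | h1
  · exact h.g2 f g hf hf6 hg h1
  · rw [g2sym]; exact h.g2 g f hg hg6 hf h1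

lemma g2' (h : Chk x y) (f f' : ℕ) (hf : 2 ≤ f) (hf' : 2 ≤ f') :
      Real.exp (-(2 * lg x 2 + ((f : ℝ) - 1) * (lg x 2 - lg x 1) + lg y 2 + lg y f + lose (lg x) (lg y) f'))
      + Real.exp (-(2 * lg x 2 + ((f' : ℝ) - 1) * (lg x 2 - lg x 1) + lg y 2 + lg y f' + lose (lg x) (lg y) f))
      + Real.exp (-(((max f f' : ℕ) : ℝ) * lg x 2 + lg x 2 + lg y 2 + lg y f + lg y f')) ≤ 1 := by
  have h2 : (2 : ℝ) * lg x 2 = ((2 : ℕ) : ℝ) * lg x 2 := by norm_num
  rw [h2, cast_pred (by omega), cast_pred (by omega : 1 ≤ f')]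
  simp only [exp_neg_add, exp_neg_nat_mul, h.eA, h.eB, h.eAs, h.elose]
  have hchk := h.g2all (min f 6) (min f' 6) (by omega) (by omega) (by omega) (by omega)
  refine le_trans ?_ hchk
  unfold g2T
  rw [h.ycap f, h.ycap f', h.lpcap f, h.lpcap f']
  have hr0 := h.rho_pos.le
  have hr1 := h.rho_le
  have p1 : (x 2 / x 1) ^ (f - 1) ≤ (x 2 / x 1) ^ (min f 6 - 1) := pow_anti hr0 hr1 (by omega)
  have p2 : (x 2 / x 1) ^ (f' - 1) ≤ (x 2 / x 1) ^ (min f' 6 - 1) := pow_anti hr0 hr1 (by omega)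
  have p3 : x 2 ^ (max f f') ≤ x 2 ^ (max (min f 6) (min f' 6)) := pow_anti (h.xp 2).le (h.xle 2) (by omega)
  have := h.xp 2
  have := h.yp (min f 6)
  have := h.yp (min f' 6)
  have := h.yp 2
  have := h.lpp (min f 6)
  have := h.lpp (min f' 6)
  gcongr

lemma g4sym (f g : ℕ) : g4T x y f g = g4T x y g f := by
  unfold g4T; ring

lemma g4all (h : Chk x y) (f g : ℕ) (hf : 4 ≤ f) (hf6 : f ≤ 6) (hg : 4 ≤ g) (hg6 : g ≤ 6) :
    g4T x y f g ≤ 1 := by
  rcases Nat.le_total g f with h1 | h1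
  · exact h.g4 f g hf hf6 hg h1
  · rw [g4sym]; exact h.g4 g f hg hg6 hf h1

lemma g4' (h : Chk x y) (f f' : ℕ) (hf : 4 ≤ f) (hf' : 4 ≤ f') :
      Real.exp (-(lg x 2 + (lg y f - lg y (f - 1)) + (lg y f' - lg y (f' - 1))))
      + Real.exp (-((f : ℝ) * lg x 2 + 2 * (lg x 2 - lg x 1) + lg y f + lg y f'))
      + Real.exp (-((f' : ℝ) * lg x 2 + 2 * (lg x 2 - lg x 1) + lg y f + lg y f')) ≤ 1 := by
  have h2 : (2 : ℝ) * (lg x 2 - lg x 1) = ((2 : ℕ) : ℝ) * (lg x 2 - lg x 1) := by norm_num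
  rw [h2]
  simp only [exp_neg_add, exp_neg_nat_mul, h.eA, h.eB, h.eAs, h.eBs]
  have hchk := h.g4all (min f 6) (min f' 6) (by omega) (by omega) (by omega) (by omega)
  refine le_trans ?_ hchk
  unfold g4T
  rw [show y f / y (f - 1) = lf y f from rfl, show y f' / y (f' - 1) = lf y f' from rfl,
    h.ycap f, h.ycap f', h.lcap f, h.lcap f']
  have p1 : x 2 ^ f ≤ x 2 ^ (min f 6) := pow_anti (h.xp 2).le (h.xle 2) (by omega)
  have p2 : x 2 ^ f' ≤ x 2 ^ (min f' 6) := pow_anti (h.xp 2).le (h.xle 2) (by omega)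
  have := h.xp 2
  have := h.yp (min f 6)
  have := h.yp (min f' 6)
  have := h.rho_pos
  gcongr

lemma lp2cap (h : Chk x y) (f : ℕ) : lp2 x y f = lp2 x y (min f 7) := by
  rcases Nat.le_total f 7 with hf | hf
  · rw [min_eq_left hf]
  · rw [min_eq_right hf]; unfold lp2
    rw [if_neg (by omega), if_neg (by omega), h.ysat f (by omega), h.ysat (f - 2) (by omega),
      h.ysat 7 (by omega), h.ysat (7 - 2) (by omega)]

lemma ycap7 (h : Chk x y) (f : ℕ) : y f = y (min f 7) := by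
  rcases Nat.le_total f 7 with hf | hf
  · rw [min_eq_left hf]
  · rw [min_eq_right hf, h.ysat f (by omega), h.ysat 7 (by omega)]

lemma g3b' (h : Chk x y) : G3b (lg x) (lg y) := by
  intro f g hf hg
  have h2 : (3 : ℝ) * lg x 2 = ((3 : ℕ) : ℝ) * lg x 2 := by norm_num
  rw [h2, cast_pred (by omega : 1 ≤ g), cast_pred2 (by omega)]
  simp only [exp_neg_add, exp_neg_nat_mul, h.eA, h.eB, h.eAs, h.eBs, h.elose2]
  have hchk := h.g3b (min f 7) (min g 6) (by omega) (by omega) (by omega) (by omega)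
  refine le_trans ?_ hchk
  unfold g3bT
  rw [show y g / y (g - 1) = lf y g from rfl, h.ycap7 f, h.ycap g, h.lcap g, h.lp2cap f]
  have hr0 := h.rho_pos.le
  have hr1 := h.rho_le
  have p1 : (x 2 / x 1) ^ (f - 2) ≤ (x 2 / x 1) ^ (min f 7 - 2) := pow_anti hr0 hr1 (by omega)
  have p2 : (x 2 / x 1) ^ (g - 1) ≤ (x 2 / x 1) ^ (min g 6 - 1) := pow_anti hr0 hr1 (by omega)
  have p3 : x 2 ^ (max (f + 1) (g + 2)) ≤ x 2 ^ (max (min f 7 + 1) (min g 6 + 2)) :=
    pow_anti (h.xp 2).le (h.xle 2) (by omega)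
  have := h.xp 2
  have := h.yp (min f 7)
  have := h.yp (min g 6)
  have := h.yp 3
  have := h.lfp (min g 6)
  have := h.lp2p (min f 7)
  gcongr

lemma g3T_anti (h : Chk x y) {a b c n12 n13 n23 m12 m13 m23 : ℕ} (h1 : m12 ≤ n12) (h2 : m13 ≤ n13)
    (h3 : m23 ≤ n23) : g3T x y (l5 y) a b c n12 n13 n23 ≤ g3T x y (l5 y) a b c m12 m13 m23 := by
  have p1 : x 2 ^ n12 ≤ x 2 ^ m12 := pow_anti (h.xp 2).le (h.xle 2) h1
  have p2 : x 2 ^ (n13 + 1) ≤ x 2 ^ (m13 + 1) := pow_anti (h.xp 2).le (h.xle 2) (by omega)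
  have p3 : x 2 ^ (n23 + 1) ≤ x 2 ^ (m23 + 1) := pow_anti (h.xp 2).le (h.xle 2) (by omega)
  have := h.xp 2
  have := h.yp 3
  have := h.yp a
  have := h.yp b
  have := h.yp c
  have := h.l5p a
  have := h.l5p b
  have := h.rho_pos
  unfold g3T
  gcongr

lemma g3T_cap (h : Chk x y) (a b c n12 n13 n23 : ℕ) :
    g3T x y (lf y) a b c n12 n13 n23 ≤ g3T x y (l5 y) (min a 5) (min b 5) (min c 5) n12 n13 n23 := by
  unfold g3T
  rw [h.ycap5 a, h.ycap5 b, h.ycap5 c]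
  have hr0 := h.rho_pos.le
  have hr1 := h.rho_le
  have p1 : (x 2 / x 1) ^ (a - 1) ≤ (x 2 / x 1) ^ (min a 5 - 1) := pow_anti hr0 hr1 (by omega)
  have p2 : (x 2 / x 1) ^ (b - 1) ≤ (x 2 / x 1) ^ (min b 5 - 1) := pow_anti hr0 hr1 (by omega)
  have p3 : (x 2 / x 1) ^ (c - 1) ≤ (x 2 / x 1) ^ (min c 5 - 1) := pow_anti hr0 hr1 (by omega)
  have q1 := h.lcap5 a
  have q2 := h.lcap5 b
  have q3 := h.lcap5 c
  have := h.xp 2
  have := h.yp 3
  have := h.yp (min a 5)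
  have := h.yp (min b 5)
  have := h.yp (min c 5)
  have := h.lfp a
  have := h.lfp b
  have := h.lfp c
  have := h.l5p (min a 5)
  have := h.l5p (min b 5)
  have := h.l5p (min c 5)
  gcongr

lemma g3a' (h : Chk x y) : G3a (lg x) (lg y) := by
  intro f1 f2 f3 n12 n13 n23 hf1 hf2 hf3 b12 b13 b23 s1 s2 s3
  have h2 : (3 : ℝ) * lg x 2 = ((3 : ℕ) : ℝ) * lg x 2 := by norm_num
  have h3 : ((n13 : ℝ) + 1) = ((n13 + 1 : ℕ) : ℝ) := by push_cast; rfl
  have h4 : ((n23 : ℝ) + 1) = ((n23 + 1 : ℕ) : ℝ) := by push_cast; rfl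
  rw [h2, h3, h4, cast_pred (by omega : 1 ≤ f1), cast_pred (by omega : 1 ≤ f2), cast_pred (by omega : 1 ≤ f3)]
  simp only [exp_neg_add, exp_neg_nat_mul, h.eA, h.eB, h.eAs, h.eBs]
  have hgoal : g3T x y (lf y) f1 f2 f3 n12 n13 n23 ≤ 1 := by
    refine (h.g3T_cap f1 f2 f3 n12 n13 n23).trans ?_
    set a := min f1 5 with ha
    set b := min f2 5 with hb
    set c := min f3 5 with hc
    obtain ⟨c1, c2, c3, c4⟩ := h.g3a a b c (by omega) (by omega) (by omega) (by omega) (by omega) (by omega)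
    by_cases k1 : n12 ≤ max a b + 1
    · exact (h.g3T_anti (by omega) (by omega) (by omega)).trans c1
    by_cases k2 : n13 ≤ max a c + 1
    · exact (h.g3T_anti (by omega) (by omega) (by omega)).trans c2
    by_cases k3 : n23 ≤ max b c + 1
    · exact (h.g3T_anti (by omega) (by omega) (by omega)).trans c3
    · exact (h.g3T_anti (by omega) (by omega) (by omega)).trans c4
  unfold g3T lf at hgoal
  exact hgoal

/-- All numerical conditions follow from the finite checks. -/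
theorem conds (h : Chk x y) : Conds (lg x) (lg y) := by
  refine ⟨h.shape, h.big', h.pure', ?_, h.one3', h.g2', h.g3a', h.g3b', h.g4'⟩
  simp only [exp_neg_add, h.eA, h.eB]
  exact h.one2

end Chk

/-- The measure of the whole vertex set. -/
theorem cover_le {x y : ℕ → ℝ} (h : Chk x y) {ι κ : Type*} (R : ι → κ → Prop) (A : Finset ι) (B : Finset κ) :
    ((mc R A B).card : ℝ) ≤ Real.exp (lg x 6 * A.card + lg y 5 * B.card) := by
  refine (cover_bound2 h.conds R A B).trans (Real.exp_le_exp.mpr ?_)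
  have h1 : ∀ k, lg x k ≤ lg x 6 := by
    intro k
    unfold lg
    refine neg_le_neg (Real.log_le_log (h.xp _) ?_)
    rcases Nat.lt_or_ge k 6 with hk | hk
    · exact h.xA hk.le
    · rw [h.xsat k hk]
  have h2 : ∀ k, lg y k ≤ lg y 5 := by
    intro k
    unfold lg
    refine neg_le_neg (Real.log_le_log (h.yp _) ?_)
    rcases Nat.lt_or_ge k 5 with hk | hk
    · exact h.yA hk.le
    · rw [h.ysat k hk]
  unfold mu2
  have e1 : ∑ w ∈ A, lg x (sz R w B) ≤ ∑ _w ∈ A, lg x 6 := Finset.sum_le_sum (fun w _ => h1 _)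
  have e2 : ∑ e ∈ B, lg y (fr R A e) ≤ ∑ _e ∈ B, lg y 5 := Finset.sum_le_sum (fun w _ => h2 _)
  rw [Finset.sum_const, nsmul_eq_mul] at e1 e2
  linarith

end Pool.Agent.MDS81
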