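import Pool.Agent.MDS81.Big

set_option autoImplicit false

/-! The steps on choosers of size one. -/

namespace Pool.Agent.MDS81

open Finset
open scoped Classical

variable {ι κ : Type*}

/-- choosers of an element -/
noncomputable def cho (R : ι → κ → Prop) (A : Finset ι) (x : κ) : Finset ι := A.filter (fun w => R w x)

lemma card_cho (R : ι → κ → Prop) (A : Finset ι) (x : κ) : (cho R A x).card = fr R A x := rfl

lemma mem_cho {R : ι → κ → Prop} {A : Finset ι} {x : κ} {w : ι} : w ∈ cho R A x ↔ w ∈ A ∧ R w x :=
  Finset.mem_filter

/-- a chooser of size one covers only `x` -/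
lemma one_cov {R : ι → κ → Prop} {B : Finset κ} {u : ι} {x : κ} (hu : sz R u B = 1) (hx : x ∈ B)
    (hux : R u x) : ∀ e ∈ B, R u e → e = x := by
  intro e he hue
  exact Finset.card_le_one.mp (le_of_eq hu) e (Finset.mem_filter.mpr ⟨he, hue⟩) x (Finset.mem_filter.mpr ⟨hx, hux⟩)

lemma one_in {R : ι → κ → Prop} {A : Finset ι} {B : Finset κ} {u : ι} {x : κ} (hu : sz R u B = 1)
    (hx : x ∈ B) (hux : R u x) (hA : u ∈ A) {D : Finset ι} (hD : D ∈ mc R A B) (huD : u ∈ D) :
    D ∩ cho R A x = {u} := by
  rw [mem_mc] at hD
  obtain ⟨e, he, hue, huniq⟩ := hD.2.2 u huD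
  have hex := one_cov hu hx hux e he hue
  subst hex
  ext y
  rw [Finset.mem_inter, mem_cho, Finset.mem_singleton]
  constructor
  · rintro ⟨hyD, hyA, hye⟩
    exact huniq y hyD hye
  · rintro rfl
    exact ⟨huD, hA, hux⟩

lemma one_filter {R : ι → κ → Prop} {B : Finset κ} {u : ι} {x : κ} (hu : sz R u B = 1) (hx : x ∈ B)
    (hux : R u x) : B.filter (fun e => ∀ w ∈ ({u} : Finset ι), ¬ R w e) = B.erase x := by
  ext e
  rw [Finset.mem_filter, Finset.mem_erase]
  constructor
  · rintro ⟨he, h⟩
    refine ⟨?_, he⟩
    rintro rfl
    exact h u (Finset.mem_singleton_self _) hux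
  · rintro ⟨hne, he⟩
    refine ⟨he, ?_⟩
    intro w hw hwe
    rw [Finset.mem_singleton] at hw
    subst hw
    exact hne (one_cov hu hx hux e he hwe)

/-- the count of covers containing a size-one chooser -/
lemma one_count {R : ι → κ → Prop} {A : Finset ι} {B : Finset κ} {u : ι} {x : κ} (hu : sz R u B = 1)
    (hx : x ∈ B) (hux : R u x) (hA : u ∈ A) :
    ((mc R A B).filter (fun D => u ∈ D)).card ≤ (mc R (A \ cho R A x) (B.erase x)).card := by
  have h := mc_take (R := R) (A := A) (B := B) {u} (cho R A x) ((mc R A B).filter (fun D => u ∈ D))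
    (Finset.filter_subset _ _) (fun D hD => one_in hu hx hux hA (Finset.mem_filter.mp hD).1 (Finset.mem_filter.mp hD).2)
  rw [one_filter hu hx hux] at h
  exact h

/-- gain when all choosers of `x` are removed together with `x` -/
lemma gain_star {R : ι → κ → Prop} {α β : ℕ → ℝ} (h : Shape α β) {A : Finset ι} {B : Finset κ} {x : κ}
    (hx : x ∈ B) : mu2 R α β (A \ cho R A x) (B.erase x) + (∑ w ∈ cho R A x, α (sz R w B) + β (fr R A x))
      ≤ mu2 R α β A B := by
  have hgain := mu2_gain (R := R) (α := α) (β := β) (A := A) (A' := A \ cho R A x) (B := B) (B' := B.erase x)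
      Finset.sdiff_subset (Finset.erase_subset _ _)
      (fun w => if R w x then α (sz R w B) else 0)
      (fun e => if e = x then β (fr R A x) else 0)
      (by
        intro w hw hnot
        have : R w x := by
          by_contra hne
          exact hnot (Finset.mem_sdiff.mpr ⟨hw, fun hc => hne (mem_cho.mp hc).2⟩)
        simp [this])
      (by
        intro w hw
        have hw' := Finset.mem_sdiff.mp hw
        have : ¬ R w x := fun hc => hw'.2 (mem_cho.mpr ⟨hw'.1, hc⟩)
        simp only [this, if_false, zero_add]
        exact h.am (sz_mono w (Finset.erase_subset _ _)))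
      (by
        intro e he hnot
        have : e = x := by
          by_contra hne
          exact hnot (Finset.mem_erase.mpr ⟨hne, he⟩)
        subst this; simp)
      (by
        intro e he
        have : e ≠ x := (Finset.mem_erase.mp he).1
        simp only [this, if_false, zero_add]
        exact h.bm (fr_mono e Finset.sdiff_subset))
  have e1 : ∑ w ∈ A, (if R w x then α (sz R w B) else 0) = ∑ w ∈ cho R A x, α (sz R w B) := by
    unfold cho; rw [Finset.sum_filter]
  have e2 : ∑ e ∈ B, (if e = x then β (fr R A x) else 0) = β (fr R A x) := by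
    rw [Finset.sum_ite_eq' B x (fun _ => β (fr R A x))]; simp [hx]
  rw [e1, e2] at hgain
  exact hgain

/-- all choosers of `x` have size one -/
theorem pure_step {R : ι → κ → Prop} {α β : ℕ → ℝ} (h : Shape α β) {A : Finset ι} {B : Finset κ} {x : κ}
    (hx : x ∈ B) (hone : ∀ w ∈ A, R w x → sz R w B = 1)
    (hpure : ∀ f : ℕ, (f : ℝ) ≤ Real.exp (α 1 * f + β f))
    (IH : ∀ (A' : Finset ι) (B' : Finset κ), A'.card + B'.card < A.card + B.card →
      ((mc R A' B').card : ℝ) ≤ Real.exp (mu2 R α β A' B')) :
    ((mc R A B).card : ℝ) ≤ Real.exp (mu2 R α β A B) := by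
  have hsub : mc R A B ⊆ (cho R A x).biUnion (fun u => (mc R A B).filter (fun D => u ∈ D)) := by
    intro D hD
    have hD' := mem_mc.mp hD
    obtain ⟨u, hu, hux⟩ := hD'.2.1 x hx
    rw [Finset.mem_biUnion]
    exact ⟨u, mem_cho.mpr ⟨hD'.1 hu, hux⟩, Finset.mem_filter.mpr ⟨hD, hu⟩⟩
  have hcard : (mc R A B).card ≤ fr R A x * (mc R (A \ cho R A x) (B.erase x)).card := by
    calc (mc R A B).card ≤ _ := Finset.card_le_card hsub
      _ ≤ ∑ u ∈ cho R A x, ((mc R A B).filter (fun D => u ∈ D)).card := Finset.card_biUnion_le
      _ ≤ ∑ _u ∈ cho R A x, (mc R (A \ cho R A x) (B.erase x)).card :=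
          Finset.sum_le_sum (fun u hu => one_count (hone u (mem_cho.mp hu).1 (mem_cho.mp hu).2) hx
            (mem_cho.mp hu).2 (mem_cho.mp hu).1)
      _ = _ := by rw [Finset.sum_const, smul_eq_mul]; rfl
  have hlt : (A \ cho R A x).card + (B.erase x).card < A.card + B.card := by
    have h1 := Finset.card_erase_lt_of_mem hx
    have h2 := Finset.card_le_card (Finset.sdiff_subset : A \ cho R A x ⊆ A)
    omega
  have h1 := IH _ _ hlt
  have h2 := gain_star (R := R) h (A := A) hx
  have h3 : ∑ w ∈ cho R A x, α (sz R w B) = α 1 * fr R A x := by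
    have : ∀ w ∈ cho R A x, α (sz R w B) = α 1 := by
      intro w hw
      rw [hone w (mem_cho.mp hw).1 (mem_cho.mp hw).2]
    rw [Finset.sum_congr rfl this, Finset.sum_const, nsmul_eq_mul, card_cho, mul_comm]
  rw [h3] at h2
  calc ((mc R A B).card : ℝ) ≤ (fr R A x : ℝ) * ((mc R (A \ cho R A x) (B.erase x)).card : ℝ) := by
        exact_mod_cast hcard
    _ ≤ Real.exp (α 1 * fr R A x + β (fr R A x)) * Real.exp (mu2 R α β (A \ cho R A x) (B.erase x)) :=
        mul_le_mul (hpure _) h1 (Nat.cast_nonneg _) (Real.exp_pos _).le
    _ = Real.exp (mu2 R α β (A \ cho R A x) (B.erase x) + (α 1 * fr R A x + β (fr R A x))) := by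
        rw [← Real.exp_add]; congr 1; ring
    _ ≤ _ := Real.exp_le_exp.mpr h2

/-- a size-one chooser `u` of `x` together with a larger chooser `g` of `x` -/
theorem one_step {R : ι → κ → Prop} {α β : ℕ → ℝ} (h : Shape α β) {A : Finset ι} {B : Finset κ} {x : κ}
    (hred : Reduced R A B) (hsz1 : ∀ w ∈ A, 1 ≤ sz R w B)
    (hx : x ∈ B) {u g : ι} (hu : u ∈ A) (hux : R u x) (hu1 : sz R u B = 1) (hg : g ∈ A) (hgx : R g x)
    (hg2 : 2 ≤ sz R g B)
    (h2 : Real.exp (-(α 1 + α 2 + β 2)) + Real.exp (-(α 1 + α 2 + β 2 + β 2)) ≤ 1)
    (h3 : ∀ f : ℕ, 3 ≤ f → Real.exp (-(((f : ℝ) - 1) * α 1 + α 2 + β f)) +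
      Real.exp (-(α 1 + (β f - β (f - 1)))) ≤ 1)
    (IH : ∀ (A' : Finset ι) (B' : Finset κ), A'.card + B'.card < A.card + B.card →
      ((mc R A' B').card : ℝ) ≤ Real.exp (mu2 R α β A' B')) :
    ((mc R A B).card : ℝ) ≤ Real.exp (mu2 R α β A B) := by
  have hug : u ≠ g := by rintro rfl; omega
  set f := fr R A x with hf
  have hf2 : 2 ≤ f := hred.fr2 x hx
  -- in
  have hin : (((mc R A B).filter (fun D => u ∈ D)).card : ℝ) ≤
      Real.exp (mu2 R α β A B - (((f : ℝ) - 1) * α 1 + α 2 + β f)) := by
    have h1 := one_count hu1 hx hux hu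
    have hlt : (A \ cho R A x).card + (B.erase x).card < A.card + B.card := by
      have h1 := Finset.card_erase_lt_of_mem hx
      have h2 := Finset.card_le_card (Finset.sdiff_subset : A \ cho R A x ⊆ A)
      omega
    have h4 := IH _ _ hlt
    have h5 := gain_star (R := R) h (A := A) hx
    have h6 : ((f : ℝ) - 1) * α 1 + α 2 ≤ ∑ w ∈ cho R A x, α (sz R w B) := by
      have hgc : g ∈ cho R A x := mem_cho.mpr ⟨hg, hgx⟩
      rw [← Finset.add_sum_erase _ _ hgc]
      have h7 : α 2 ≤ α (sz R g B) := h.am hg2
      have h8 : ((f : ℝ) - 1) * α 1 ≤ ∑ w ∈ (cho R A x).erase g, α (sz R w B) := by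
        have h9 : (((cho R A x).erase g).card : ℝ) = (f : ℝ) - 1 := by
          have := Finset.card_erase_add_one hgc
          rw [card_cho] at this
          have h10 : ((((cho R A x).erase g).card : ℕ) : ℝ) + 1 = f := by exact_mod_cast this
          linarith
        calc ((f : ℝ) - 1) * α 1 = ∑ _w ∈ (cho R A x).erase g, α 1 := by
              rw [Finset.sum_const, nsmul_eq_mul, h9]
          _ ≤ _ := Finset.sum_le_sum (fun w hw => h.am (hsz1 w (mem_cho.mp (Finset.mem_of_mem_erase hw)).1))
      linarith
    refine le_trans (by exact_mod_cast h1) (h4.trans (Real.exp_le_exp.mpr ?_))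
    linarith
  have hsplit : ((mc R A B).card : ℝ) = (((mc R A B).filter (fun D => u ∈ D)).card : ℝ)
      + (((mc R A B).filter (fun D => ¬ u ∈ D)).card : ℝ) := by
    exact_mod_cast (Finset.card_filter_add_card_filter_not (s := mc R A B) (fun D => u ∈ D)).symm
  rw [hsplit]
  rcases Nat.lt_or_ge 2 f with hf3 | hf3
  · -- frequency at least three
    have hout : (((mc R A B).filter (fun D => ¬ u ∈ D)).card : ℝ) ≤
        Real.exp (mu2 R α β A B - (α 1 + (β f - β (f - 1)))) := by
      have h1 := Finset.card_le_card (mc_out (R := R) (A := A) (B := B) u)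
      have hlt : (A.erase u).card + B.card < A.card + B.card := by
        have := Finset.card_erase_lt_of_mem hu; omega
      have h4 := IH _ _ hlt
      have hgain := mu2_gain (R := R) (α := α) (β := β) (A := A) (A' := A.erase u) (B := B) (B' := B)
        (Finset.erase_subset _ _) (Finset.Subset.refl _)
        (fun w => if w = u then α 1 else 0) (fun e => if e = x then β f - β (f - 1) else 0)
        (by
          intro w hw hnot
          have : w = u := by
            by_contra hne; exact hnot (Finset.mem_erase.mpr ⟨hne, hw⟩)
          subst this; simp [hu1])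
        (by
          intro w hw
          have : w ≠ u := (Finset.mem_erase.mp hw).1
          simp [this])
        (by intro e he hnot; exact absurd he hnot)
        (by
          intro e he
          by_cases hex : e = x
          · subst hex
            simp only [if_true]
            have h6 : fr R (A.erase u) e ≤ f - 1 := by
              have h7 : fr R (A.erase u) e < f := by
                apply Finset.card_lt_card
                rw [Finset.ssubset_iff_of_subset (Finset.filter_subset_filter _ (Finset.erase_subset _ _))]
                refine ⟨u, Finset.mem_filter.mpr ⟨hu, hux⟩, ?_⟩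
                intro h8
                exact (Finset.mem_erase.mp (Finset.mem_filter.mp h8).1).1 rfl
              omega
            have h7 := h.bm h6
            rw [← hf]; linarith
          · simp only [hex, if_false, zero_add]
            exact h.bm (fr_mono e (Finset.erase_subset _ _)))
      have e1 : ∑ w ∈ A, (if w = u then α 1 else 0) = α 1 := by
        rw [Finset.sum_ite_eq' A u (fun _ => α 1)]; simp [hu]
      have e2 : ∑ e ∈ B, (if e = x then β f - β (f - 1) else 0) = β f - β (f - 1) := by
        rw [Finset.sum_ite_eq' B x (fun _ => β f - β (f - 1))]; simp [hx]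
      rw [e1, e2] at hgain
      refine le_trans (by exact_mod_cast h1) (h4.trans (Real.exp_le_exp.mpr ?_))
      linarith
    refine (add_le_add hin hout).trans ?_
    exact exp_two (h3 f hf3)
  · -- frequency two
    have hfe : f = 2 := le_antisymm hf3 hf2
    have hfx : fr R A x = 2 := by rw [← hf]; exact hfe
    obtain ⟨g', hg'A, hg'u, hg'x, hall⟩ := two_choosers hfx hu hux
    have hgg : g = g' := by
      rcases hall g hg hgx with h5 | h5
      · exact absurd h5.symm hug
      · exact h5
    subst hgg
    -- another element of g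
    obtain ⟨y, hy, hyx⟩ : ∃ y ∈ B.filter (fun e => R g e), y ≠ x :=
      Finset.exists_mem_ne (by unfold sz at hg2; omega) x
    have hy' := Finset.mem_filter.mp hy
    have hout : (((mc R A B).filter (fun D => ¬ u ∈ D)).card : ℝ) ≤
        Real.exp (mu2 R α β A B - (α 1 + α 2 + β 2 + β 2)) := by
      have h1 := mc_take (R := R) (A := A) (B := B) {g} {u, g} ((mc R A B).filter (fun D => ¬ u ∈ D))
        (Finset.filter_subset _ _) (by
          intro D hD
          have hD' := Finset.mem_filter.mp hD
          have hDm := mem_mc.mp hD'.1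
          have hgD : g ∈ D := by
            obtain ⟨z, hz, hzx⟩ := hDm.2.1 x hx
            rcases hall z (hDm.1 hz) hzx with h5 | h5
            · exact absurd (h5 ▸ hz) hD'.2
            · rw [← h5]; exact hz
          ext z
          simp only [Finset.mem_inter, Finset.mem_insert, Finset.mem_singleton]
          constructor
          · rintro ⟨hz, rfl | rfl⟩
            · exact absurd hz hD'.2
            · rfl
          · rintro rfl
            exact ⟨hgD, Or.inr rfl⟩)
      set A' := A \ {u, g} with hA'
      set B' := B.filter (fun e => ∀ w ∈ ({g} : Finset ι), ¬ R w e) with hB'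
      have hB'eq : ∀ e, e ∈ B' ↔ e ∈ B ∧ ¬ R g e := by
        intro e; rw [hB', Finset.mem_filter]; simp
      have hlt : A'.card + B'.card < A.card + B.card := by
        have h2 : A'.card < A.card := Finset.card_lt_card (Finset.sdiff_ssubset
          (by intro z hz; simp only [Finset.mem_insert, Finset.mem_singleton] at hz; rcases hz with rfl | rfl <;> assumption)
          (by simp))
        have h3 : B'.card ≤ B.card := Finset.card_le_card (Finset.filter_subset _ _)
        omega
      have h4 := IH _ _ hlt
      have hgain := mu2_gain (R := R) (α := α) (β := β) (A := A) (A' := A') (B := B) (B' := B')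
        Finset.sdiff_subset (Finset.filter_subset _ _)
        (fun w => (if w = u then α 1 else 0) + (if w = g then α 2 else 0))
        (fun e => (if e = x then β 2 else 0) + (if e = y then β 2 else 0))
        (by
          intro w hw hnot
          have : w = u ∨ w = g := by
            by_contra hne
            exact hnot (Finset.mem_sdiff.mpr ⟨hw, by simpa using hne⟩)
          rcases this with rfl | rfl
          · simp [hug, hu1]
          · simp [hg'u, h.am hg2])
        (by
          intro w hw
          have hw' := (Finset.mem_sdiff.mp hw).2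
          simp only [Finset.mem_insert, Finset.mem_singleton, not_or] at hw'
          simp only [hw'.1, hw'.2, if_false, zero_add]
          exact h.am (sz_mono w (Finset.filter_subset _ _)))
        (by
          intro e he hnot
          have hb := h.bm (hred.fr2 e he)
          by_cases hex : e = x
          · subst hex
            have : ¬ e = y := fun hh => hyx hh.symm
            simp only [if_true, this, if_false, add_zero]; exact hb
          · by_cases hey : e = y
            · subst hey
              simp only [hex, if_true, if_false, zero_add]; exact hb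
            · simp only [hex, hey, if_false, add_zero]; exact h.bn _)
        (by
          intro e he
          have he' := (hB'eq e).mp he
          have h5 : e ≠ x := by rintro rfl; exact he'.2 hgx
          have h6 : e ≠ y := by rintro rfl; exact he'.2 hy'.2
          simp only [h5, h6, if_false, add_zero, zero_add]
          exact h.bm (fr_mono e Finset.sdiff_subset))
      have e1 : ∑ w ∈ A, ((if w = u then α 1 else 0) + (if w = g then α 2 else 0)) = α 1 + α 2 := by
        rw [Finset.sum_add_distrib, Finset.sum_ite_eq' A u (fun _ => α 1), Finset.sum_ite_eq' A g (fun _ => α 2)]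
        simp [hu, hg]
      have e2 : ∑ e ∈ B, ((if e = x then β 2 else 0) + (if e = y then β 2 else 0)) = β 2 + β 2 := by
        rw [Finset.sum_add_distrib, Finset.sum_ite_eq' B x (fun _ => β 2), Finset.sum_ite_eq' B y (fun _ => β 2)]
        simp [hx, hy'.1]
      rw [e1, e2] at hgain
      refine le_trans (by exact_mod_cast h1) (h4.trans (Real.exp_le_exp.mpr ?_))
      linarith
    have hin' : (((mc R A B).filter (fun D => u ∈ D)).card : ℝ) ≤
        Real.exp (mu2 R α β A B - (α 1 + α 2 + β 2)) := by
      refine hin.trans (Real.exp_le_exp.mpr ?_)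
      rw [hfe]; push_cast; linarith
    refine (add_le_add hin' hout).trans ?_
    exact exp_two h2

end Pool.Agent.MDS81
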