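import Pool.Agent.MDS81.Prod2

set_option autoImplicit false

/-! The weights for the balanced bound. -/

namespace Pool.Agent.MDS81

open Finset

noncomputable def xc : ℕ → ℝ
  | 0 => 1
  | 1 => 7522 / 10000
  | 2 => 7453 / 10000
  | 3 => 7388 / 10000
  | 4 => 7388 / 10000
  | 5 => 7388 / 10000
  | _ => 7388 / 10000

noncomputable def yc : ℕ → ℝ
  | 0 => 1
  | 1 => 1
  | 2 => 8832 / 10000
  | 3 => 7831 / 10000
  | 4 => 7409 / 10000
  | _ => 7386 / 10000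

lemma xc0 : xc 0 = 1 := rfl
lemma xc1 : xc 1 = 7522 / 10000 := rfl
lemma xc2 : xc 2 = 7453 / 10000 := rfl
lemma xc3 : xc 3 = 7388 / 10000 := rfl
lemma xc4 : xc 4 = 7388 / 10000 := rfl
lemma xc5 : xc 5 = 7388 / 10000 := rfl
lemma xc6 : xc 6 = 7388 / 10000 := rfl
lemma xc7 : xc 7 = 7388 / 10000 := rfl
lemma yc0 : yc 0 = 1 := rfl
lemma yc1 : yc 1 = 1 := rfl
lemma yc2 : yc 2 = 8832 / 10000 := rfl
lemma yc3 : yc 3 = 7831 / 10000 := rfl
lemma yc4 : yc 4 = 7409 / 10000 := rfl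
lemma yc5 : yc 5 = 7386 / 10000 := rfl
lemma yc6 : yc 6 = 7386 / 10000 := rfl
lemma yc7 : yc 7 = 7386 / 10000 := rfl

lemma xc_sat (k : ℕ) (hk : 6 ≤ k) : xc k = xc 6 := by
  obtain ⟨j, rfl⟩ := Nat.exists_eq_add_of_le' hk
  rfl

lemma yc_sat (k : ℕ) (hk : 5 ≤ k) : yc k = yc 5 := by
  obtain ⟨j, rfl⟩ := Nat.exists_eq_add_of_le' hk
  rfl

theorem chk_c : Chk xc yc := by
  refine ⟨xc0, yc0, yc1, by rw [xc6]; norm_num, by rw [yc5]; norm_num, xc_sat, yc_sat, ?_, ?_, ?_, ?_, ?_, ?_,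
    ?_, ?_, ?_, ?_, ?_, ?_⟩
  · intro k hk
    interval_cases k <;> norm_num [xc0, xc1, xc2, xc3, xc4, xc5, xc6]
  · intro k hk
    interval_cases k <;> norm_num [xc0, xc1, xc2, xc3, xc4, xc5, xc6]
  · intro k hk
    interval_cases k <;> norm_num [yc0, yc1, yc2, yc3, yc4, yc5]
  · intro s f h1 h2 h3 h4
    interval_cases s <;> interval_cases f <;>
      norm_num [bigT, qp, lf, xc0, xc1, xc2, xc3, xc4, xc5, xc6, xc7, yc0, yc1, yc2, yc3, yc4, yc5, yc6, yc7]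
  · rw [xc1]; norm_num
  · intro f hf
    interval_cases f <;> norm_num [xc1, yc0, yc1, yc2, yc3, yc4, yc5, yc6]
  · norm_num [xc1, xc2, yc2]
  · intro f h1 h2
    interval_cases f <;> norm_num [lf, xc1, xc2, yc2, yc3, yc4, yc5, yc6]
  · intro f g h1 h2 h3 h4
    interval_cases f <;> interval_cases g <;>
      norm_num [g2T, lp, lf, xc1, xc2, yc1, yc2, yc3, yc4, yc5, yc6]
  · intro a b c h1 h2 h3 h4 h5 h6
    interval_cases a <;> interval_cases b <;> interval_cases c <;>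
      (refine ⟨?_, ?_, ?_, ?_⟩ <;>
      norm_num [g3T, l5, lf, xc1, xc2, yc1, yc2, yc3, yc4, yc5, yc6])
  · intro f g h1 h2 h3 h4
    interval_cases f <;> interval_cases g <;>
      norm_num [g3bT, lp2, lf, xc1, xc2, yc1, yc2, yc3, yc4, yc5, yc6, yc7]
  · intro f g h1 h2 h3 h4
    interval_cases f <;> interval_cases g <;>
      norm_num [g4T, lf, xc1, xc2, yc1, yc2, yc3, yc4, yc5, yc6]

end Pool.Agent.MDS81
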