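import Pool.Agent.MDS81.Prod2

set_option autoImplicit false

/-! The weights for the bound on all graphs. -/

namespace Pool.Agent.MDS81

open Finset

noncomputable def xg : ℕ → ℝ
  | 0 => 1
  | 1 => 7077 / 10000
  | 2 => 6860 / 10000
  | 3 => 6650 / 10000
  | 4 => 6558 / 10000
  | 5 => 6519 / 10000
  | _ => 6509 / 10000

noncomputable def yg : ℕ → ℝ
  | 0 => 1
  | 1 => 1
  | 2 => 9983 / 10000
  | 3 => 9358 / 10000
  | 4 => 9129 / 10000
  | _ => 9083 / 10000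

lemma xg0 : xg 0 = 1 := rfl
lemma xg1 : xg 1 = 7077 / 10000 := rfl
lemma xg2 : xg 2 = 6860 / 10000 := rfl
lemma xg3 : xg 3 = 6650 / 10000 := rfl
lemma xg4 : xg 4 = 6558 / 10000 := rfl
lemma xg5 : xg 5 = 6519 / 10000 := rfl
lemma xg6 : xg 6 = 6509 / 10000 := rfl
lemma xg7 : xg 7 = 6509 / 10000 := rfl
lemma yg0 : yg 0 = 1 := rfl
lemma yg1 : yg 1 = 1 := rfl
lemma yg2 : yg 2 = 9983 / 10000 := rfl
lemma yg3 : yg 3 = 9358 / 10000 := rfl
lemma yg4 : yg 4 = 9129 / 10000 := rfl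
lemma yg5 : yg 5 = 9083 / 10000 := rfl
lemma yg6 : yg 6 = 9083 / 10000 := rfl
lemma yg7 : yg 7 = 9083 / 10000 := rfl

lemma xg_sat (k : ℕ) (hk : 6 ≤ k) : xg k = xg 6 := by
  obtain ⟨j, rfl⟩ := Nat.exists_eq_add_of_le' hk
  rfl

lemma yg_sat (k : ℕ) (hk : 5 ≤ k) : yg k = yg 5 := by
  obtain ⟨j, rfl⟩ := Nat.exists_eq_add_of_le' hk
  rfl

theorem chk_g : Chk xg yg := by
  refine ⟨xg0, yg0, yg1, by rw [xg6]; norm_num, by rw [yg5]; norm_num, xg_sat, yg_sat, ?_, ?_, ?_, ?_, ?_, ?_,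
    ?_, ?_, ?_, ?_, ?_, ?_⟩
  · intro k hk
    interval_cases k <;> norm_num [xg0, xg1, xg2, xg3, xg4, xg5, xg6]
  · intro k hk
    interval_cases k <;> norm_num [xg0, xg1, xg2, xg3, xg4, xg5, xg6]
  · intro k hk
    interval_cases k <;> norm_num [yg0, yg1, yg2, yg3, yg4, yg5]
  · intro s f h1 h2 h3 h4
    interval_cases s <;> interval_cases f <;>
      norm_num [bigT, qp, lf, xg0, xg1, xg2, xg3, xg4, xg5, xg6, xg7, yg0, yg1, yg2, yg3, yg4, yg5, yg6, yg7]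
  · rw [xg1]; norm_num
  · intro f hf
    interval_cases f <;> norm_num [xg1, yg0, yg1, yg2, yg3, yg4, yg5, yg6]
  · norm_num [xg1, xg2, yg2]
  · intro f h1 h2
    interval_cases f <;> norm_num [lf, xg1, xg2, yg2, yg3, yg4, yg5, yg6]
  · intro f g h1 h2 h3 h4
    interval_cases f <;> interval_cases g <;>
      norm_num [g2T, lp, lf, xg1, xg2, yg1, yg2, yg3, yg4, yg5, yg6]
  · intro a b c h1 h2 h3 h4 h5 h6
    interval_cases a <;> interval_cases b <;> interval_cases c <;>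
      (refine ⟨?_, ?_, ?_, ?_⟩ <;>
      norm_num [g3T, l5, lf, xg1, xg2, yg1, yg2, yg3, yg4, yg5, yg6])
  · intro f g h1 h2 h3 h4
    interval_cases f <;> interval_cases g <;>
      norm_num [g3bT, lp2, lf, xg1, xg2, yg1, yg2, yg3, yg4, yg5, yg6, yg7]
  · intro f g h1 h2 h3 h4
    interval_cases f <;> interval_cases g <;>
      norm_num [g4T, lf, xg1, xg2, yg1, yg2, yg3, yg4, yg5, yg6]

end Pool.Agent.MDS81
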