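import Pool.Agent.MDS81.Main

set_option autoImplicit false

/-! Concrete weights. -/

namespace Pool.Agent.MDS81

open Finset

/-- weight of an element -/
noncomputable def b0 : ℝ := -Real.log (863 / 1000)

/-- weights of choosers -/
noncomputable def a0 : ℕ → ℝ
  | 0 => 0
  | 1 => -Real.log (29 / 40)
  | 2 => -Real.log (33 / 50)
  | _ => 3 * b0

lemma a0_zero : a0 0 = 0 := rfl
lemma a0_one : a0 1 = -Real.log (29 / 40) := rfl
lemma a0_two : a0 2 = -Real.log (33 / 50) := rfl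
lemma a0_ge (k : ℕ) : a0 (k + 3) = 3 * b0 := rfl

lemma three_b0 : 3 * b0 = -Real.log ((863 / 1000) ^ 3) := by
  unfold b0; rw [Real.log_pow]; push_cast; ring

lemma exp_b0 (k : ℕ) : Real.exp (-(k * b0)) = (863 / 1000 : ℝ) ^ k := by
  unfold b0
  rw [mul_neg, neg_neg, Real.exp_nat_mul, Real.exp_log (by norm_num)]

lemma exp_b0' (k : ℕ) : Real.exp (k * b0) = (1000 / 863 : ℝ) ^ k := by
  have h := exp_b0 k
  rw [Real.exp_neg] at h
  have h2 : Real.exp (k * b0) = ((863 / 1000 : ℝ) ^ k)⁻¹ := by rw [← h, inv_inv]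
  rw [h2, ← inv_pow]; norm_num

lemma exp_a1 (k : ℕ) : Real.exp (-(k * a0 1)) = (29 / 40 : ℝ) ^ k := by
  rw [a0_one, mul_neg, neg_neg, Real.exp_nat_mul, Real.exp_log (by norm_num)]

lemma exp_a2 (k : ℕ) : Real.exp (-(k * a0 2)) = (33 / 50 : ℝ) ^ k := by
  rw [a0_two, mul_neg, neg_neg, Real.exp_nat_mul, Real.exp_log (by norm_num)]

lemma b0_pos : 0 < b0 := by
  unfold b0; have := Real.log_neg (show (0:ℝ) < 863 / 1000 by norm_num) (by norm_num); linarith

lemma exp_pos_a1 (k : ℕ) : Real.exp (k * a0 1) = (40 / 29 : ℝ) ^ k := by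
  have h := exp_a1 k
  rw [Real.exp_neg] at h
  have h2 : Real.exp (k * a0 1) = ((29 / 40 : ℝ) ^ k)⁻¹ := by rw [← h, inv_inv]
  rw [h2, ← inv_pow]; norm_num

/-- comparison of logarithms -/
lemma le_of_exp {x y : ℝ} (h : Real.exp x ≤ Real.exp y) : x ≤ y := Real.exp_le_exp.mp h

lemma wt0 : Wt a0 b0 := by
  have e0 : ∀ x : ℝ, x = ((1 : ℕ) : ℝ) * x := by intro x; simp
  have E1 : Real.exp (-(a0 1)) = 29 / 40 := by have := exp_a1 1; simpa using this
  have E2 : Real.exp (-(a0 2)) = 33 / 50 := by have := exp_a2 1; simpa using this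
  have E3 : Real.exp (-(3 * b0)) = (863 / 1000) ^ 3 := by have := exp_b0 3; simpa using this
  have m01 : a0 0 ≤ a0 1 := by
    rw [a0_zero, a0_one]
    have := Real.log_neg (show (0:ℝ) < 29 / 40 by norm_num) (by norm_num); linarith
  have m12 : a0 1 ≤ a0 2 := by
    have : Real.exp (-(a0 2)) ≤ Real.exp (-(a0 1)) := by rw [E1, E2]; norm_num
    have := Real.exp_le_exp.mp this; linarith
  have m23 : a0 2 ≤ 3 * b0 := by
    have : Real.exp (-(3 * b0)) ≤ Real.exp (-(a0 2)) := by rw [E3, E2]; norm_num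
    have := Real.exp_le_exp.mp this; linarith
  have c1 : a0 2 - a0 1 ≤ a0 1 - a0 0 := by
    -- a2 ≤ 2 a1
    rw [a0_zero]
    have h1 : Real.exp (-(2 * a0 1)) ≤ Real.exp (-(a0 2)) := by
      have := exp_a1 2
      rw [show -(2 * a0 1) = -(((2:ℕ):ℝ) * a0 1) by norm_num, this, E2]; norm_num
    have := Real.exp_le_exp.mp h1; linarith
  have c2 : 3 * b0 - a0 2 ≤ a0 2 - a0 1 := by
    -- 3 b + a1 ≤ 2 a2
    have h1 : Real.exp (-(2 * a0 2)) ≤ Real.exp (-(3 * b0) + -(a0 1)) := by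
      have := exp_a2 2
      rw [show -(2 * a0 2) = -(((2:ℕ):ℝ) * a0 2) by norm_num, this, Real.exp_add, E1, E3]; norm_num
    have := Real.exp_le_exp.mp h1; linarith
  refine ⟨a0_zero, ?_, ?_, b0_pos.le, ?_, ?_, ?_⟩
  · intro k
    match k with
    | 0 => exact m01
    | 1 => exact m12
    | 2 => exact m23
    | (k + 3) => exact le_rfl
  · intro k
    match k with
    | 0 => exact c1
    | 1 => exact c2
    | 2 => show 3 * b0 - 3 * b0 ≤ 3 * b0 - a0 2; linarith
    | (k + 3) => show 3 * b0 - 3 * b0 ≤ 3 * b0 - 3 * b0; exact le_rfl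
  · intro s
    match s with
    | 0 =>
      have h1 : Real.exp (-((((0 : ℕ) : ℝ) + 2) * b0 + 2 * (((0 : ℕ) : ℝ) + 2) * (a0 (0 + 2) - a0 (0 + 1))))
          = (863 / 1000) ^ 2 * (33 / 50) ^ 4 * (40 / 29) ^ 4 := by
        have := exp_b0 2
        have h2 := exp_a2 4
        have h3 := exp_pos_a1 4
        rw [← this, ← h2, ← h3, ← Real.exp_add, ← Real.exp_add]
        congr 1
        push_cast
        ring
      rw [h1, show a0 (0 + 2) = a0 2 from rfl, E2]; norm_num
    | 1 =>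
      have h1 : Real.exp (-((((1 : ℕ) : ℝ) + 2) * b0 + 2 * (((1 : ℕ) : ℝ) + 2) * (a0 (1 + 2) - a0 (1 + 1))))
          = (863 / 1000) ^ 21 * (50 / 33) ^ 6 := by
        have h2 := exp_b0 21
        have h3 : Real.exp ((6:ℕ) * a0 2) = (50 / 33 : ℝ) ^ 6 := by
          have h := exp_a2 6
          rw [Real.exp_neg] at h
          have h4 : Real.exp (((6:ℕ):ℝ) * a0 2) = ((33 / 50 : ℝ) ^ 6)⁻¹ := by rw [← h, inv_inv]
          rw [h4, ← inv_pow]; norm_num
        rw [← h2, ← h3, ← Real.exp_add]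
        congr 1
        rw [show a0 (1 + 2) = 3 * b0 from rfl, show a0 (1 + 1) = a0 2 from rfl]
        push_cast
        ring
      rw [h1, show a0 (1 + 2) = 3 * b0 from rfl, E3]; norm_num
    | (s + 2) =>
      rw [show a0 (s + 2 + 2) = 3 * b0 from rfl, show a0 (s + 2 + 1) = 3 * b0 from rfl, E3]
      have h1 : Real.exp (-((((s + 2 : ℕ) : ℝ) + 2) * b0 + 2 * (((s + 2 : ℕ) : ℝ) + 2) * (3 * b0 - 3 * b0)))
          ≤ Real.exp (-(((4 : ℕ) : ℝ) * b0)) := by
        apply Real.exp_le_exp.mpr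
        push_cast
        have : 0 ≤ (s : ℝ) * b0 := mul_nonneg (Nat.cast_nonneg _) b0_pos.le
        nlinarith
      rw [exp_b0 4] at h1
      nlinarith
  · intro s
    have E1b : Real.exp (-(a0 1 + b0)) = 29 / 40 * (863 / 1000) := by
      have h2 := exp_b0 1
      rw [show -(a0 1 + b0) = -(a0 1) + -(((1:ℕ):ℝ) * b0) by push_cast; ring, Real.exp_add, E1, h2]; norm_num
    match s with
    | 0 =>
      have h1 : Real.exp (-((((0 : ℕ) : ℝ) + 2) * b0 + (((0 : ℕ) : ℝ) + 2) * (a0 (0 + 2) - a0 (0 + 1))))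
          = (863 / 1000) ^ 2 * (33 / 50) ^ 2 * (40 / 29) ^ 2 := by
        have := exp_b0 2
        have h2 := exp_a2 2
        have h3 := exp_pos_a1 2
        rw [← this, ← h2, ← h3, ← Real.exp_add, ← Real.exp_add]
        congr 1
        push_cast
        ring
      rw [h1, E1b, show a0 (0 + 2) = a0 2 from rfl, E2]; norm_num
    | 1 =>
      have h1 : Real.exp (-((((1 : ℕ) : ℝ) + 2) * b0 + (((1 : ℕ) : ℝ) + 2) * (a0 (1 + 2) - a0 (1 + 1))))
          = (863 / 1000) ^ 12 * (50 / 33) ^ 3 := by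
        have h2 := exp_b0 12
        have h3 : Real.exp ((3:ℕ) * a0 2) = (50 / 33 : ℝ) ^ 3 := by
          have h := exp_a2 3
          rw [Real.exp_neg] at h
          have h4 : Real.exp (((3:ℕ):ℝ) * a0 2) = ((33 / 50 : ℝ) ^ 3)⁻¹ := by rw [← h, inv_inv]
          rw [h4, ← inv_pow]; norm_num
        rw [← h2, ← h3, ← Real.exp_add]
        congr 1
        rw [show a0 (1 + 2) = 3 * b0 from rfl, show a0 (1 + 1) = a0 2 from rfl]
        push_cast
        ring
      rw [h1, E1b, show a0 (1 + 2) = 3 * b0 from rfl, E3]; norm_num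
    | (s + 2) =>
      rw [show a0 (s + 2 + 2) = 3 * b0 from rfl, show a0 (s + 2 + 1) = 3 * b0 from rfl, E3, E1b]
      have h1 : Real.exp (-((((s + 2 : ℕ) : ℝ) + 2) * b0 + (((s + 2 : ℕ) : ℝ) + 2) * (3 * b0 - 3 * b0)))
          ≤ Real.exp (-(((4 : ℕ) : ℝ) * b0)) := by
        apply Real.exp_le_exp.mpr
        push_cast
        have : 0 ≤ (s : ℝ) * b0 := mul_nonneg (Nat.cast_nonneg _) b0_pos.le
        nlinarith
      rw [exp_b0 4] at h1
      nlinarith
  · intro f
    have hb1 : Real.exp b0 = 1000 / 863 := by have := exp_b0' 1; simpa using this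
    have key : ∀ f : ℕ, Real.exp (a0 1 * f + b0) = (40 / 29 : ℝ) ^ f * (1000 / 863) := by
      intro f
      rw [Real.exp_add, hb1, mul_comm (a0 1) _, exp_pos_a1]
    rw [key]
    rcases Nat.lt_or_ge f 3 with hf | hf
    · interval_cases f <;> norm_num
    · induction f, hf using Nat.le_induction with
      | base => norm_num
      | succ f hf ih =>
        rw [pow_succ]
        push_cast
        have hf3 : (3 : ℝ) ≤ f := by exact_mod_cast hf
        have h1 : (0:ℝ) < (40 / 29 : ℝ) ^ f := by positivity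
        nlinarith

lemma a0_le (k : ℕ) : a0 k ≤ 3 * b0 := by
  have h := wt0.monotone (Nat.le_add_right k 3)
  rw [a0_ge] at h; exact h

/-- the final numerical inequality -/
lemma final_num : 3 * b0 + 1 / 1000 + b0 / 20 ≤ Real.log 15 / 6 := by
  have h1 : Real.exp (10 * (6 * (3 * b0 + 1 / 1000 + b0 / 20))) ≤ Real.exp (10 * Real.log 15) := by
    have e1 : 10 * (6 * (3 * b0 + 1 / 1000 + b0 / 20)) = ((183 : ℕ) : ℝ) * b0 + 3 / 50 := by push_cast; ring
    have e2 : Real.exp (10 * Real.log 15) = 15 ^ 10 := by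
      rw [show (10 : ℝ) * Real.log 15 = ((10 : ℕ) : ℝ) * Real.log 15 by norm_num, Real.exp_nat_mul,
        Real.exp_log (by norm_num)]
    rw [e1, e2, Real.exp_add, exp_b0']
    have e3 : Real.exp (3 / 50) ≤ 107 / 100 := by
      have h2 := Real.add_one_le_exp (-(3 / 50 : ℝ))
      have h3 : Real.exp (3 / 50) * Real.exp (-(3 / 50)) = 1 := by rw [← Real.exp_add]; simp
      have h4 := Real.exp_pos (3 / 50 : ℝ)
      nlinarith
    calc (1000 / 863 : ℝ) ^ 183 * Real.exp (3 / 50) ≤ (1000 / 863 : ℝ) ^ 183 * (107 / 100) :=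
          mul_le_mul_of_nonneg_left e3 (by positivity)
      _ ≤ 15 ^ 10 := by norm_num
  have h2 := Real.exp_le_exp.mp h1
  linarith

end Pool.Agent.MDS81
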